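import Pool.Agent.H676.DT

/-!
# Objects of the proof: forests of NOR gates, biased bits, random projections
-/

namespace Pool.Agent.H620R2.PHG

open Finset H568R2 Pool.Agent.H676

/-- Expectation of `F` when the coordinates are independent and coordinate `i` has the weights
`W i`. -/
noncomputable def Ew {ι A : Type*} [Fintype ι] [DecidableEq ι] [Fintype A] (W : ι → A → ℝ)
    (F : (ι → A) → ℝ) : ℝ := ∑ ω : ι → A, (∏ i, W i (ω i)) * F ω

/-- weights of a bit that is `true` with probability `q` -/
noncomputable def bern (q : ℝ) (b : Bool) : ℝ := if b then q else 1 - q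

/-- Weights of a masked bit: if `s` is true, then it is `true` with probability `t`; if `s` is
false, then it is `false`. -/
noncomputable def mw (t : ℝ) (s b : Bool) : ℝ := if s then bern t b else (if b then 0 else 1)

/-- A configuration of a gate of fan-in `w`: the star flag and the content. -/
abbrev Conf (w : ℕ) : Type := Bool × (Fin w → Bool)

/-- the number of alive children -/
def alv {w : ℕ} (s : Fin w → Bool) : ℕ := (univ.filter (fun c => s c = true)).card

/-- the weight of a content when the alive children are given by `s` -/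
noncomputable def zw {w : ℕ} (t : ℝ) (s z : Fin w → Bool) : ℝ := ∏ c, mw t (s c) (z c)

/-- the probability that the content is zero -/
noncomputable def p0 {w : ℕ} (t : ℝ) (s : Fin w → Bool) : ℝ := (1 - t) ^ alv s

/-- The weight of a configuration: the gate is a star with probability `q`, and independently of
that the content is random, but not zero. -/
noncomputable def cw {w : ℕ} (t : ℝ) (s : Fin w → Bool) (q : ℝ) (x : Conf w) : ℝ :=
  bern q x.1 * (if x.2 = (fun _ => false) then 0 else zw t s x.2 / (1 - p0 t s))

/-- The variables, as functions of the values `Y` of the gates: they are the content `z` of the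
gate, except if the gate is a star and its value is `true` (then all variables are `false`). -/
def xr {G : Type*} {w : ℕ} (ρ : G → Conf w) (Y : G → Bool) : G × Fin w → Bool :=
  fun v => (ρ v.1).2 v.2 && !((ρ v.1).1 && Y v.1)

/-- Boolean functions given by `d` alternating levels (disjunctions of at most `M` negations) over
decision trees of depth `W`. -/
def Lvl {ι : Type*} [Fintype ι] [DecidableEq ι] (M W : ℕ) : ℕ → ((ι → Bool) → Bool) → Prop
  | 0, f => DTr W f
  | d + 1, f => ∃ F : Fin M → ((ι → Bool) → Bool), (∀ m, Lvl M W d (F m)) ∧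
      ∀ x, f x = true ↔ ∃ m, F m x = false

/-- the positions: a root and a list of children numbers, the fan-in of the last one first -/
def V (I : Type) : List ℕ → Type
  | [] => I
  | w :: ws => V I ws × Fin w

instance V.fintype {I : Type} [Fintype I] : ∀ ws : List ℕ, Fintype (V I ws)
  | [] => inferInstanceAs (Fintype I)
  | w :: ws =>
    letI := V.fintype (I := I) ws
    inferInstanceAs (Fintype (V I ws × Fin w))

instance V.decidableEq {I : Type} [DecidableEq I] : ∀ ws : List ℕ, DecidableEq (V I ws)
  | [] => inferInstanceAs (DecidableEq I)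
  | w :: ws =>
    letI := V.decidableEq (I := I) ws
    inferInstanceAs (DecidableEq (V I ws × Fin w))

/-- The values of the roots of the forest of NOR gates. -/
def nt {I : Type} : (ws : List ℕ) → (V I ws → Bool) → I → Bool
  | [], x => x
  | w :: ws, x => nt ws (fun g => decide (∀ c : Fin w, x (g, c) = false))

/-- The probability that all the functions `G i` compute the values of the roots. -/
noncomputable def PR {I : Type} [Fintype I] [DecidableEq I] (ws : List ℕ) (st : V I ws → Bool)
    (t : ℝ) (G : I → ((V I ws → Bool) → Bool)) : ℝ :=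
  Ew (fun v => mw t (st v)) (fun x => if ∀ i, G i x = nt ws x i then 1 else 0)

/-! ### The parameters -/

/-- `- log₂ (1 - t)` -/
noncomputable def lam (t : ℝ) : ℝ := - Real.logb 2 (1 - t)

/-- the exponent of the gates with `h` levels above (including the root) -/
def Nx (n h : ℕ) : ℕ := if h ≤ 1 then 1 else 4 * n * 8 ^ (h - 1)

/-- the bias of the variables when `h` levels remain -/
noncomputable def tx (n h : ℕ) : ℝ := (1 / 2) ^ (2 * n * 8 ^ h)

/-- the tolerance when `h` levels remain -/
noncomputable def tol (k n h : ℕ) : ℝ := 1 / (32 * n * 8 ^ k : ℝ) ^ h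

/-- the fan-in of the gates whose children are the variables when `h` of `k` levels remain -/
noncomputable def wf (k n h : ℕ) : ℕ :=
  if h = k then ⌊(Nx n h : ℝ) / lam (tx n h)⌋₊
  else ⌊(Nx n h : ℝ) * (tx n h * 2 ^ Nx n (h + 1)) / lam (tx n h)⌋₊

/-- the list of the fan-ins when `h` of `k` levels remain -/
noncomputable def wl (k n : ℕ) : ℕ → List ℕ
  | 0 => []
  | h + 1 => wf k n (h + 1) :: wl k n h

/-- the roots -/
abbrev Root (n : ℕ) : Type := Fin (2 ^ n) × Fin (2 ^ (2 * n + 2))

/-- the mask is regular: every gate has about the right number of alive children -/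
def Regular (k n h : ℕ) {w : ℕ} {G : Type} (st : G × Fin w → Bool) : Prop :=
  ∀ g : G, |(alv (fun c => st (g, c)) : ℝ) * lam (tx n h) - Nx n h| ≤ tol k n h

/-! ### Objects of the switching lemma -/

/-- decision tree depth at least `s` -/
def DGe {ι : Type*} [Fintype ι] [DecidableEq ι] (s : ℕ) (f : (ι → Bool) → Bool) : Prop :=
  s = 0 ∨ ¬ DTr (s - 1) f

/-- Local domination of the weights `a` by the weights `a'`: configurations that are stars and
show the positive literals `P`, and one literal of `P ∪ N` at all, are dominated by the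
configurations that are not stars and satisfy the literals. -/
def LD {w : ℕ} (W : ℕ) (r : ℝ) (a a' : Conf w → ℝ) : Prop :=
  (∀ x, 0 ≤ a x) ∧ (∀ x, a x ≤ a' x) ∧
  ∀ (P N : Finset (Fin w)), Disjoint P N → P.card + N.card ≤ W →
    ∀ h : Conf w → ℝ, (∀ x, 0 ≤ h x) →
    (∀ z z' : Fin w → Bool, (∀ c, z' c = true → z c = true) → h (true, z) ≤ h (false, z')) →
    ∑ z ∈ univ.filter (fun z : Fin w → Bool =>
        (∀ c ∈ P, z c = true) ∧ ∃ c ∈ P ∪ N, z c = true), a (true, z) * h (true, z) ≤
      r * ∑ z ∈ univ.filter (fun z : Fin w → Bool =>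
        (∀ c ∈ P, z c = true) ∧ ∀ c ∈ N, z c = false), a' (false, z) * h (false, z)

/-- the weight of the enlarged space: with the virtual configuration `(false, 0)` -/
noncomputable def cw' {w : ℕ} (t : ℝ) (s : Fin w → Bool) (q : ℝ) (x : Conf w) : ℝ :=
  if x = (false, fun _ => false) then q * p0 t s / (1 - p0 t s) else cw t s q x

/-- A disjunction of terms; a term is a set of variables and values for them. -/
noncomputable def dnf {ι : Type*} (L : List (Finset ι × (ι → Bool))) (x : ι → Bool) : Bool :=
  open Classical in L.any (fun T => decide (∀ v ∈ T.1, x v = T.2 v))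

/-- the function does not decrease when a star is replaced by a smaller content -/
def Down {G : Type} [DecidableEq G] {w : ℕ} (h : (G → Conf w) → ℝ) : Prop :=
  ∀ (ρ : G → Conf w) (g : G) (z z' : Fin w → Bool), ρ g = (true, z) →
    (∀ c, z' c = true → z c = true) → h ρ ≤ h (Function.update ρ g (false, z'))

/-- the gate `g` with configuration `x` falsifies the term `T` -/
def Fal {G : Type} {w : ℕ} (T : Finset (G × Fin w) × (G × Fin w → Bool)) (g : G)
    (x : Conf w) : Prop :=
  (∃ c, (g, c) ∈ T.1 ∧ T.2 (g, c) = true ∧ x.2 c = false) ∨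
    (x.1 = false ∧ ∃ c, (g, c) ∈ T.1 ∧ T.2 (g, c) = false ∧ x.2 c = true)

/-- the gate `g` with configuration `x` does not fix the part of the term `T` on `g` -/
def Ali {G : Type} {w : ℕ} (T : Finset (G × Fin w) × (G × Fin w → Bool)) (g : G)
    (x : Conf w) : Prop :=
  x.1 = true ∧ (∀ c, (g, c) ∈ T.1 → T.2 (g, c) = true → x.2 c = true) ∧
    ∃ c, (g, c) ∈ T.1 ∧ x.2 c = true

/-- the gate `g` with configuration `x` satisfies the part of the term `T` on `g` -/
def Sat {G : Type} {w : ℕ} (T : Finset (G × Fin w) × (G × Fin w → Bool)) (g : G)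
    (x : Conf w) : Prop :=
  (∀ c, (g, c) ∈ T.1 → x.2 c = T.2 (g, c)) ∧ (x.1 = true → ∀ c, (g, c) ∈ T.1 → x.2 c = false)

/-- the gates in `B` are queried; the answer is `true` exactly for the gates in `A` -/
def qr {G : Type} [DecidableEq G] {w : ℕ} (B A : Finset G) (ρ : G → Conf w) : G → Conf w :=
  fun g => if g ∈ B then (false, fun c => (ρ g).2 c && !(decide (g ∈ A))) else ρ g

end Pool.Agent.H620R2.PHG
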