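import Pool.Agent.H620R2.PHG.Base

/-!
# Basic properties of expectations
-/

namespace Pool.Agent.H620R2.PHG

open Finset H568R2 Pool.Agent.H676

section
variable {ι A : Type*} [Fintype ι] [DecidableEq ι] [Fintype A]

theorem Ew_mono {W : ι → A → ℝ} (hW : ∀ i a, 0 ≤ W i a) {F G : (ι → A) → ℝ}
    (h : ∀ ω, F ω ≤ G ω) : Ew W F ≤ Ew W G := by
  unfold Ew
  exact Finset.sum_le_sum fun ω _ =>
    mul_le_mul_of_nonneg_left (h ω) (Finset.prod_nonneg fun i _ => hW i _)

theorem Ew_nonneg {W : ι → A → ℝ} (hW : ∀ i a, 0 ≤ W i a) {F : (ι → A) → ℝ}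
    (h : ∀ ω, 0 ≤ F ω) : 0 ≤ Ew W F := by
  unfold Ew
  exact Finset.sum_nonneg fun ω _ => mul_nonneg (Finset.prod_nonneg fun i _ => hW i _) (h ω)

/-- it is enough to compare the functions at the points of positive weight -/
theorem Ew_mono' {W : ι → A → ℝ} (hW : ∀ i a, 0 ≤ W i a) {F G : (ι → A) → ℝ}
    (h : ∀ ω, (∀ i, W i (ω i) ≠ 0) → F ω ≤ G ω) : Ew W F ≤ Ew W G := by
  unfold Ew
  refine Finset.sum_le_sum fun ω _ => ?_
  by_cases h0 : ∀ i, W i (ω i) ≠ 0
  · exact mul_le_mul_of_nonneg_left (h ω h0) (Finset.prod_nonneg fun i _ => hW i _)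
  · push Not at h0
    obtain ⟨i, hi⟩ := h0
    have : ∏ j, W j (ω j) = 0 := Finset.prod_eq_zero (Finset.mem_univ i) hi
    rw [this, zero_mul, zero_mul]

theorem Ew_congr' {W : ι → A → ℝ} {F G : (ι → A) → ℝ}
    (h : ∀ ω, (∀ i, W i (ω i) ≠ 0) → F ω = G ω) : Ew W F = Ew W G := by
  unfold Ew
  refine Finset.sum_congr rfl fun ω _ => ?_
  by_cases h0 : ∀ i, W i (ω i) ≠ 0
  · rw [h ω h0]
  · push Not at h0
    obtain ⟨i, hi⟩ := h0
    have : ∏ j, W j (ω j) = 0 := Finset.prod_eq_zero (Finset.mem_univ i) hi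
    rw [this, zero_mul, zero_mul]

/-- the total weight -/
theorem Ew_one (W : ι → A → ℝ) : Ew W (fun _ => 1) = ∏ i, ∑ a, W i a := by
  classical
  unfold Ew
  simp only [mul_one]
  rw [← Fintype.piFinset_univ, ← Finset.prod_univ_sum]

theorem Ew_smul (W : ι → A → ℝ) (c : ℝ) (F : (ι → A) → ℝ) :
    Ew W (fun ω => c * F ω) = c * Ew W F := by
  unfold Ew
  rw [Finset.mul_sum]
  exact Finset.sum_congr rfl fun ω _ => by ring

theorem Ew_const {W : ι → A → ℝ} (hW : ∀ i, ∑ a, W i a = 1) (c : ℝ) :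
    Ew W (fun _ => c) = c := by
  have h1 : Ew W (fun _ => c) = c * Ew W (fun _ => 1) := by
    rw [← Ew_smul]
    simp
  rw [h1, Ew_one, Finset.prod_congr rfl fun i _ => hW i]
  simp

theorem Ew_add (W : ι → A → ℝ) (F G : (ι → A) → ℝ) :
    Ew W (fun ω => F ω + G ω) = Ew W F + Ew W G := by
  unfold Ew
  rw [← Finset.sum_add_distrib]
  exact Finset.sum_congr rfl fun ω _ => by ring

theorem Ew_sum {κ : Type*} (s : Finset κ) (W : ι → A → ℝ) (F : κ → (ι → A) → ℝ) :
    Ew W (fun ω => ∑ k ∈ s, F k ω) = ∑ k ∈ s, Ew W (F k) := by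
  unfold Ew
  rw [Finset.sum_comm]
  exact Finset.sum_congr rfl fun ω _ => by rw [Finset.mul_sum]

theorem Ew_eq_Ex (w : A → ℝ) (F : (ι → A) → ℝ) : Ew (fun _ => w) F = Ex w F := rfl

/-- separate one coordinate -/
theorem Ew_split [DecidableEq A] (W : ι → A → ℝ) (F : (ι → A) → ℝ) (i : ι) (a₀ : A) :
    Ew W F = ∑ x, W i x * Ew (Function.update W i (fun y => if y = a₀ then 1 else 0))
      (fun ω => F (Function.update ω i x)) := by
  classical
  unfold Ew
  -- both sides are sums over the pairs (x, ω) with ω i = a₀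
  have hR : ∀ x : A, ∑ ω : ι → A, (∏ j, Function.update W i (fun y => if y = a₀ then 1 else 0) j
      (ω j)) * F (Function.update ω i x) =
      ∑ ω ∈ univ.filter (fun ω : ι → A => ω i = a₀), (∏ j ∈ univ.erase i, W j (ω j)) *
        F (Function.update ω i x) := by
    intro x
    rw [Finset.sum_filter]
    refine Finset.sum_congr rfl fun ω _ => ?_
    rw [← Finset.mul_prod_erase univ _ (Finset.mem_univ i)]
    have h1 : ∏ j ∈ univ.erase i, Function.update W i (fun y => if y = a₀ then 1 else 0) j (ω j) =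
        ∏ j ∈ univ.erase i, W j (ω j) := by
      refine Finset.prod_congr rfl fun j hj => ?_
      rw [Function.update_of_ne (Finset.ne_of_mem_erase hj)]
    rw [h1, Function.update_self]
    split_ifs with h
    · rw [one_mul]
    · rw [zero_mul, zero_mul]
  simp only [hR, Finset.mul_sum]
  rw [← Finset.sum_product']
  symm
  refine Finset.sum_bij' (fun p _ => Function.update p.2 i p.1)
    (fun ω _ => (ω i, Function.update ω i a₀)) ?_ ?_ ?_ ?_ ?_
  · intro p _
    exact Finset.mem_univ _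
  · intro ω _
    simp
  · rintro ⟨x, ω⟩ hp
    simp only [Finset.mem_product, Finset.mem_univ, true_and, Finset.mem_filter] at hp
    simp only [Function.update_self, Function.update_idem, Prod.mk.injEq, true_and]
    rw [← hp, Function.update_eq_self]
  · intro ω _
    simp
  · rintro ⟨x, ω⟩ hp
    simp only
    rw [← Finset.mul_prod_erase univ _ (Finset.mem_univ i), Function.update_self, ← mul_assoc]
    congr 2
    refine Finset.prod_congr rfl fun j hj => ?_
    rw [Function.update_of_ne (Finset.ne_of_mem_erase hj)]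

end

theorem bern_nonneg {q : ℝ} (h0 : 0 ≤ q) (h1 : q ≤ 1) (b : Bool) : 0 ≤ bern q b := by
  unfold bern
  split_ifs <;> linarith

theorem bern_sum (q : ℝ) : ∑ b : Bool, bern q b = 1 := by
  simp [bern]

theorem mw_nonneg {t : ℝ} (h0 : 0 ≤ t) (h1 : t ≤ 1) (s b : Bool) : 0 ≤ mw t s b := by
  unfold mw
  split_ifs
  · exact bern_nonneg h0 h1 b
  · exact le_refl _
  · norm_num

theorem mw_sum (t : ℝ) (s : Bool) : ∑ b : Bool, mw t s b = 1 := by
  cases s <;> simp [mw, bern]

theorem zw_nonneg {w : ℕ} {t : ℝ} (h0 : 0 ≤ t) (h1 : t ≤ 1) (s z : Fin w → Bool) :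
    0 ≤ zw t s z := Finset.prod_nonneg fun _ _ => mw_nonneg h0 h1 _ _

theorem zw_sum {w : ℕ} (t : ℝ) (s : Fin w → Bool) : ∑ z : Fin w → Bool, zw t s z = 1 := by
  have h := Ew_one (fun c : Fin w => mw t (s c))
  unfold Ew at h
  simp only [mul_one, mw_sum, Finset.prod_const_one] at h
  exact h

theorem zw_zero {w : ℕ} (t : ℝ) (s : Fin w → Bool) : zw t s (fun _ => false) = p0 t s := by
  unfold zw p0 alv
  rw [← Finset.prod_const, Finset.prod_filter]
  refine Finset.prod_congr rfl fun c _ => ?_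
  cases h : s c <;> simp [mw, bern]

theorem cw_nonneg {w : ℕ} {t : ℝ} (h0 : 0 ≤ t) (h1 : t ≤ 1) {s : Fin w → Bool}
    (hp : p0 t s < 1) {q : ℝ} (hq0 : 0 ≤ q) (hq1 : q ≤ 1) (x : Conf w) : 0 ≤ cw t s q x := by
  unfold cw
  apply mul_nonneg (bern_nonneg hq0 hq1 _)
  split_ifs
  · exact le_refl _
  · exact div_nonneg (zw_nonneg h0 h1 _ _) (by linarith)

theorem cw_sum_snd {w : ℕ} {t : ℝ} {s : Fin w → Bool} (hp : p0 t s < 1) (q : ℝ) (b : Bool) :
    ∑ z : Fin w → Bool, cw t s q (b, z) = bern q b := by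
  unfold cw
  simp only
  rw [← Finset.mul_sum]
  have h1 : ∑ z : Fin w → Bool, (if z = (fun _ => false) then (0 : ℝ) else
      zw t s z / (1 - p0 t s)) = 1 := by
    have h2 : ∑ z : Fin w → Bool, (if z = (fun _ => false) then (0 : ℝ) else
        zw t s z / (1 - p0 t s)) = (∑ z : Fin w → Bool, (zw t s z -
        if z = (fun _ => false) then p0 t s else 0)) / (1 - p0 t s) := by
      rw [Finset.sum_div]
      refine Finset.sum_congr rfl fun z _ => ?_
      split_ifs with hz
      · rw [hz, zw_zero]; simp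
      · simp
    rw [h2, Finset.sum_sub_distrib, zw_sum, Finset.sum_ite_eq' univ (fun _ => false)]
    simp only [Finset.mem_univ, if_true]
    exact div_self (by linarith)
  rw [h1, mul_one]

theorem cw_sum {w : ℕ} {t : ℝ} {s : Fin w → Bool} (hp : p0 t s < 1) (q : ℝ) :
    ∑ x : Conf w, cw t s q x = 1 := by
  rw [Fintype.sum_prod_type]
  simp only [cw_sum_snd hp]
  exact bern_sum q

end Pool.Agent.H620R2.PHG
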