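import Pool.Agent.H620R2.PHG.Base
import Pool.Agent.H620R2.GaugeS.Defs
import Pool.Agent.H620R2.Gauge2.Base
import Pool.Agent.H620R2.Gauge.Event

/-!
# The languages; positions of the variables; the event
-/

namespace Pool.Agent.H620R2.PHG

open Finset H568R2 Pool.Agent.H676 Pool.Agent.NPC Pool.Agent.H620R2.Gauge

/-- The iterated NOR languages. A string `z` is read as `⟨P, y⟩`. On level `0` it is in the
language if the strings `1^c 0 y`, `c < |P|`, are in the oracle. On level `k + 1` let
`P = ⟨W, P'⟩`; it is in the language if for no string `u` of the length of `W` and smaller value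
the string `⟨P', ⟨u, y⟩⟩` is in the language of level `k`. -/
def norLang : ℕ → Oracle → Set (List Bool)
  | 0, A => {z | ∀ c < (unpair z).1.length,
      A (List.replicate c true ++ false :: (unpair z).2) = true}
  | k + 1, A => {z | ∀ u : List Bool, u.length = (unpair (unpair z).1).1.length →
      valB u < valB (unpair (unpair z).1).1 →
      pairBits (unpair (unpair z).1).2 (pairBits u (unpair z).2) ∉ norLang k A}

/-- the length of the strings for the numbers of the children -/
def Lg (k n : ℕ) : ℕ := 16 * n * 8 ^ k

/-- the fan-in of the bottom gates -/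
def bb (k n : ℕ) : ℕ := 2 * n * 8 ^ k

/-- the parameter strings: `Pp k n j` belongs to the gates with `k - j` levels above -/
noncomputable def Pp (k n : ℕ) : ℕ → List Bool
  | 0 => List.replicate (bb k n) true
  | j + 1 => pairBits (bitsOf (Lg k n) (wf k n (k - j))) (Pp k n j)

/-- the string of a root -/
def idr (n : ℕ) (i : Root n) : List Bool := bitsOf (3 * n + 2) (i.1.val + 2 ^ n * i.2.val)

/-- the path string of a gate -/
noncomputable def path (k n : ℕ) : (h : ℕ) → V (Root n) (wl k n h) → List Bool
  | 0, i => idr n i
  | h + 1, v => pairBits (bitsOf (Lg k n) (v.2 : Fin (wf k n (h + 1))).val) (path k n h v.1)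

/-- the oracle strings of the variables -/
noncomputable def pos (k n : ℕ) (v : V (Root n) (bb k n :: wl k n k)) : List Bool :=
  List.replicate (v.2 : Fin (bb k n)).val true ++ false :: path k n k v.1

/-- the input of a root -/
noncomputable def inpP (k n : ℕ) (i : Root n) : List Bool := pairBits (Pp k n k) (idr n i)

/-- the length of the inputs -/
noncomputable def ellP (k : ℕ) : Polynomial ℕ :=
  2 * (Polynomial.C (k * (32 * 8 ^ k) + 2 * 8 ^ k) * Polynomial.X + Polynomial.C k) + 1 +
    (3 * Polynomial.X + 2)

/-- a bound for the length of the oracle strings of the variables -/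
noncomputable def posP (k : ℕ) : Polynomial ℕ :=
  Polynomial.C (k * (32 * 8 ^ k) + 2 * 8 ^ k + 3) * Polynomial.X + Polynomial.C (k + 3)

/-- overwrite the bits at the positions `e j` with the negations of the bits of `x` -/
noncomputable def ovr {N : ℕ} {J : Type} [Fintype J] [DecidableEq J] (e : J → Fin N)
    (a : Fin N → Bool) (x : J → Bool) : Fin N → Bool :=
  open Classical in fun i => if h : ∃ j, e j = i then !(x h.choose) else a i

/-- The event: some advice is right for all roots. -/
def EvP (θ : Par) (n N : ℕ) (a : Fin N → Bool) : Prop :=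
  ∃ c ≤ θ.p'.eval ((ellP θ.k).eval n), ∃ h : List Bool, h.length = c ∧ ∀ i : Root n,
    (QF (θ.m ((ellP θ.k).eval n) c) (leaf θ.M N) θ.k true (pairBits (inpP θ.k n i) h) a = true ↔
      inpP θ.k n i ∈ norLang θ.k (orc N a))

end Pool.Agent.H620R2.PHG
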