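import Pool.Agent.H620R2.PHG.Basic

/-!
# P01: the random projection
-/

namespace Pool.Agent.H620R2.PHG

open Finset H568R2 Pool.Agent.H676

/-- push-forward of a product weight -/
private theorem P01_push {ι A A' : Type*} [Fintype ι] [DecidableEq ι] [Fintype A] [Fintype A']
    [DecidableEq A] (W : ι → A → ℝ) (ν : ι → A' → ℝ) (φ : ι → A' → A)
    (h : ∀ i a, W i a = ∑ a', if φ i a' = a then ν i a' else 0) (H : (ι → A) → ℝ) :
    Ew W H = ∑ ω' : ι → A', (∏ i, ν i (ω' i)) * H (fun i => φ i (ω' i)) := by
  classical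
  unfold Ew
  have h1 : ∀ ω : ι → A, ∏ i, W i (ω i) =
      ∑ ω' : ι → A', ∏ i, (if φ i (ω' i) = ω i then ν i (ω' i) else 0) := by
    intro ω
    rw [Finset.prod_congr rfl fun i _ => h i (ω i), Finset.prod_univ_sum,
      Fintype.piFinset_univ]
  simp only [h1, Finset.sum_mul]
  rw [Finset.sum_comm]
  refine Finset.sum_congr rfl fun ω' _ => ?_
  rw [Finset.sum_eq_single (fun i => φ i (ω' i))]
  · congr 1
    refine Finset.prod_congr rfl fun i _ => ?_
    rw [if_pos rfl]
  · intro ω _ hω
    have : ∃ i, φ i (ω' i) ≠ ω i := by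
      by_contra hcon
      push Not at hcon
      exact hω (funext fun i => (hcon i).symm)
    obtain ⟨i, hi⟩ := this
    have h0 : ∏ i, (if φ i (ω' i) = ω i then ν i (ω' i) else 0) = 0 :=
      Finset.prod_eq_zero (Finset.mem_univ i) (if_neg hi)
    rw [h0, zero_mul]
  · intro hcon
    exact absurd (Finset.mem_univ _) hcon

/-- the content of a gate is the projection of a random configuration -/
private theorem P01_gate {w : ℕ} (s : Fin w → Bool) (t t' q : ℝ) (hq : q * t' = p0 t s)
    (hp : p0 t s < 1) (a : Fin w → Bool) :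
    zw t s a = ∑ x : Conf w × Bool,
      (if (fun c => x.1.2 c && !(x.1.1 && x.2)) = a then cw t s q x.1 * mw t' x.1.1 x.2
        else 0) := by
  have hp' : 1 - p0 t s ≠ 0 := by linarith
  rw [Fintype.sum_prod_type, Fintype.sum_prod_type, Fintype.sum_bool]
  simp only [Fintype.sum_bool, Bool.false_and, Bool.not_false, Bool.and_true, Bool.true_and,
    Bool.not_true, Bool.and_false]
  have e1 : ∀ z : Fin w → Bool, (fun c => z c) = z := fun z => rfl
  simp only [e1]
  have m1 : mw t' true true = t' := by simp [mw, bern]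
  have m2 : mw t' true false = 1 - t' := by simp [mw, bern]
  have m3 : mw t' false true = 0 := by simp [mw]
  have m4 : mw t' false false = 1 := by simp [mw]
  rw [m1, m2, m3, m4]
  rw [Finset.sum_add_distrib, Finset.sum_add_distrib]
  have s1 : ∑ z : Fin w → Bool, (if (fun _ : Fin w => false) = a then cw t s q (true, z) * t'
      else 0) = if (fun _ : Fin w => false) = a then q * t' else 0 := by
    split_ifs
    · rw [← Finset.sum_mul, cw_sum_snd hp]
      simp [bern]
    · simp
  have s2 : ∑ z : Fin w → Bool, (if z = a then cw t s q (true, z) * (1 - t') else 0) =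
      cw t s q (true, a) * (1 - t') := by
    rw [Finset.sum_ite_eq' univ a]
    simp
  have s3 : ∑ z : Fin w → Bool, (if z = a then cw t s q (false, z) * 0 else 0) = 0 := by
    simp
  have s4 : ∑ z : Fin w → Bool, (if z = a then cw t s q (false, z) * 1 else 0) =
      cw t s q (false, a) := by
    rw [Finset.sum_ite_eq' univ a]
    simp
  rw [s1, s2, s3, s4]
  unfold cw
  simp only
  have b1 : bern q true = q := by simp [bern]
  have b2 : bern q false = 1 - q := by simp [bern]
  rw [b1, b2]
  by_cases ha : a = (fun _ => false)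
  · rw [if_pos ha, if_pos ha.symm, hq, ha, zw_zero]
    ring
  · rw [if_neg ha, if_neg (fun h => ha h.symm)]
    field_simp
    linear_combination (zw t s a) * hq

/-- P01 (the random projection) -/
theorem stage_id {G : Type} [Fintype G] [DecidableEq G] {w : ℕ} (st : G × Fin w → Bool)
    (t t' : ℝ) (q : G → ℝ) (hq : ∀ g, q g * t' = p0 t (fun c => st (g, c)))
    (hp : ∀ g, p0 t (fun c => st (g, c)) < 1) (H : (G × Fin w → Bool) → ℝ) :
    Ew (fun v => mw t (st v)) H =
      Ew (fun g => cw t (fun c => st (g, c)) (q g))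
        (fun ρ => Ew (fun g => mw t' (ρ g).1) (fun Y => H (xr ρ Y))) := by
  classical
  -- group the variables by gates
  have h1 : Ew (fun v => mw t (st v)) H =
      Ew (fun g => zw t (fun c => st (g, c))) (fun z => H (fun v => z v.1 v.2)) := by
    unfold Ew
    refine Fintype.sum_equiv (Equiv.curry G (Fin w) Bool) _ _ fun x => ?_
    rw [Fintype.prod_prod_type]
    rfl
  rw [h1, P01_push (fun g => zw t (fun c => st (g, c)))
    (fun g (x : Conf w × Bool) => cw t (fun c => st (g, c)) (q g) x.1 * mw t' x.1.1 x.2)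
    (fun _ x => fun c => x.1.2 c && !(x.1.1 && x.2))
    (fun g a => P01_gate _ t t' (q g) (hq g) (hp g) a)]
  -- split the pairs
  have h2 : ∀ F : (G → Conf w) → (G → Bool) → ℝ,
      ∑ ω' : G → Conf w × Bool, F (fun g => (ω' g).1) (fun g => (ω' g).2) =
        ∑ ρ : G → Conf w, ∑ Y : G → Bool, F ρ Y := by
    intro F
    rw [← Fintype.sum_prod_type' (f := fun ρ Y => F ρ Y)]
    exact Fintype.sum_equiv (Equiv.arrowProdEquivProdArrow G (fun _ => Conf w) (fun _ => Bool))
      _ _ fun x => rfl
  have h3 := h2 (fun ρ Y => (∏ g, cw t (fun c => st (g, c)) (q g) (ρ g) * mw t' (ρ g).1 (Y g)) *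
    H (xr ρ Y))
  refine Eq.trans ?_ (h3.trans ?_)
  · rfl
  · unfold Ew
    refine Finset.sum_congr rfl fun ρ _ => ?_
    rw [Finset.mul_sum]
    refine Finset.sum_congr rfl fun Y _ => ?_
    rw [Finset.prod_mul_distrib]
    ring

end Pool.Agent.H620R2.PHG
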