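import Pool.Agent.H620R2.PHG.Basic

/-!
# P02: local domination of the weights
-/

namespace Pool.Agent.H620R2.PHG

open Finset H568R2 Pool.Agent.H676

/-- remove the literals in `N` -/
def resN {w : ℕ} (N : Finset (Fin w)) (z : Fin w → Bool) : Fin w → Bool :=
  fun c => if c ∈ N then false else z c

/-- the sum over a fibre of `resN` -/
theorem zw_fibre {w : ℕ} (t : ℝ) (s : Fin w → Bool) (N : Finset (Fin w)) (z' : Fin w → Bool)
    (hz' : ∀ c ∈ N, z' c = false) :
    ∑ z ∈ univ.filter (fun z : Fin w → Bool => resN N z = z'), zw t s z =
      ∏ c, (if c ∈ N then 1 else mw t (s c) (z' c)) := by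
  have h := Finset.prod_univ_sum (fun c : Fin w => if c ∈ N then (univ : Finset Bool) else {z' c})
    (fun c b => mw t (s c) b)
  have h1 : Fintype.piFinset (fun c : Fin w => if c ∈ N then (univ : Finset Bool) else {z' c}) =
      univ.filter (fun z : Fin w → Bool => resN N z = z') := by
    ext z
    simp only [Fintype.mem_piFinset, Finset.mem_filter, Finset.mem_univ, true_and]
    constructor
    · intro hz
      funext c
      unfold resN
      split_ifs with hc
      · exact (hz' c hc).symm
      · have := hz c
        rw [if_neg hc] at this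
        exact Finset.mem_singleton.mp this
    · intro hz c
      split_ifs with hc
      · exact Finset.mem_univ _
      · rw [Finset.mem_singleton, ← hz]
        unfold resN
        rw [if_neg hc]
  rw [h1] at h
  unfold zw
  rw [← h]
  refine Finset.prod_congr rfl fun c _ => ?_
  split_ifs with hc
  · exact mw_sum t (s c)
  · rw [Finset.sum_singleton]

theorem fibre_le {w : ℕ} {t : ℝ} (ht0 : 0 < t) (ht1 : t ≤ 1 / 2) (s : Fin w → Bool)
    (N : Finset (Fin w)) (z' : Fin w → Bool) (hz' : ∀ c ∈ N, z' c = false) :
    (∏ c, (if c ∈ N then 1 else mw t (s c) (z' c))) * (1 - t) ^ N.card ≤ zw t s z' := by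
  have h2 : (1 - t) ^ N.card = ∏ c : Fin w, (if c ∈ N then (1 - t) else 1) := by
    rw [Finset.prod_ite_mem, Finset.univ_inter, Finset.prod_const]
  rw [h2, ← Finset.prod_mul_distrib]
  unfold zw
  refine Finset.prod_le_prod (fun c _ => ?_) (fun c _ => ?_)
  · split_ifs
    · linarith
    · rw [mul_one]
      exact mw_nonneg (by linarith) (by linarith) _ _
  · split_ifs with hc
    · rw [one_mul, hz' c hc]
      cases s c <;> simp [mw, bern]
      linarith
    · rw [mul_one]

/-- P02 -/
theorem ld_cw {w : ℕ} (W : ℕ) (t q κ : ℝ) (s : Fin w → Bool) (ht0 : 0 < t)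
    (ht : W * t ≤ 1 / 2) (ht1 : t ≤ 1 / 2) (hq0 : 0 < q) (hq : q ≤ κ) (hκ : κ ≤ 1 / 4)
    (hp : p0 t s ≤ 1 / 2) : LD W (4 * (κ + W * t)) (cw t s q) (cw' t s q) := by
  classical
  have hp0 : 0 ≤ p0 t s := by
    unfold p0
    exact pow_nonneg (by linarith) _
  have hp1 : p0 t s < 1 := by linarith
  have hpp : 0 < 1 - p0 t s := by linarith
  have hcw : ∀ x, 0 ≤ cw t s q x := fun x =>
    cw_nonneg (by linarith) (by linarith) hp1 (by linarith) (by linarith) x
  refine ⟨hcw, ?_, ?_⟩
  · intro x
    unfold cw'
    split_ifs with hx
    · rw [hx]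
      unfold cw
      simp only [if_true, mul_zero]
      exact div_nonneg (mul_nonneg (by linarith) hp0) (by linarith)
    · exact le_refl _
  · intro P N hPN hW h h0 hmono
    set r : ℝ := 4 * (κ + W * t) with hr
    have hr0 : 0 ≤ r := by
      have : 0 ≤ (W : ℝ) * t := mul_nonneg (Nat.cast_nonneg _) (by linarith)
      rw [hr]; linarith
    -- Bernoulli
    have hNW : (N.card : ℝ) ≤ W := by
      have : N.card ≤ W := by omega
      exact_mod_cast this
    have hNt : (N.card : ℝ) * t ≤ W * t := mul_le_mul_of_nonneg_right hNW (by linarith)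
    have hbern : 1 - (N.card : ℝ) * t ≤ (1 - t) ^ N.card := by
      have := one_add_mul_le_pow (a := -t) (by linarith) N.card
      calc 1 - (N.card : ℝ) * t = 1 + (N.card : ℝ) * (-t) := by ring
        _ ≤ (1 + -t) ^ N.card := this
        _ = (1 - t) ^ N.card := by ring
    set b : ℝ := (1 - t) ^ N.card with hb
    have hbhalf : 1 / 2 ≤ b := by linarith
    have hb0 : 0 < b := by linarith
    -- bound the left side
    set g : (Fin w → Bool) → ℝ := fun z =>
      (if (∀ c ∈ P, z c = true) ∧ ∃ c ∈ P ∪ N, z c = true then
        cw t s q (true, z) * h (false, resN N z) else 0) with hg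
    have hL : ∑ z ∈ univ.filter (fun z : Fin w → Bool =>
        (∀ c ∈ P, z c = true) ∧ ∃ c ∈ P ∪ N, z c = true), cw t s q (true, z) * h (true, z) ≤
        ∑ z : Fin w → Bool, g z := by
      rw [Finset.sum_filter]
      refine Finset.sum_le_sum fun z _ => ?_
      rw [hg]
      simp only
      split_ifs with hz
      · refine mul_le_mul_of_nonneg_left (hmono _ _ ?_) (hcw _)
        intro c hc
        unfold resN at hc
        split_ifs at hc
        exact hc
      · exact le_refl _
    refine le_trans hL ?_
    have hmaps : ∀ z ∈ (univ : Finset (Fin w → Bool)),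
        resN N z ∈ univ.filter (fun z' : Fin w → Bool => ∀ c ∈ N, z' c = false) := by
      intro z _
      rw [Finset.mem_filter]
      refine ⟨Finset.mem_univ _, fun c hc => ?_⟩
      unfold resN
      rw [if_pos hc]
    rw [← Finset.sum_fiberwise_of_maps_to hmaps, Finset.mul_sum]
    have hsub : univ.filter (fun z : Fin w → Bool =>
        (∀ c ∈ P, z c = true) ∧ ∀ c ∈ N, z c = false) =
        (univ.filter (fun z' : Fin w → Bool => ∀ c ∈ N, z' c = false)).filter
          (fun z => ∀ c ∈ P, z c = true) := by
      ext z
      simp only [Finset.mem_filter, Finset.mem_univ, true_and]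
      tauto
    rw [hsub, Finset.sum_filter (fun z : Fin w → Bool => ∀ c ∈ P, z c = true)]
    refine Finset.sum_le_sum fun z' hz'm => ?_
    have hz' : ∀ c ∈ N, z' c = false := (Finset.mem_filter.mp hz'm).2
    have hfib := zw_fibre t s N z' hz'
    have hfle := fibre_le ht0 ht1 s N z' hz'
    rw [← hfib] at hfle
    rw [← hb] at hfle
    -- restrict to P ⊆ z'
    by_cases hP : ∀ c ∈ P, z' c = true
    swap
    · rw [if_neg hP]
      refine le_of_eq (Finset.sum_eq_zero fun z hz => ?_)
      rw [Finset.mem_filter] at hz
      rw [hg]
      simp only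
      rw [if_neg]
      rintro ⟨h1, _⟩
      apply hP
      intro c hc
      rw [← hz.2]
      unfold resN
      rw [if_neg (Finset.disjoint_left.mp hPN hc)]
      exact h1 c hc
    rw [if_pos hP]
    by_cases hz0 : z' = (fun _ => false)
    · -- z' = 0
      have hPe : ∀ c, c ∉ P := by
        intro c hc
        have := hP c hc
        rw [hz0] at this
        simp at this
      have hmem0 : (fun _ => false) ∈ univ.filter (fun z : Fin w → Bool => resN N z = z') := by
        rw [Finset.mem_filter, hz0]
        refine ⟨Finset.mem_univ _, ?_⟩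
        funext c
        unfold resN
        split_ifs <;> rfl
      have hg0 : g (fun _ => false) = 0 := by
        rw [hg]
        simp only
        rw [if_neg]
        rintro ⟨_, c, _, hc⟩
        simp at hc
      rw [← Finset.add_sum_erase _ _ hmem0, hg0, zero_add]
      rw [← Finset.add_sum_erase _ _ hmem0, zw_zero] at hfle
      have hsum : ∑ z ∈ (univ.filter (fun z : Fin w → Bool => resN N z = z')).erase
          (fun _ => false), g z ≤
          (∑ z ∈ (univ.filter (fun z : Fin w → Bool => resN N z = z')).erase
          (fun _ => false), zw t s z) * (q / (1 - p0 t s) * h (false, z')) := by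
        rw [Finset.sum_mul]
        refine Finset.sum_le_sum fun z hz => ?_
        rw [Finset.mem_erase, Finset.mem_filter] at hz
        rw [hg]
        simp only
        have hzz : 0 ≤ zw t s z := zw_nonneg (by linarith) (by linarith) s z
        split_ifs
        · rw [hz.2.2]
          unfold cw
          simp only [bern, if_true]
          rw [if_neg hz.1]
          apply le_of_eq
          field_simp
        · exact mul_nonneg hzz (mul_nonneg (div_nonneg (by linarith) (by linarith)) (h0 _))
      refine le_trans hsum ?_
      set Sg := ∑ z ∈ (univ.filter (fun z : Fin w → Bool => resN N z = z')).erase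
          (fun _ => false), zw t s z with hSg
      have hcw' : cw' t s q (false, z') = q * p0 t s / (1 - p0 t s) := by
        unfold cw'
        rw [if_pos]
        rw [hz0]
      rw [hcw']
      have hzwz : zw t s z' = p0 t s := by rw [hz0, zw_zero]
      rw [hzwz] at hfle
      -- (p + Sg) * b ≤ p
      have hSg0 : 0 ≤ Sg := Finset.sum_nonneg fun z _ => zw_nonneg (by linarith) (by linarith) s z
      have hkey : Sg ≤ r * p0 t s := by
        have h1 : Sg * b ≤ p0 t s * (1 - b) := by nlinarith
        have h2 : 1 - b ≤ W * t := by linarith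
        have h3 : p0 t s * (1 - b) ≤ p0 t s * (W * t) := mul_le_mul_of_nonneg_left h2 hp0
        have h4 : Sg * (1 / 2) ≤ Sg * b := mul_le_mul_of_nonneg_left hbhalf hSg0
        have h5 : 0 ≤ κ * p0 t s := mul_nonneg (by linarith) hp0
        have h6 : 0 ≤ p0 t s * (W * t) := mul_nonneg hp0
          (mul_nonneg (Nat.cast_nonneg _) (by linarith))
        rw [hr]
        nlinarith
      have hh := h0 (false, z')
      have h7 : 0 ≤ q / (1 - p0 t s) * h (false, z') :=
        mul_nonneg (div_nonneg (by linarith) (by linarith)) hh
      calc Sg * (q / (1 - p0 t s) * h (false, z')) ≤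
          (r * p0 t s) * (q / (1 - p0 t s) * h (false, z')) :=
            mul_le_mul_of_nonneg_right hkey h7
        _ = r * (q * p0 t s / (1 - p0 t s) * h (false, z')) := by ring
    · -- z' ≠ 0
      have hsum : ∑ z ∈ univ.filter (fun z : Fin w → Bool => resN N z = z'), g z ≤
          (∑ z ∈ univ.filter (fun z : Fin w → Bool => resN N z = z'), zw t s z) *
            (q / (1 - p0 t s) * h (false, z')) := by
        rw [Finset.sum_mul]
        refine Finset.sum_le_sum fun z hz => ?_
        rw [Finset.mem_filter] at hz
        rw [hg]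
        simp only
        have hzz : 0 ≤ zw t s z := zw_nonneg (by linarith) (by linarith) s z
        split_ifs
        · rw [hz.2]
          unfold cw
          simp only [bern, if_true]
          split_ifs with h1
          · rw [mul_zero, zero_mul]
            exact mul_nonneg hzz (mul_nonneg (div_nonneg (by linarith) (by linarith)) (h0 _))
          · apply le_of_eq
            field_simp
        · exact mul_nonneg hzz (mul_nonneg (div_nonneg (by linarith) (by linarith)) (h0 _))
      refine le_trans hsum ?_
      set Sg := ∑ z ∈ univ.filter (fun z : Fin w → Bool => resN N z = z'), zw t s z with hSg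
      have hSg0 : 0 ≤ Sg := Finset.sum_nonneg fun z _ => zw_nonneg (by linarith) (by linarith) s z
      have hcw' : cw' t s q (false, z') = (1 - q) * (zw t s z' / (1 - p0 t s)) := by
        unfold cw'
        rw [if_neg]
        · unfold cw
          simp only [bern]
          rw [if_neg hz0]
          simp
        · intro h1
          exact hz0 (Prod.ext_iff.mp h1).2
      rw [hcw']
      have hh := h0 (false, z')
      have hz0' : 0 ≤ zw t s z' := zw_nonneg (by linarith) (by linarith) s z'
      have hkey : Sg * q ≤ r * (1 - q) * zw t s z' := by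
        have h4 : Sg * (1 / 2) ≤ Sg * b := mul_le_mul_of_nonneg_left hbhalf hSg0
        have h5 : Sg ≤ 2 * zw t s z' := by linarith
        have h6 : Sg * q ≤ 2 * zw t s z' * q := mul_le_mul_of_nonneg_right h5 (by linarith)
        have h7 : 2 * q ≤ r * (1 - q) := by
          have h8 : 4 * q ≤ r := by
            have : 0 ≤ (W : ℝ) * t := mul_nonneg (Nat.cast_nonneg _) (by linarith)
            rw [hr]; linarith
          nlinarith
        nlinarith
      have h7 : 0 ≤ 1 / (1 - p0 t s) * h (false, z') :=
        mul_nonneg (div_nonneg (by linarith) (by linarith)) hh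
      calc Sg * (q / (1 - p0 t s) * h (false, z')) =
          (Sg * q) * (1 / (1 - p0 t s) * h (false, z')) := by ring
        _ ≤ (r * (1 - q) * zw t s z') * (1 / (1 - p0 t s) * h (false, z')) :=
            mul_le_mul_of_nonneg_right hkey h7
        _ = r * ((1 - q) * (zw t s z' / (1 - p0 t s)) * h (false, z')) := by ring

end Pool.Agent.H620R2.PHG
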