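import Pool.Agent.H620R2.PHG.Basic

/-!
# Task P03: small facts on configurations
-/

namespace Pool.Agent.H620R2.PHG

open Finset H568R2 Pool.Agent.H676

/-- P03 -/
theorem ld_point {w : ℕ} (W : ℕ) {r : ℝ} (hr : 0 ≤ r) (z₀ : Fin w → Bool) :
    LD W r (fun x : Conf w => if x = (false, z₀) then 1 else 0)
      (fun x : Conf w => if x = (false, z₀) then 1 else 0) := by
  have h01 : ∀ x : Conf w, (0 : ℝ) ≤ if x = (false, z₀) then 1 else 0 := by
    intro x
    split_ifs
    · exact zero_le_one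
    · exact le_refl _
  refine ⟨h01, fun x => le_refl _, ?_⟩
  intro P N _ _ h h0 _
  have hL : ∑ z ∈ univ.filter (fun z : Fin w → Bool =>
        (∀ c ∈ P, z c = true) ∧ ∃ c ∈ P ∪ N, z c = true),
        (if ((true, z) : Conf w) = (false, z₀) then (1 : ℝ) else 0) * h (true, z) = 0 := by
    refine Finset.sum_eq_zero fun z _ => ?_
    rw [if_neg, zero_mul]
    intro hcon
    have := congrArg Prod.fst hcon
    exact Bool.noConfusion this
  rw [hL]
  exact mul_nonneg hr (Finset.sum_nonneg fun z _ => mul_nonneg (h01 _) (h0 _))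

/-- P03 -/
theorem cw'_sum {w : ℕ} {t : ℝ} {s : Fin w → Bool} (hp : p0 t s < 1) (q : ℝ) :
    ∑ x : Conf w, cw' t s q x = 1 + q * p0 t s / (1 - p0 t s) := by
  have h1 : ∀ x : Conf w, cw' t s q x = cw t s q x +
      if x = (false, fun _ => false) then q * p0 t s / (1 - p0 t s) else 0 := by
    intro x
    unfold cw'
    split_ifs with hx
    · have : cw t s q x = 0 := by
        rw [hx]
        simp [cw]
      rw [this, zero_add]
    · rw [add_zero]
  simp only [h1]
  rw [Finset.sum_add_distrib, cw_sum hp, Finset.sum_ite_eq' univ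
    ((false, fun _ => false) : Conf w)]
  simp

/-- P03 -/
theorem fal_ali_sat {G : Type} {w : ℕ} (T : Finset (G × Fin w) × (G × Fin w → Bool)) (g : G)
    (x : Conf w) : (Fal T g x ∨ Ali T g x ∨ Sat T g x) ∧ ¬ (Fal T g x ∧ Sat T g x) ∧
      ¬ (Fal T g x ∧ Ali T g x) ∧ ¬ (Ali T g x ∧ Sat T g x) := by
  refine ⟨?_, ?_, ?_, ?_⟩
  · by_cases hA : ∃ c, (g, c) ∈ T.1 ∧ T.2 (g, c) = true ∧ x.2 c = false
    · exact Or.inl (Or.inl hA)
    have H1 : ∀ c, (g, c) ∈ T.1 → T.2 (g, c) = true → x.2 c = true := by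
      intro c hc ht
      by_contra hcon
      exact hA ⟨c, hc, ht, by simpa using hcon⟩
    by_cases hx : x.1 = true
    · by_cases hE : ∃ c, (g, c) ∈ T.1 ∧ x.2 c = true
      · exact Or.inr (Or.inl ⟨hx, H1, hE⟩)
      have H2 : ∀ c, (g, c) ∈ T.1 → x.2 c = false := by
        intro c hc
        by_contra hcon
        exact hE ⟨c, hc, by simpa using hcon⟩
      refine Or.inr (Or.inr ⟨?_, fun _ => H2⟩)
      intro c hc
      rw [H2 c hc]
      cases ht : T.2 (g, c)
      · rfl
      · have := H1 c hc ht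
        rw [H2 c hc] at this
        exact this
    · have hx' : x.1 = false := by simpa using hx
      by_cases hE : ∃ c, (g, c) ∈ T.1 ∧ T.2 (g, c) = false ∧ x.2 c = true
      · exact Or.inl (Or.inr ⟨hx', hE⟩)
      refine Or.inr (Or.inr ⟨?_, fun h => absurd h hx⟩)
      intro c hc
      cases ht : T.2 (g, c)
      · by_contra hcon
        exact hE ⟨c, hc, ht, by simpa using hcon⟩
      · exact H1 c hc ht
  · rintro ⟨hF, hS⟩
    rcases hF with ⟨c, hc, ht, hz⟩ | ⟨_, c, hc, ht, hz⟩
    · have := hS.1 c hc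
      rw [hz, ht] at this
      exact Bool.noConfusion this
    · have := hS.1 c hc
      rw [hz, ht] at this
      exact Bool.noConfusion this
  · rintro ⟨hF, hA⟩
    rcases hF with ⟨c, hc, ht, hz⟩ | ⟨hx, _⟩
    · have := hA.2.1 c hc ht
      rw [hz] at this
      exact Bool.noConfusion this
    · have := hA.1
      rw [hx] at this
      exact Bool.noConfusion this
  · rintro ⟨hA, hS⟩
    obtain ⟨hx, _, c, hc, hz⟩ := hA
    have := hS.2 hx c hc
    rw [hz] at this
    exact Bool.noConfusion this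

end Pool.Agent.H620R2.PHG
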