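import Pool.Agent.H620R2.PHG.Basic

/-!
# P04: cutting an expectation
-/

namespace Pool.Agent.H620R2.PHG

open Finset H568R2 Pool.Agent.H676

/-- a product of weights, some of which are point masses -/
theorem prod_cut_aux {ι A : Type*} [Fintype ι] [DecidableEq ι] [DecidableEq A]
    (P : ι → Prop) [DecidablePred P] (f : ι → ℝ) (ω c : ι → A) :
    ∏ i, (if P i then f i else (if ω i = c i then 1 else 0)) =
      if ∀ i, ¬ P i → ω i = c i then ∏ i, (if P i then f i else 1) else 0 := by
  by_cases h : ∀ i, ¬ P i → ω i = c i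
  · rw [if_pos h]
    refine Finset.prod_congr rfl fun i _ => ?_
    by_cases hi : P i
    · rw [if_pos hi, if_pos hi]
    · rw [if_neg hi, if_neg hi, if_pos (h i hi)]
  · rw [if_neg h]
    push Not at h
    obtain ⟨i, hi, hne⟩ := h
    refine Finset.prod_eq_zero (Finset.mem_univ i) ?_
    rw [if_neg hi, if_neg hne]

/-- P04 (cut the coordinates in `B` from the others; the value of the coordinates in `B` is
arbitrary in the inner expectation) -/
theorem Ew_cut {ι A : Type*} [Fintype ι] [DecidableEq ι] [Fintype A] [DecidableEq A]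
    (W : ι → A → ℝ) (B : Finset ι) (a₀ : A) (b : (ι → A) → ι → A) (F : (ι → A) → ℝ) :
    Ew W F = Ew (fun i => if i ∈ B then W i else (fun y => if y = a₀ then 1 else 0))
      (fun ζ => Ew (fun i => if i ∈ B then (fun y => if y = b ζ i then 1 else 0) else W i)
        (fun ω : ι → A => F (fun i => if i ∈ B then ζ i else ω i))) := by
  classical
  unfold Ew
  have h1 : ∀ ζ : ι → A,
      ∏ i, (if i ∈ B then W i else (fun y => if y = a₀ then (1 : ℝ) else 0)) (ζ i) =
      if ∀ i, ¬ (i ∈ B) → ζ i = a₀ then ∏ i, (if i ∈ B then W i (ζ i) else 1) else 0 := by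
    intro ζ
    rw [← prod_cut_aux (fun i => i ∈ B) (fun i => W i (ζ i)) ζ (fun _ => a₀)]
    refine Finset.prod_congr rfl fun i _ => ?_
    by_cases hi : i ∈ B
    · rw [if_pos hi, if_pos hi]
    · rw [if_neg hi, if_neg hi]
  have h2 : ∀ ζ ω : ι → A,
      ∏ i, (if i ∈ B then (fun y => if y = b ζ i then (1 : ℝ) else 0) else W i) (ω i) =
      if ∀ i, ¬ ¬ (i ∈ B) → ω i = b ζ i then ∏ i, (if ¬ (i ∈ B) then W i (ω i) else 1)
        else 0 := by
    intro ζ ω
    rw [← prod_cut_aux (fun i => ¬ (i ∈ B)) (fun i => W i (ω i)) ω (b ζ)]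
    refine Finset.prod_congr rfl fun i _ => ?_
    by_cases hi : i ∈ B
    · rw [if_pos hi, if_neg (not_not_intro hi)]
    · rw [if_neg hi, if_pos hi]
  simp only [h1, h2]
  have h3 : ∀ ζ : ι → A,
      (if ∀ i, ¬ (i ∈ B) → ζ i = a₀ then ∏ i, (if i ∈ B then W i (ζ i) else 1) else 0) *
        ∑ ω : ι → A, (if ∀ i, ¬ ¬ (i ∈ B) → ω i = b ζ i then
          ∏ i, (if ¬ (i ∈ B) then W i (ω i) else 1) else 0) *
            F (fun i => if i ∈ B then ζ i else ω i) =
      ∑ ω : ι → A, if (∀ i, ¬ (i ∈ B) → ζ i = a₀) ∧ (∀ i, ¬ ¬ (i ∈ B) → ω i = b ζ i) then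
          (∏ i, W i (if i ∈ B then ζ i else ω i)) * F (fun i => if i ∈ B then ζ i else ω i)
        else 0 := by
    intro ζ
    rw [Finset.mul_sum]
    refine Finset.sum_congr rfl fun ω _ => ?_
    by_cases hA : ∀ i, ¬ (i ∈ B) → ζ i = a₀
    · by_cases hC : ∀ i, ¬ ¬ (i ∈ B) → ω i = b ζ i
      · rw [if_pos hA, if_pos hC, if_pos ⟨hA, hC⟩, ← mul_assoc, ← Finset.prod_mul_distrib]
        congr 1
        refine Finset.prod_congr rfl fun i _ => ?_
        by_cases hi : i ∈ B
        · rw [if_pos hi, if_neg (not_not_intro hi), if_pos hi, mul_one]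
        · rw [if_neg hi, if_pos hi, if_neg hi, one_mul]
      · rw [if_neg hC, zero_mul, mul_zero]
        exact (if_neg (fun h => hC h.2)).symm
    · rw [if_neg hA, zero_mul]
      exact (if_neg (fun h => hA h.1)).symm
  simp only [h3]
  rw [← Fintype.sum_prod_type' (f := fun (ζ ω : ι → A) =>
    if (∀ i, ¬ (i ∈ B) → ζ i = a₀) ∧ (∀ i, ¬ ¬ (i ∈ B) → ω i = b ζ i) then
          (∏ i, W i (if i ∈ B then ζ i else ω i)) * F (fun i => if i ∈ B then ζ i else ω i)
        else 0), ← Finset.sum_filter]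
  symm
  refine Finset.sum_bij' (fun p _ => fun i => if i ∈ B then p.1 i else p.2 i)
    (fun ω' _ => ((fun i => if i ∈ B then ω' i else a₀),
      fun i => if i ∈ B then b (fun i => if i ∈ B then ω' i else a₀) i else ω' i)) ?_ ?_ ?_ ?_ ?_
  · intro p _
    exact Finset.mem_univ _
  · intro ω' _
    rw [Finset.mem_filter]
    refine ⟨Finset.mem_univ _, ?_, ?_⟩
    · intro i hi
      simp only [if_neg hi]
    · intro i hi
      simp only [if_pos (not_not.mp hi)]
  · rintro ⟨ζ, ω⟩ hp
    rw [Finset.mem_filter] at hp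
    obtain ⟨_, hA, hC⟩ := hp
    simp only at hA hC
    have e1 : (fun i => if i ∈ B then (if i ∈ B then ζ i else ω i) else a₀) = ζ := by
      funext i
      by_cases hi : i ∈ B
      · rw [if_pos hi, if_pos hi]
      · rw [if_neg hi, hA i hi]
    simp only
    rw [e1]
    refine Prod.ext rfl ?_
    funext i
    by_cases hi : i ∈ B
    · simp only [if_pos hi]
      exact (hC i (not_not_intro hi)).symm
    · simp only [if_neg hi]
  · intro ω' _
    funext i
    by_cases hi : i ∈ B
    · simp only [if_pos hi]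
    · simp only [if_neg hi]
  · rintro ⟨ζ, ω⟩ _
    rfl

end Pool.Agent.H620R2.PHG
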