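import Pool.Agent.H620R2.PHG.Basic

/-!
# P05: replace the alive gates, one after the other
-/

namespace Pool.Agent.H620R2.PHG

open Finset H568R2 Pool.Agent.H676

private lemma P05_cardle {G : Type} [Fintype G] [DecidableEq G] {w : ℕ} (W : ℕ)
    (T : Finset (G × Fin w) × (G × Fin w → Bool)) (hT : T.1.card ≤ W) (g0 : G) :
    (univ.filter (fun c : Fin w => (g0, c) ∈ T.1 ∧ T.2 (g0, c) = true)).card +
      (univ.filter (fun c : Fin w => (g0, c) ∈ T.1 ∧ T.2 (g0, c) = false)).card ≤ W := by
  rw [← Finset.card_union_of_disjoint]
  · refine le_trans ?_ hT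
    refine Finset.card_le_card_of_injOn (fun c => (g0, c)) ?_ ?_
    · intro c hc
      simp only [Finset.coe_union, Finset.coe_filter, Finset.mem_univ, true_and, Set.mem_union,
        Set.mem_ofPred_eq] at hc
      rcases hc with hc | hc
      · exact hc.1
      · exact hc.1
    · intro c _ c' _ hcc
      exact (Prod.mk.inj hcc).2
  · rw [Finset.disjoint_left]
    intro c hc hc'
    simp only [Finset.mem_filter, Finset.mem_univ, true_and] at hc hc'
    rw [hc.2] at hc'
    exact absurd hc'.2 (by simp)

open Classical in
/-- P05 (replace the alive gates, one after the other) -/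
theorem ld_prod {G : Type} [Fintype G] [DecidableEq G] {w : ℕ} (W : ℕ) (r : ℝ) (hr : 0 ≤ r)
    (T : Finset (G × Fin w) × (G × Fin w → Bool)) (hT : T.1.card ≤ W) (a a' : G → Conf w → ℝ)
    (ha : ∀ g, LD W r (a g) (a' g)) (h : (G → Conf w) → ℝ) (h0 : ∀ ρ, 0 ≤ h ρ) (hd : Down h)
    (B : Finset G) :
    Ew (fun g => if g ∈ B then a g else a' g)
        (fun ρ => if (∀ g ∈ B, Ali T g (ρ g)) ∧ (∀ g, g ∉ B → Sat T g (ρ g)) then h ρ else 0) ≤
      r ^ B.card * Ew a' (fun ρ => if ∀ g, Sat T g (ρ g) then h ρ else 0) := by
  have ha0 : ∀ g x, 0 ≤ a g x := fun g x => (ha g).1 x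
  have ha'0 : ∀ g x, 0 ≤ a' g x := fun g x => ((ha g).1 x).trans ((ha g).2.1 x)
  induction B using Finset.induction_on with
  | empty => simp
  | insert g0 B0 hg0 ih =>
    have hne1 : ∀ g ∈ B0, g ≠ g0 := fun g hg hc => hg0 (hc ▸ hg)
    have hne2 : ∀ g, g ∉ insert g0 B0 → g ≠ g0 := by
      intro g hg hc
      rw [hc] at hg
      exact hg (Finset.mem_insert_self _ _)
    -- the inner function
    set M : G → Conf w → ℝ := fun g => if g ∈ B0 then a g else a' g with hM
    set δ : Conf w → ℝ := fun y => if y = (false, fun _ => false) then 1 else 0 with hδ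
    set H : Conf w → ℝ := fun x => Ew (Function.update M g0 δ) (fun ω =>
      if (∀ g ∈ B0, Ali T g (ω g)) ∧ (∀ g, g ∉ insert g0 B0 → Sat T g (ω g)) then
        h (Function.update ω g0 x) else 0) with hH
    have hW0 : ∀ g x, 0 ≤ Function.update M g0 δ g x := by
      intro g x
      by_cases hg : g = g0
      · subst hg
        rw [Function.update_self, hδ]
        simp only
        split_ifs <;> norm_num
      · rw [Function.update_of_ne hg, hM]
        simp only
        split_ifs
        · exact ha0 g x
        · exact ha'0 g x
    have hH0 : ∀ x, 0 ≤ H x := by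
      intro x
      rw [hH]
      refine Ew_nonneg hW0 fun ω => ?_
      split_ifs
      · exact h0 _
      · exact le_refl _
    have hHd : ∀ z z' : Fin w → Bool, (∀ c, z' c = true → z c = true) →
        H (true, z) ≤ H (false, z') := by
      intro z z' hz
      rw [hH]
      refine Ew_mono hW0 fun ω => ?_
      split_ifs
      · have := hd (Function.update ω g0 (true, z)) g0 z z' (Function.update_self _ _ _) hz
        rwa [Function.update_idem] at this
      · exact le_refl _
    -- the left side
    have hL : Ew (fun g => if g ∈ insert g0 B0 then a g else a' g)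
        (fun ρ => if (∀ g ∈ insert g0 B0, Ali T g (ρ g)) ∧
          (∀ g, g ∉ insert g0 B0 → Sat T g (ρ g)) then h ρ else 0) =
        ∑ x, a g0 x * (if Ali T g0 x then H x else 0) := by
      rw [Ew_split _ _ g0 (false, fun _ => false)]
      refine Finset.sum_congr rfl fun x _ => ?_
      rw [if_pos (Finset.mem_insert_self g0 B0)]
      congr 1
      have hup : Function.update (fun g => if g ∈ insert g0 B0 then a g else a' g) g0
          (fun y => if y = (false, fun _ => false) then 1 else 0) = Function.update M g0 δ := by
        funext g
        by_cases hg : g = g0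
        · subst hg
          rw [Function.update_self, Function.update_self]
        · rw [Function.update_of_ne hg, Function.update_of_ne hg, hM]
          simp only [Finset.mem_insert, hg, false_or]
      rw [hup]
      by_cases hA : Ali T g0 x
      · rw [if_pos hA, hH]
        simp only
        unfold Ew
        refine Finset.sum_congr rfl fun ω _ => ?_
        congr 1
        have hiff : ((∀ g ∈ insert g0 B0, Ali T g (Function.update ω g0 x g)) ∧
            (∀ g, g ∉ insert g0 B0 → Sat T g (Function.update ω g0 x g))) ↔
            ((∀ g ∈ B0, Ali T g (ω g)) ∧ (∀ g, g ∉ insert g0 B0 → Sat T g (ω g))) := by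
          constructor
          · rintro ⟨h1, h2⟩
            refine ⟨fun g hg => ?_, fun g hg => ?_⟩
            · have := h1 g (Finset.mem_insert_of_mem hg)
              rwa [Function.update_of_ne (hne1 g hg)] at this
            · have := h2 g hg
              rwa [Function.update_of_ne (hne2 g hg)] at this
          · rintro ⟨h1, h2⟩
            refine ⟨fun g hg => ?_, fun g hg => ?_⟩
            · by_cases hgg : g = g0
              · subst hgg
                rw [Function.update_self]
                exact hA
              · rw [Function.update_of_ne hgg]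
                exact h1 g ((Finset.mem_insert.1 hg).resolve_left hgg)
            · rw [Function.update_of_ne (hne2 g hg)]
              exact h2 g hg
        simp only [hiff]
      · rw [if_neg hA]
        have : ∀ ω : G → Conf w, (if (∀ g ∈ insert g0 B0, Ali T g (Function.update ω g0 x g)) ∧
            (∀ g, g ∉ insert g0 B0 → Sat T g (Function.update ω g0 x g)) then
              h (Function.update ω g0 x) else 0) = 0 := by
          intro ω
          rw [if_neg]
          rintro ⟨h1, _⟩
          have := h1 g0 (Finset.mem_insert_self _ _)
          rw [Function.update_self] at this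
          exact hA this
        simp only [this]
        unfold Ew
        simp
    have hR : Ew M (fun ρ => if (∀ g ∈ B0, Ali T g (ρ g)) ∧
          (∀ g, g ∉ B0 → Sat T g (ρ g)) then h ρ else 0) =
        ∑ x, a' g0 x * (if Sat T g0 x then H x else 0) := by
      rw [Ew_split _ _ g0 (false, fun _ => false)]
      refine Finset.sum_congr rfl fun x _ => ?_
      have hMg : M g0 = a' g0 := by
        rw [hM]
        simp only [if_neg hg0]
      rw [hMg]
      congr 1
      by_cases hA : Sat T g0 x
      · rw [if_pos hA, hH]
        simp only
        unfold Ew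
        refine Finset.sum_congr rfl fun ω _ => ?_
        congr 1
        have hiff : ((∀ g ∈ B0, Ali T g (Function.update ω g0 x g)) ∧
            (∀ g, g ∉ B0 → Sat T g (Function.update ω g0 x g))) ↔
            ((∀ g ∈ B0, Ali T g (ω g)) ∧ (∀ g, g ∉ insert g0 B0 → Sat T g (ω g))) := by
          constructor
          · rintro ⟨h1, h2⟩
            refine ⟨fun g hg => ?_, fun g hg => ?_⟩
            · have := h1 g hg
              rwa [Function.update_of_ne (hne1 g hg)] at this
            · have := h2 g (fun hc => hg (Finset.mem_insert_of_mem hc))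
              rwa [Function.update_of_ne (hne2 g hg)] at this
          · rintro ⟨h1, h2⟩
            refine ⟨fun g hg => ?_, fun g hg => ?_⟩
            · rw [Function.update_of_ne (hne1 g hg)]
              exact h1 g hg
            · by_cases hgg : g = g0
              · subst hgg
                rw [Function.update_self]
                exact hA
              · rw [Function.update_of_ne hgg]
                exact h2 g (fun hc => hg ((Finset.mem_insert.1 hc).resolve_left hgg))
        simp only [hiff]
      · rw [if_neg hA]
        have : ∀ ω : G → Conf w, (if (∀ g ∈ B0, Ali T g (Function.update ω g0 x g)) ∧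
            (∀ g, g ∉ B0 → Sat T g (Function.update ω g0 x g)) then
              h (Function.update ω g0 x) else 0) = 0 := by
          intro ω
          rw [if_neg]
          rintro ⟨_, h2⟩
          have := h2 g0 hg0
          rw [Function.update_self] at this
          exact hA this
        simp only [this]
        unfold Ew
        simp
    -- local domination
    have hkey : ∑ x, a g0 x * (if Ali T g0 x then H x else 0) ≤
        r * ∑ x, a' g0 x * (if Sat T g0 x then H x else 0) := by
      have hld := (ha g0).2.2 (univ.filter (fun c : Fin w => (g0, c) ∈ T.1 ∧ T.2 (g0, c) = true))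
        (univ.filter (fun c : Fin w => (g0, c) ∈ T.1 ∧ T.2 (g0, c) = false)) (by
          rw [Finset.disjoint_left]
          intro c hc hc'
          simp only [Finset.mem_filter, Finset.mem_univ, true_and] at hc hc'
          rw [hc.2] at hc'
          exact absurd hc'.2 (by simp)) (P05_cardle W T hT g0) H hH0 hHd
      have e1 : ∑ x, a g0 x * (if Ali T g0 x then H x else 0) =
          ∑ z ∈ univ.filter (fun z : Fin w → Bool =>
            (∀ c ∈ univ.filter (fun c : Fin w => (g0, c) ∈ T.1 ∧ T.2 (g0, c) = true),
              z c = true) ∧
            ∃ c ∈ univ.filter (fun c : Fin w => (g0, c) ∈ T.1 ∧ T.2 (g0, c) = true) ∪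
              univ.filter (fun c : Fin w => (g0, c) ∈ T.1 ∧ T.2 (g0, c) = false), z c = true),
            a g0 (true, z) * H (true, z) := by
        rw [Fintype.sum_prod_type, Fintype.sum_bool, Finset.sum_filter]
        have hf : ∑ z : Fin w → Bool, a g0 (false, z) *
            (if Ali T g0 (false, z) then H (false, z) else 0) = 0 := by
          refine Finset.sum_eq_zero fun z _ => ?_
          rw [if_neg, mul_zero]
          intro hA
          exact absurd hA.1 (by simp)
        rw [hf, add_zero]
        refine Finset.sum_congr rfl fun z _ => ?_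
        have hiff : Ali T g0 (true, z) ↔ ((∀ c ∈ univ.filter (fun c : Fin w => (g0, c) ∈ T.1 ∧
            T.2 (g0, c) = true), z c = true) ∧
            ∃ c ∈ univ.filter (fun c : Fin w => (g0, c) ∈ T.1 ∧ T.2 (g0, c) = true) ∪
              univ.filter (fun c : Fin w => (g0, c) ∈ T.1 ∧ T.2 (g0, c) = false), z c = true) := by
          unfold Ali
          simp only [true_and, Finset.mem_filter, Finset.mem_univ, Finset.mem_union]
          constructor
          · rintro ⟨h1, c, hc, hzc⟩
            refine ⟨fun c hc => h1 c hc.1 hc.2, c, ?_, hzc⟩
            cases hT2 : T.2 (g0, c)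
            · exact Or.inr ⟨hc, rfl⟩
            · exact Or.inl ⟨hc, rfl⟩
          · rintro ⟨h1, c, hc, hzc⟩
            refine ⟨fun c hc hc' => h1 c ⟨hc, hc'⟩, c, ?_, hzc⟩
            rcases hc with hc | hc
            · exact hc.1
            · exact hc.1
        by_cases hA : Ali T g0 (true, z)
        · rw [if_pos hA, if_pos (hiff.1 hA)]
        · rw [if_neg hA, if_neg (fun hc => hA (hiff.2 hc)), mul_zero]
      have e2 : ∑ z ∈ univ.filter (fun z : Fin w → Bool =>
            (∀ c ∈ univ.filter (fun c : Fin w => (g0, c) ∈ T.1 ∧ T.2 (g0, c) = true),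
              z c = true) ∧
            ∀ c ∈ univ.filter (fun c : Fin w => (g0, c) ∈ T.1 ∧ T.2 (g0, c) = false),
              z c = false), a' g0 (false, z) * H (false, z) ≤
          ∑ x, a' g0 x * (if Sat T g0 x then H x else 0) := by
        rw [Fintype.sum_prod_type, Fintype.sum_bool, Finset.sum_filter]
        have hf : 0 ≤ ∑ z : Fin w → Bool, a' g0 (true, z) *
            (if Sat T g0 (true, z) then H (true, z) else 0) := by
          refine Finset.sum_nonneg fun z _ => mul_nonneg (ha'0 _ _) ?_
          split_ifs
          · exact hH0 _
          · exact le_refl _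
        refine le_trans ?_ (le_add_of_nonneg_left hf)
        refine le_of_eq ?_
        refine Finset.sum_congr rfl fun z _ => ?_
        have hiff : Sat T g0 (false, z) ↔ ((∀ c ∈ univ.filter (fun c : Fin w => (g0, c) ∈ T.1 ∧
            T.2 (g0, c) = true), z c = true) ∧
            ∀ c ∈ univ.filter (fun c : Fin w => (g0, c) ∈ T.1 ∧ T.2 (g0, c) = false),
              z c = false) := by
          unfold Sat
          simp only [Finset.mem_filter, Finset.mem_univ, true_and]
          constructor
          · rintro ⟨h1, _⟩
            refine ⟨fun c hc => ?_, fun c hc => ?_⟩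
            · rw [h1 c hc.1, hc.2]
            · rw [h1 c hc.1, hc.2]
          · rintro ⟨h1, h2⟩
            refine ⟨fun c hc => ?_, fun hc => absurd hc (by simp)⟩
            cases hT2 : T.2 (g0, c)
            · exact h2 c ⟨hc, hT2⟩
            · exact h1 c ⟨hc, hT2⟩
        by_cases hA : Sat T g0 (false, z)
        · rw [if_pos hA, if_pos (hiff.1 hA)]
        · rw [if_neg hA, if_neg (fun hc => hA (hiff.2 hc)), mul_zero]
      rw [e1]
      exact hld.trans (mul_le_mul_of_nonneg_left e2 hr)
    rw [hL, Finset.card_insert_of_notMem hg0, pow_succ]
    calc _ ≤ r * ∑ x, a' g0 x * (if Sat T g0 x then H x else 0) := hkey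
      _ = r * Ew M (fun ρ => if (∀ g ∈ B0, Ali T g (ρ g)) ∧
          (∀ g, g ∉ B0 → Sat T g (ρ g)) then h ρ else 0) := by rw [hR]
      _ ≤ r * (r ^ B0.card * Ew a' (fun ρ => if ∀ g, Sat T g (ρ g) then h ρ else 0)) :=
        mul_le_mul_of_nonneg_left ih hr
      _ = _ := by ring

end Pool.Agent.H620R2.PHG
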