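import Pool.Agent.H620R2.PHG.Basic

/-!
# P06: query the alive gates
-/

namespace Pool.Agent.H620R2.PHG

open Finset H568R2 Pool.Agent.H676

private lemma P06_cons {G : Type} {w : ℕ}
    (T : Finset (G × Fin w) × (G × Fin w → Bool))
    (L : List (Finset (G × Fin w) × (G × Fin w → Bool))) (x : G × Fin w → Bool) :
    dnf (T :: L) x = true ↔ (∀ v ∈ T.1, x v = T.2 v) ∨ dnf L x = true := by
  unfold dnf
  rw [List.any_cons, Bool.or_eq_true, decide_eq_true_iff]

private lemma P06_sat {G : Type} {w : ℕ}
    (T : Finset (G × Fin w) × (G × Fin w → Bool))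
    (L : List (Finset (G × Fin w) × (G × Fin w → Bool))) (ρ : G → Conf w)
    (hS : ∀ g, Sat T g (ρ g)) (Y : G → Bool) : dnf (T :: L) (xr ρ Y) = true := by
  rw [P06_cons]
  left
  rintro ⟨g, c⟩ hv
  have h1 := (hS g).1 c hv
  unfold xr
  simp only
  cases hst : (ρ g).1
  · simp only [Bool.false_and, Bool.not_false, Bool.and_true]
    exact h1
  · have h2 := (hS g).2 hst c hv
    rw [← h1, h2]
    simp

/-- P06 -/
theorem dnf_of_sat {G : Type} [Fintype G] [DecidableEq G] {w : ℕ}
    (T : Finset (G × Fin w) × (G × Fin w → Bool))
    (L : List (Finset (G × Fin w) × (G × Fin w → Bool))) (ρ : G → Conf w)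
    (hS : ∀ g, Sat T g (ρ g)) {s : ℕ} (hs : 1 ≤ s) :
    ¬ DGe s (fun Y => dnf (T :: L) (xr ρ Y)) := by
  rintro (h | h)
  · omega
  · exact h (DTr.const ⟨true, fun Y => P06_sat T L ρ hS Y⟩)

/-- P06 -/
theorem dnf_of_fal {G : Type} [Fintype G] [DecidableEq G] {w : ℕ}
    (T : Finset (G × Fin w) × (G × Fin w → Bool))
    (L : List (Finset (G × Fin w) × (G × Fin w → Bool))) (ρ : G → Conf w)
    (hF : ∃ g, Fal T g (ρ g)) (Y : G → Bool) :
    dnf (T :: L) (xr ρ Y) = dnf L (xr ρ Y) := by
  rw [Bool.eq_iff_iff, P06_cons]
  constructor
  · rintro (h | h)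
    · exfalso
      obtain ⟨g, hg⟩ := hF
      rcases hg with ⟨c, hc, hT, hz⟩ | ⟨hst, c, hc, hT, hz⟩
      · have := h (g, c) hc
        rw [hT] at this
        unfold xr at this
        simp only [hz, Bool.false_and] at this
        exact absurd this (by simp)
      · have := h (g, c) hc
        rw [hT] at this
        unfold xr at this
        simp only [hz, hst, Bool.false_and, Bool.not_false, Bool.and_true] at this
        exact absurd this (by simp)
    · exact h
  · exact fun h => Or.inr h

private lemma P06_xr {G : Type} [Fintype G] [DecidableEq G] {w : ℕ} (B : Finset G)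
    (ρ : G → Conf w) (hB : ∀ g ∈ B, (ρ g).1 = true) (π Y : G → Bool) :
    xr ρ (ow B π Y) = xr (qr B (B.filter (fun g => π g = true)) ρ) Y := by
  funext v
  obtain ⟨g, c⟩ := v
  unfold xr qr ow
  simp only
  by_cases hg : g ∈ B
  · simp only [hg, if_true, hB g hg, Bool.true_and, Bool.false_and, Bool.not_false, Bool.and_true,
      Finset.mem_filter, true_and]
    cases π g <;> simp
  · simp only [hg, if_false]

/-- P06 (query the alive gates) -/
theorem query_step {G : Type} [Fintype G] [DecidableEq G] {w : ℕ}
    (T : Finset (G × Fin w) × (G × Fin w → Bool))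
    (L : List (Finset (G × Fin w) × (G × Fin w → Bool))) (B : Finset G) (ρ : G → Conf w)
    (hB : ∀ g ∈ B, Ali T g (ρ g)) (hS : ∀ g, g ∉ B → Sat T g (ρ g)) (s : ℕ)
    (hs : DGe s (fun Y => dnf (T :: L) (xr ρ Y))) :
    ∃ A ∈ B.powerset, DGe (s - B.card) (fun Y => dnf L (xr (qr B A ρ) Y)) := by
  by_cases hsB : s ≤ B.card
  · exact ⟨∅, Finset.empty_mem_powerset _, Or.inl (by omega)⟩
  · push Not at hsB
    by_contra hcon
    push Not at hcon
    have hD : ∀ A ∈ B.powerset, DTr (s - B.card - 1) (fun Y => dnf L (xr (qr B A ρ) Y)) := by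
      intro A hA
      have h1 := hcon A hA
      unfold DGe at h1
      push Not at h1
      exact h1.2
    rcases hs with hs | hs
    · omega
    · apply hs
      have hq : DTr (B.card + (s - B.card - 1)) (fun Y => dnf (T :: L) (xr ρ Y)) := by
        refine DTr.query B fun π => ?_
        have hfun : (fun x => dnf (T :: L) (xr ρ (ow B π x))) =
            (fun x => dnf (T :: L) (xr (qr B (B.filter (fun g => π g = true)) ρ) x)) := by
          funext x
          rw [P06_xr B ρ (fun g hg => (hB g hg).1)]
        rw [hfun]
        set A := B.filter (fun g => π g = true) with hA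
        have hAB : A ∈ B.powerset := Finset.mem_powerset.2 (Finset.filter_subset _ _)
        by_cases hall : ∀ g, Sat T g (qr B A ρ g)
        · exact DTr.const ⟨true, fun Y => P06_sat T L _ hall Y⟩
        · push Not at hall
          obtain ⟨g, hg⟩ := hall
          have hgB : g ∈ B := by
            by_contra hgB
            apply hg
            unfold qr
            rw [if_neg hgB]
            exact hS g hgB
          have hF : Fal T g (qr B A ρ g) := by
            have hst : (qr B A ρ g).1 = false := by
              unfold qr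
              rw [if_pos hgB]
            unfold Sat at hg
            rw [hst] at hg
            have hg' : ¬ ∀ c, (g, c) ∈ T.1 → (qr B A ρ g).2 c = T.2 (g, c) := by
              intro h
              exact hg ⟨h, fun h => absurd h (by simp)⟩
            push Not at hg'
            obtain ⟨c, hc, hne⟩ := hg'
            cases hT2 : T.2 (g, c)
            · right
              refine ⟨hst, c, hc, hT2, ?_⟩
              rw [hT2] at hne
              simpa using hne
            · left
              refine ⟨c, hc, hT2, ?_⟩
              rw [hT2] at hne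
              simpa using hne
          have : (fun x => dnf (T :: L) (xr (qr B A ρ) x)) =
              (fun x => dnf L (xr (qr B A ρ) x)) := by
            funext x
            exact dnf_of_fal T L _ ⟨g, hF⟩ x
          rw [this]
          exact hD A hAB
      have he : B.card + (s - B.card - 1) = s - 1 := by omega
      rw [he] at hq
      exact hq

end Pool.Agent.H620R2.PHG
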