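import Pool.Agent.H620R2.PHG.P09

/-!
# Switching for functions in Lvl
-/

namespace Pool.Agent.H620R2.PHG

open Finset H568R2 Pool.Agent.H676

open Classical in
/-- P10 -/
theorem lvl_switch {G : Type} [Fintype G] [DecidableEq G] {w : ℕ} (st : G → Fin w → Bool)
    (t κ : ℝ) (q : G → ℝ) (M W : ℕ) (hW : 1 ≤ W) (ht0 : 0 < t) (ht : W * t ≤ 1 / 2)
    (ht1 : t ≤ 1 / 2) (hq0 : ∀ g, 0 < q g) (hq : ∀ g, q g ≤ κ) (hκ : κ ≤ 1 / 4)
    (hp : ∀ g, p0 t (st g) ≤ 1 / 2) (hv : ∑ g, q g * p0 t (st g) ≤ 1 / 4)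
    (hγ : 16 * W * (κ + W * t) ≤ 1) (s d : ℕ) (f : (G × Fin w → Bool) → Bool)
    (hf : Lvl M W (d + 1) f) :
    Ew (fun g => cw t (st g) (q g))
        (fun ρ => if Lvl M s d (fun Y => f (xr ρ Y)) then 0 else 1) ≤
      M ^ d * (2 * (16 * W * (κ + W * t)) ^ (s + 1)) := by
  have hcw : ∀ (g : G) (a : Conf w), 0 ≤ cw t (st g) (q g) a := fun g a =>
    cw_nonneg ht0.le (by linarith) (by have := hp g; linarith) (hq0 g).le
      (by have := hq g; linarith) a
  induction d generalizing f with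
  | zero =>
    obtain ⟨F, hF, hfF⟩ := hf
    have hc : Cert W true f := by
      intro x hx
      obtain ⟨m, hm⟩ := (hfF x).1 hx
      obtain ⟨A, hA, hy⟩ := DTr.cert (hF m) false x hm
      exact ⟨A, hA, fun y hxy => (hfF y).2 ⟨m, hy y hxy⟩⟩
    have h := switch st t κ q W hW ht0 ht ht1 hq0 hq hκ hp hv hγ f hc s
    rw [pow_zero, one_mul]
    exact h
  | succ d ih =>
    obtain ⟨F, hF, hfF⟩ := hf
    have h1 : Ew (fun g => cw t (st g) (q g))
        (fun ρ => if Lvl M s (d + 1) (fun Y => f (xr ρ Y)) then 0 else 1) ≤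
        Ew (fun g => cw t (st g) (q g)) (fun ρ => ∑ m ∈ (univ : Finset (Fin M)),
          if Lvl M s d (fun Y => F m (xr ρ Y)) then (0 : ℝ) else 1) := by
      apply Ew_mono hcw
      intro ρ
      have hnn : ∀ m : Fin M, (0 : ℝ) ≤
          if Lvl M s d (fun Y => F m (xr ρ Y)) then (0 : ℝ) else 1 := by
        intro m
        split_ifs
        · exact le_refl _
        · exact zero_le_one
      by_cases h : Lvl M s (d + 1) (fun Y => f (xr ρ Y))
      · rw [if_pos h]
        exact Finset.sum_nonneg fun m _ => hnn m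
      · rw [if_neg h]
        have h2 : ∃ m, ¬ Lvl M s d (fun Y => F m (xr ρ Y)) := by
          by_contra h3
          push Not at h3
          exact h ⟨fun m Y => F m (xr ρ Y), h3, fun Y => hfF (xr ρ Y)⟩
        obtain ⟨m, hm⟩ := h2
        have h3 := Finset.single_le_sum (f := fun m : Fin M =>
          if Lvl M s d (fun Y => F m (xr ρ Y)) then (0 : ℝ) else 1) (fun m _ => hnn m)
          (Finset.mem_univ m)
        simp only [if_neg hm] at h3
        exact h3
    refine h1.trans ?_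
    rw [Ew_sum]
    refine (Finset.sum_le_sum fun m _ => ih (F m) (hF m)).trans ?_
    rw [Finset.sum_const, Finset.card_univ, Fintype.card_fin, nsmul_eq_mul, pow_succ]
    apply le_of_eq
    ring

end Pool.Agent.H620R2.PHG
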