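import Pool.Agent.H620R2.PHG.Basic

/-!
Task P11: `Lvl` and random projections.
-/

namespace Pool.Agent.H620R2.PHG

open Finset H568R2 Pool.Agent.H676

/-- fixing a variable -/
theorem p11_fix {I : Type*} [Fintype I] [DecidableEq I] {k : ℕ} : ∀ {h : (I → Bool) → Bool}
    (_ : DTr k h) (i : I) (b : Bool), DTr k (fun x => h (Function.update x i b)) := by
  induction k with
  | zero => rintro h ⟨c, hc⟩ i b; exact ⟨c, fun x => hc _⟩
  | succ k ih =>
    rintro h (⟨c, hc⟩ | ⟨j, hj⟩) i b
    · exact Or.inl ⟨c, fun x => hc _⟩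
    · by_cases hji : j = i
      · subst hji
        exact (hj b).succ
      · refine Or.inr ⟨j, fun b' => ?_⟩
        have h1 := ih (hj b') i b
        refine (congrArg (DTr k) (funext fun x => ?_)).mp h1
        show h (Function.update (Function.update x i b) j b') =
          h (Function.update (Function.update x j b') i b)
        rw [Function.update_comm hji]

theorem p11_xr {G : Type} [Fintype G] [DecidableEq G] {w : ℕ} (ρ : G → Conf w) {k : ℕ} :
    ∀ {f : (G × Fin w → Bool) → Bool}, DTr k f → DTr k (fun Y => f (xr ρ Y)) := by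
  induction k with
  | zero => rintro f ⟨c, hc⟩; exact ⟨c, fun x => hc _⟩
  | succ k ih =>
    rintro f (⟨c, hc⟩ | ⟨⟨g, c⟩, hgc⟩)
    · exact Or.inl ⟨c, fun x => hc _⟩
    · by_cases hst : (ρ g).1 = true ∧ (ρ g).2 c = true
      · refine Or.inr ⟨g, fun b => ?_⟩
        have h1 := p11_fix (ih (hgc (!b))) g b
        refine (congrArg (DTr k) (funext fun Y => ?_)).mp h1
        show f (Function.update (xr ρ (Function.update Y g b)) (g, c) (!b)) =
          f (xr ρ (Function.update Y g b))
        have h2 : xr ρ (Function.update Y g b) (g, c) = !b := by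
          simp [xr, hst.1, hst.2]
        rw [← h2, Function.update_eq_self]
      · obtain ⟨b0, hb0⟩ : ∃ b0, ∀ Y : G → Bool, xr ρ Y (g, c) = b0 := by
          cases h1 : (ρ g).1
          · exact ⟨(ρ g).2 c, fun Y => by simp [xr, h1]⟩
          · cases h2 : (ρ g).2 c
            · exact ⟨false, fun Y => by simp [xr, h2]⟩
            · exact absurd ⟨h1, h2⟩ hst
        have h1 := (ih (hgc b0)).succ
        refine (congrArg (DTr (k + 1)) (funext fun Y => ?_)).mp h1
        show f (Function.update (xr ρ Y) (g, c) b0) = f (xr ρ Y)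
        rw [← hb0 Y, Function.update_eq_self]

/-- P11 -/
theorem lvl_xr {G : Type} [Fintype G] [DecidableEq G] {w : ℕ} {M W d : ℕ}
    {f : (G × Fin w → Bool) → Bool} (hf : Lvl M W d f) (ρ : G → Conf w) :
    Lvl M W d (fun Y => f (xr ρ Y)) := by
  induction d generalizing f with
  | zero => exact p11_xr ρ hf
  | succ d ih =>
    obtain ⟨F, hF, hf⟩ := hf
    exact ⟨fun m Y => F m (xr ρ Y), fun m => ih (hF m), fun Y => hf (xr ρ Y)⟩

end Pool.Agent.H620R2.PHG
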