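import Pool.Agent.H620R2.PHG.Basic

/-!
# P20 (helper847): the errors of one stage
-/

namespace Pool.Agent.H620R2.PHG

open Finset H568R2 Pool.Agent.H676

namespace P20aux

lemma half_mul (n a : ℕ) (h : n ≤ a) : (2 : ℝ) ^ n * (1 / 2) ^ a = (1 / 2) ^ (a - n) := by
  obtain ⟨c, rfl⟩ := Nat.exists_eq_add_of_le h
  rw [Nat.add_sub_cancel_left, pow_add, ← mul_assoc, ← mul_pow]
  norm_num

lemma half_anti {a b : ℕ} (h : a ≤ b) : ((1 : ℝ) / 2) ^ b ≤ (1 / 2) ^ a :=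
  pow_le_pow_of_le_one (by norm_num) (by norm_num) h

lemma half_le {a : ℕ} (h : 1 ≤ a) : ((1 : ℝ) / 2) ^ a ≤ 1 / 2 := by
  calc ((1 : ℝ) / 2) ^ a ≤ (1 / 2) ^ 1 := half_anti h
    _ = 1 / 2 := pow_one _

lemma lam_ge {t : ℝ} (h0 : 0 ≤ t) (h1 : t < 1) : t ≤ lam t := by
  unfold lam Real.logb
  have h2 : Real.log (1 - t) ≤ - t := by
    have := Real.log_le_sub_one_of_pos (show 0 < 1 - t by linarith)
    linarith
  have h3 : 0 < Real.log 2 := Real.log_pos (by norm_num)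
  have h4 : Real.log 2 ≤ 1 := by
    have := Real.log_le_sub_one_of_pos (show (0 : ℝ) < 2 by norm_num)
    linarith
  rw [← neg_div, le_div_iff₀ h3]
  nlinarith

lemma wf_le' {k n h : ℕ} (_h1 : 1 ≤ h) (hk : h < k) (hn : 1 ≤ n) :
    wf k n h ≤ Nx n h * 2 ^ Nx n (h + 1) := by
  unfold wf
  rw [if_neg (by omega)]
  have ht0 : 0 < tx n h := by unfold tx; positivity
  have ht1 : tx n h < 1 := by
    unfold tx
    refine pow_lt_one₀ (by norm_num) (by norm_num) ?_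
    positivity
  have hl : tx n h ≤ lam (tx n h) := lam_ge ht0.le ht1
  have hl0 : 0 < lam (tx n h) := lt_of_lt_of_le ht0 hl
  refine Nat.floor_le_of_le ?_
  rw [div_le_iff₀ hl0]
  push_cast
  have : (0 : ℝ) ≤ (Nx n h : ℝ) * 2 ^ Nx n (h + 1) := by positivity
  calc (Nx n h : ℝ) * (tx n h * 2 ^ Nx n (h + 1)) =
      (Nx n h : ℝ) * 2 ^ Nx n (h + 1) * tx n h := by ring
    _ ≤ (Nx n h : ℝ) * 2 ^ Nx n (h + 1) * lam (tx n h) := mul_le_mul_of_nonneg_left hl this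

lemma Nx_le {k n h : ℕ} (hn : 1 ≤ n) (hk : h ≤ k) : Nx n h ≤ 4 * n * 8 ^ k := by
  unfold Nx
  split_ifs with h1
  · have : 0 < 4 * n * 8 ^ k := by positivity
    omega
  · exact Nat.mul_le_mul_left _ (Nat.pow_le_pow_right (by norm_num) (by omega))

lemma wf_le2 {k n h : ℕ} (h1 : 1 ≤ h) (hk : h < k) (hn : 1 ≤ n) :
    wf k n h ≤ 2 ^ (8 * n * 8 ^ k) := by
  have e1 := wf_le' h1 hk hn
  have e2 := Nx_le (k := k) (h := h) hn hk.le
  have e3 := Nx_le (k := k) (h := h + 1) hn hk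
  calc wf k n h ≤ Nx n h * 2 ^ Nx n (h + 1) := e1
    _ ≤ 2 ^ (4 * n * 8 ^ k) * 2 ^ (4 * n * 8 ^ k) :=
        Nat.mul_le_mul (e2.trans Nat.lt_two_pow_self.le)
          (Nat.pow_le_pow_right (by norm_num) e3)
    _ = 2 ^ (8 * n * 8 ^ k) := by
        rw [← pow_add]
        congr 1
        ring

lemma card_cons (I : Type) [Fintype I] (w : ℕ) (ws : List ℕ) :
    Fintype.card (V I (w :: ws)) = Fintype.card (V I ws) * w := by
  have h : Fintype.card (V I (w :: ws)) = Fintype.card (V I ws × Fin w) := rfl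
  rw [h, Fintype.card_prod, Fintype.card_fin]

lemma card_nil (I : Type) [Fintype I] : Fintype.card (V I []) = Fintype.card I := rfl

lemma card_root (n : ℕ) : Fintype.card (Root n) = 2 ^ (3 * n + 2) := by
  rw [Fintype.card_prod, Fintype.card_fin, Fintype.card_fin, ← pow_add]
  congr 1
  ring

lemma card_le (k n : ℕ) (hn : 1 ≤ n) (j : ℕ) (hj : j < k) :
    Fintype.card (V (Root n) (wl k n j)) ≤ 2 ^ (3 * n + 2 + 8 * n * 8 ^ k * j) := by
  induction j with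
  | zero =>
    show Fintype.card (V (Root n) []) ≤ _
    rw [card_nil, card_root]
    exact Nat.pow_le_pow_right (by norm_num) (by omega)
  | succ j ih =>
    show Fintype.card (V (Root n) (wf k n (j + 1) :: wl k n j)) ≤ _
    rw [card_cons]
    calc Fintype.card (V (Root n) (wl k n j)) * wf k n (j + 1)
        ≤ 2 ^ (3 * n + 2 + 8 * n * 8 ^ k * j) * 2 ^ (8 * n * 8 ^ k) :=
          Nat.mul_le_mul (ih (by omega)) (wf_le2 (by omega) hj hn)
      _ = _ := by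
          rw [← pow_add]
          congr 1
          ring

lemma exp_le (N : ℕ) : Real.exp (-(N : ℝ)) ≤ (1 / 2) ^ N := by
  have h1 : Real.exp (-(N : ℝ)) = (Real.exp (-1)) ^ N := by
    rw [← Real.exp_nat_mul]
    congr 1
    ring
  rw [h1]
  refine pow_le_pow_left₀ (Real.exp_pos _).le ?_ N
  rw [Real.exp_neg]
  have h2 : (2 : ℝ) ≤ Real.exp 1 := by
    have := Real.add_one_le_exp (1 : ℝ)
    linarith
  rw [one_div]
  exact inv_anti₀ (by norm_num) h2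

lemma nat1 (n q : ℕ) (hn : 6 ≤ n) (hq : 1 ≤ q) :
    3 * n + 3 + 2 ^ n * q + (2 ^ n / 8 + 1) ≤ 14 * n * q * 2 ^ n := by
  have h1 : n < 2 ^ n := Nat.lt_two_pow_self
  generalize 2 ^ n = N at *
  have h2 : N ≤ N * q := Nat.le_mul_of_pos_right _ hq
  have h3 : N / 8 ≤ N := Nat.div_le_self _ _
  have h4 : 84 * (N * q) ≤ 14 * n * q * N := by
    calc 84 * (N * q) = 14 * 6 * (q * N) := by ring
      _ ≤ 14 * n * (q * N) := Nat.mul_le_mul_right _ (Nat.mul_le_mul_left _ hn)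
      _ = _ := by ring
  omega

lemma nat2 (n k : ℕ) (_hn : 6 ≤ n) (h8 : 8 + 8 * 8 ^ k * k ≤ n) :
    3 * n + 2 + 8 * n * 8 ^ k * k + 1 + (2 ^ n / 8 + 1) ≤ 2 ^ (10 * n) := by
  have h1 : n < 2 ^ n := Nat.lt_two_pow_self
  have h2 : 2 ^ (10 * n) = (2 ^ n) ^ 10 := by
    rw [← pow_mul]
    congr 1
    ring
  have h3 : (2 ^ n) ^ 2 ≤ (2 ^ n) ^ 10 := Nat.pow_le_pow_right (by positivity) (by norm_num)
  have h4 : 2 ^ n / 8 ≤ 2 ^ n := Nat.div_le_self _ _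
  have h5 : 8 * n * 8 ^ k * k ≤ 2 ^ n * (8 * 8 ^ k * k) := by
    calc 8 * n * 8 ^ k * k = n * (8 * 8 ^ k * k) := by ring
      _ ≤ 2 ^ n * (8 * 8 ^ k * k) := Nat.mul_le_mul_right _ h1.le
  have h6 : 2 ^ n * (8 + 8 * 8 ^ k * k) ≤ (2 ^ n) ^ 2 := by
    rw [sq]
    exact Nat.mul_le_mul_left _ (h8.trans h1.le)
  have h7 : 2 ^ n * (8 + 8 * 8 ^ k * k) = 8 * 2 ^ n + 2 ^ n * (8 * 8 ^ k * k) := by ring
  omega

end P20aux

open P20aux in
/-- P20 (the errors of one stage) -/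
theorem stage_error (k : ℕ) : ∀ᶠ n : ℕ in Filter.atTop, ∀ j, j + 2 ≤ k →
    (2 : ℝ) ^ n * tx n (j + 2) ≤ 1 / 2 ∧ tx n (j + 2) ≤ 1 / 2 ∧ 2 * tx n (j + 1) ≤ 1 / 4 ∧
    16 * (2 : ℝ) ^ n * (2 * tx n (j + 1) + 2 ^ n * tx n (j + 2)) ≤ 1 ∧
    ∀ M : ℕ, M ≤ 2 ^ 2 ^ n →
      Fintype.card (V (Root n) (wl k n j)) * (2 * Real.exp (- 2 ^ (10 * n))) +
      Fintype.card (Root n) * ((M : ℝ) ^ (j + 1) *
        (2 * (16 * (2 : ℝ) ^ n * (2 * tx n (j + 1) + 2 ^ n * tx n (j + 2))) ^ (2 ^ n + 1))) ≤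
      (1 / 2) ^ (2 ^ n / 8) := by
  filter_upwards [Filter.eventually_ge_atTop (6 + (8 + 8 * 8 ^ k * k))] with n hn j hj
  have hn6 : 6 ≤ n := by omega
  have hn8 : 8 + 8 * 8 ^ k * k ≤ n := by omega
  have hq : 1 ≤ 8 ^ j := Nat.one_le_pow _ _ (by norm_num)
  have hjq : j + 1 ≤ 8 ^ j := Nat.lt_pow_self (by norm_num)
  set q := 8 ^ j with hqd
  have e1 : tx n (j + 1) = (1 / 2) ^ (16 * n * q) := by
    unfold tx
    congr 1
    rw [pow_succ, ← hqd]
    ring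
  have e2 : tx n (j + 2) = (1 / 2) ^ (128 * n * q) := by
    unfold tx
    congr 1
    rw [pow_succ, pow_succ, ← hqd]
    ring
  have hnq : n ≤ n * q := Nat.le_mul_of_pos_right _ hq
  have a1 : (2 : ℝ) ^ n * tx n (j + 2) ≤ (1 / 2) ^ (16 * n * q) := by
    rw [e2, half_mul n _ (by nlinarith)]
    refine half_anti ?_
    have : 128 * n * q = 128 * (n * q) := by ring
    have : 16 * n * q = 16 * (n * q) := by ring
    omega
  have hb : 16 * (2 : ℝ) ^ n * (2 * tx n (j + 1) + 2 ^ n * tx n (j + 2)) ≤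
      (1 / 2) ^ (14 * n * q) := by
    calc 16 * (2 : ℝ) ^ n * (2 * tx n (j + 1) + 2 ^ n * tx n (j + 2))
        ≤ 16 * (2 : ℝ) ^ n * (2 * (1 / 2) ^ (16 * n * q) + (1 / 2) ^ (16 * n * q)) := by
          rw [← e1]
          gcongr
          rw [e1]
          exact a1
      _ ≤ (2 : ℝ) ^ (6 + n) * (1 / 2) ^ (16 * n * q) := by
          have : (0 : ℝ) ≤ 2 ^ n * (1 / 2) ^ (16 * n * q) := by positivity
          rw [pow_add]
          nlinarith
      _ = (1 / 2) ^ (16 * n * q - (6 + n)) := half_mul _ _ (by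
          have : 16 * n * q = 16 * (n * q) := by ring
          omega)
      _ ≤ (1 / 2) ^ (14 * n * q) := by
          refine half_anti ?_
          have : 16 * n * q = 16 * (n * q) := by ring
          have : 14 * n * q = 14 * (n * q) := by ring
          omega
  have hb0 : 0 ≤ 16 * (2 : ℝ) ^ n * (2 * tx n (j + 1) + 2 ^ n * tx n (j + 2)) := by
    rw [e1, e2]
    positivity
  refine ⟨a1.trans (half_le ?_), ?_, ?_, hb.trans ?_, ?_⟩
  · have : 16 * n * q = 16 * (n * q) := by ring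
    omega
  · rw [e2]
    refine half_le ?_
    have : 128 * n * q = 128 * (n * q) := by ring
    omega
  · rw [e1]
    have : ((1 : ℝ) / 2) ^ (16 * n * q) ≤ (1 / 2) ^ 3 := half_anti (by
      have : 16 * n * q = 16 * (n * q) := by ring
      omega)
    calc 2 * ((1 : ℝ) / 2) ^ (16 * n * q) ≤ 2 * (1 / 2) ^ 3 := by linarith
      _ = 1 / 4 := by norm_num
  · exact pow_le_one₀ (by norm_num) (by norm_num)
  · intro M hM
    -- the second summand
    have hM' : (M : ℝ) ^ (j + 1) ≤ 2 ^ (2 ^ n * q) := by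
      have h1 : (M : ℝ) ≤ 2 ^ 2 ^ n := by exact_mod_cast hM
      calc (M : ℝ) ^ (j + 1) ≤ ((2 : ℝ) ^ 2 ^ n) ^ (j + 1) :=
            pow_le_pow_left₀ (Nat.cast_nonneg M) h1 _
        _ = 2 ^ (2 ^ n * (j + 1)) := (pow_mul _ _ _).symm
        _ ≤ 2 ^ (2 ^ n * q) := pow_le_pow_right₀ (by norm_num) (Nat.mul_le_mul_left _ hjq)
    have hbp : (16 * (2 : ℝ) ^ n * (2 * tx n (j + 1) + 2 ^ n * tx n (j + 2))) ^ (2 ^ n + 1) ≤
        (1 / 2) ^ (14 * n * q * 2 ^ n) := by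
      calc (16 * (2 : ℝ) ^ n * (2 * tx n (j + 1) + 2 ^ n * tx n (j + 2))) ^ (2 ^ n + 1)
          ≤ ((1 / 2) ^ (14 * n * q)) ^ (2 ^ n + 1) := pow_le_pow_left₀ hb0 hb _
        _ = (1 / 2) ^ (14 * n * q * (2 ^ n + 1)) := (pow_mul _ _ _).symm
        _ ≤ _ := half_anti (Nat.mul_le_mul_left _ (by omega))
    have s2 : (Fintype.card (Root n) : ℝ) * ((M : ℝ) ^ (j + 1) *
        (2 * (16 * (2 : ℝ) ^ n * (2 * tx n (j + 1) + 2 ^ n * tx n (j + 2))) ^ (2 ^ n + 1))) ≤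
        (1 / 2) ^ (2 ^ n / 8 + 1) := by
      rw [card_root]
      push_cast
      calc (2 : ℝ) ^ (3 * n + 2) * ((M : ℝ) ^ (j + 1) *
          (2 * (16 * (2 : ℝ) ^ n * (2 * tx n (j + 1) + 2 ^ n * tx n (j + 2))) ^ (2 ^ n + 1)))
          ≤ (2 : ℝ) ^ (3 * n + 2) * (2 ^ (2 ^ n * q) * (2 * (1 / 2) ^ (14 * n * q * 2 ^ n))) := by
            gcongr
        _ = 2 ^ (3 * n + 3 + 2 ^ n * q) * (1 / 2) ^ (14 * n * q * 2 ^ n) := by
            rw [pow_add 2 (3 * n + 3), show 3 * n + 3 = (3 * n + 2) + 1 by ring, pow_succ]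
            ring
        _ = (1 / 2) ^ (14 * n * q * 2 ^ n - (3 * n + 3 + 2 ^ n * q)) :=
            half_mul _ _ ((Nat.le_add_right _ _).trans (nat1 n q hn6 hq))
        _ ≤ (1 / 2) ^ (2 ^ n / 8 + 1) :=
            half_anti (Nat.le_sub_of_add_le (by have := nat1 n q hn6 hq; omega))
    -- the first summand
    have s1 : (Fintype.card (V (Root n) (wl k n j)) : ℝ) * (2 * Real.exp (- 2 ^ (10 * n))) ≤
        (1 / 2) ^ (2 ^ n / 8 + 1) := by
      have c1 : (Fintype.card (V (Root n) (wl k n j)) : ℝ) ≤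
          2 ^ (3 * n + 2 + 8 * n * 8 ^ k * k) := by
        have h1 := card_le k n (by omega) j (by omega)
        have h2 : 2 ^ (3 * n + 2 + 8 * n * 8 ^ k * j) ≤ 2 ^ (3 * n + 2 + 8 * n * 8 ^ k * k) :=
          Nat.pow_le_pow_right (by norm_num)
            (Nat.add_le_add_left (Nat.mul_le_mul_left _ (by omega)) _)
        exact_mod_cast h1.trans h2
      have c2 : Real.exp (- (2 : ℝ) ^ (10 * n)) ≤ (1 / 2) ^ (2 ^ (10 * n)) := by
        have := exp_le (2 ^ (10 * n))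
        push_cast at this
        exact this
      calc (Fintype.card (V (Root n) (wl k n j)) : ℝ) * (2 * Real.exp (- 2 ^ (10 * n)))
          ≤ 2 ^ (3 * n + 2 + 8 * n * 8 ^ k * k) * (2 * (1 / 2) ^ (2 ^ (10 * n))) := by
            gcongr
        _ = 2 ^ (3 * n + 2 + 8 * n * 8 ^ k * k + 1) * (1 / 2) ^ (2 ^ (10 * n)) := by
            rw [pow_succ 2 (3 * n + 2 + 8 * n * 8 ^ k * k)]
            ring
        _ = (1 / 2) ^ (2 ^ (10 * n) - (3 * n + 2 + 8 * n * 8 ^ k * k + 1)) :=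
            half_mul _ _ ((Nat.le_add_right _ _).trans (nat2 n k hn6 hn8))
        _ ≤ (1 / 2) ^ (2 ^ n / 8 + 1) :=
            half_anti (Nat.le_sub_of_add_le (by have := nat2 n k hn6 hn8; omega))
    calc _ ≤ ((1 : ℝ) / 2) ^ (2 ^ n / 8 + 1) + (1 / 2) ^ (2 ^ n / 8 + 1) := add_le_add s1 s2
      _ = (1 / 2) ^ (2 ^ n / 8) := by rw [pow_succ]; ring

end Pool.Agent.H620R2.PHG
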