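import Pool.Agent.H620R2.PHG.Basic

/-!
# P21: the last level, one block
-/

namespace Pool.Agent.H620R2.PHG

open Finset H568R2 Pool.Agent.H676

/-- the expectation of a product of functions of single coordinates -/
theorem p21_prod {ι A : Type*} [Fintype ι] [DecidableEq ι] [Fintype A] (W φ : ι → A → ℝ) :
    Ew W (fun ω => ∏ i, φ i (ω i)) = ∏ i, ∑ a, W i a * φ i a := by
  have h := Ew_one (fun i a => W i a * φ i a)
  rw [← h]
  unfold Ew
  refine Finset.sum_congr rfl fun ω _ => ?_
  rw [mul_one, ← Finset.prod_mul_distrib]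

open Classical in
/-- the probability that one coordinate is true -/
theorem p21_one {ι : Type*} [Fintype ι] [DecidableEq ι] (st : ι → Bool) (t : ℝ) (v : ι) :
    Ew (fun v => mw t (st v)) (fun ω => if ω v = true then 1 else 0) = mw t (st v) true := by
  have h := p21_prod (fun v => mw t (st v)) (fun i b => if i = v then (if b = true then (1 : ℝ)
    else 0) else 1)
  have e : (fun ω : ι → Bool => ∏ i, (if i = v then (if ω i = true then (1 : ℝ) else 0) else 1)) =
      fun ω => if ω v = true then 1 else 0 := by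
    funext ω
    rw [Finset.prod_ite_eq' univ v (fun i => if ω i = true then (1 : ℝ) else 0)]
    simp
  rw [e] at h
  rw [h]
  rw [← Finset.mul_prod_erase univ _ (Finset.mem_univ v)]
  have e2 : ∏ i ∈ univ.erase v, ∑ a, mw t (st i) a * (if i = v then (if a = true then (1 : ℝ)
      else 0) else 1) = 1 := by
    refine Finset.prod_eq_one fun i hi => ?_
    have : i ≠ v := Finset.ne_of_mem_erase hi
    simp only [if_neg this, mul_one]
    exact mw_sum t (st i)
  rw [e2, mul_one]
  simp

theorem mw_true_le {t : ℝ} (h0 : 0 ≤ t) (s : Bool) : mw t s true ≤ t := by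
  cases s <;> simp [mw, bern, h0]

open Classical in
/-- the probability that the block is zero -/
theorem p21_zero {G : Type} [Fintype G] [DecidableEq G] {w : ℕ} (st : G × Fin w → Bool)
    (t : ℝ) (g₀ : G) :
    Ew (fun v => mw t (st v)) (fun ω => if ∀ e : Fin w, ω (g₀, e) = false then 1 else 0) =
      p0 t (fun c => st (g₀, c)) := by
  have h := p21_prod (fun v => mw t (st v)) (fun (v : G × Fin w) b => if v.1 = g₀ then
    (if b = false then (1 : ℝ) else 0) else 1)
  have e : (fun ω : G × Fin w → Bool => ∏ v : G × Fin w, (if v.1 = g₀ then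
      (if ω v = false then (1 : ℝ) else 0) else 1)) =
      fun ω => if ∀ e : Fin w, ω (g₀, e) = false then 1 else 0 := by
    funext ω
    by_cases hω : ∀ e : Fin w, ω (g₀, e) = false
    · rw [if_pos hω]
      refine Finset.prod_eq_one fun v _ => ?_
      by_cases hv : v.1 = g₀
      · have : ω v = false := by
          have := hω v.2
          rw [← hv] at this
          exact this
        rw [if_pos hv, if_pos this]
      · rw [if_neg hv]
    · rw [if_neg hω]
      push Not at hω
      obtain ⟨e, he⟩ := hω
      refine Finset.prod_eq_zero (Finset.mem_univ (g₀, e)) ?_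
      rw [if_pos rfl, if_neg he]
  rw [e] at h
  rw [h, Fintype.prod_prod_type, ← Finset.mul_prod_erase univ _ (Finset.mem_univ g₀)]
  have e2 : ∏ g ∈ univ.erase g₀, ∏ c : Fin w, ∑ a, mw t (st (g, c)) a * (if (g, c).1 = g₀ then
      (if a = false then (1 : ℝ) else 0) else 1) = 1 := by
    refine Finset.prod_eq_one fun g hg => Finset.prod_eq_one fun c _ => ?_
    have : g ≠ g₀ := Finset.ne_of_mem_erase hg
    simp only [if_neg this, mul_one]
    exact mw_sum t _
  rw [e2, mul_one, ← zw_zero]
  unfold zw
  refine Finset.prod_congr rfl fun c _ => ?_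
  simp

open Classical in
/-- P21 (the last level, one block) -/
theorem last_block {G : Type} [Fintype G] [DecidableEq G] {w : ℕ} (st : G × Fin w → Bool)
    (t : ℝ) (T : ℕ) (ht0 : 0 ≤ t) (ht1 : t ≤ 1) (hT : T * t ≤ 1 / 8) (g₀ : G)
    (hp : 1 / 4 ≤ p0 t (fun c => st (g₀, c)) ∧ p0 t (fun c => st (g₀, c)) ≤ 3 / 4)
    (Z : Set (Finset (G × Fin w))) (f : (G × Fin w → Bool) → Bool) (ω : G × Fin w → Bool) :
    Ew (fun v => mw t (st v)) (fun ω' =>
      if (∀ e : Fin w, ω' (g₀, e) = false) ↔
          ∃ S : Finset (G × Fin w), S.card ≤ T ∧ S ∈ Z ∧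
            ∀ y : G × Fin w → Bool,
              (∀ v ∈ S, y v = if v.1 = g₀ then ω' v else ω v) → f y = true
      then 1 else 0) ≤ 7 / 8 := by
  have hW0 : ∀ (v : G × Fin w) (b : Bool), 0 ≤ mw t (st v) b := fun v b => mw_nonneg ht0 ht1 _ _
  have hW1 : ∀ v : G × Fin w, ∑ b, mw t (st v) b = 1 := fun v => mw_sum t _
  by_cases h0 : ∃ S : Finset (G × Fin w), S.card ≤ T ∧ S ∈ Z ∧
            ∀ y : G × Fin w → Bool,
              (∀ v ∈ S, y v = if v.1 = g₀ then false else ω v) → f y = true
  · obtain ⟨S, hS, hSZ, hf⟩ := h0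
    have hle : Ew (fun v => mw t (st v)) (fun ω' =>
        if (∀ e : Fin w, ω' (g₀, e) = false) ↔
          ∃ S : Finset (G × Fin w), S.card ≤ T ∧ S ∈ Z ∧
            ∀ y : G × Fin w → Bool,
              (∀ v ∈ S, y v = if v.1 = g₀ then ω' v else ω v) → f y = true
        then 1 else 0) ≤ Ew (fun v => mw t (st v)) (fun ω' =>
          (if ∀ e : Fin w, ω' (g₀, e) = false then 1 else 0) +
            ∑ v ∈ S.filter (fun v => v.1 = g₀), (if ω' v = true then 1 else 0)) := by
      refine Ew_mono hW0 fun ω' => ?_
      have hs0 : ∀ v ∈ S.filter (fun v => v.1 = g₀), (0 : ℝ) ≤ (if ω' v = true then 1 else 0) :=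
        fun v _ => by split_ifs <;> norm_num
      by_cases h1 : ∃ v ∈ S.filter (fun v => v.1 = g₀), ω' v = true
      · obtain ⟨v, hv, hv'⟩ := h1
        have h2 := Finset.single_le_sum hs0 hv
        rw [if_pos hv'] at h2
        have h3 : (0 : ℝ) ≤ (if ∀ e : Fin w, ω' (g₀, e) = false then 1 else 0) := by
          split_ifs <;> norm_num
        split_ifs at * <;> linarith
      · push Not at h1
        have hC : ∃ S : Finset (G × Fin w), S.card ≤ T ∧ S ∈ Z ∧
            ∀ y : G × Fin w → Bool,
              (∀ v ∈ S, y v = if v.1 = g₀ then ω' v else ω v) → f y = true := by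
          refine ⟨S, hS, hSZ, fun y hy => hf y fun v hv => ?_⟩
          rw [hy v hv]
          by_cases hg : v.1 = g₀
          · rw [if_pos hg, if_pos hg]
            have := h1 v (Finset.mem_filter.2 ⟨hv, hg⟩)
            simpa using this
          · rw [if_neg hg, if_neg hg]
        have h2 := Finset.sum_nonneg hs0
        by_cases h3 : ∀ e : Fin w, ω' (g₀, e) = false
        · rw [if_pos h3]
          split_ifs <;> linarith
        · rw [if_neg h3]
          rw [if_neg (fun h => h3 (h.2 hC))]
          linarith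
    refine hle.trans ?_
    rw [Ew_add, p21_zero, Ew_sum]
    have h4 : ∑ v ∈ S.filter (fun v => v.1 = g₀), Ew (fun v => mw t (st v))
        (fun ω' => if ω' v = true then 1 else 0) ≤ ∑ v ∈ S.filter (fun v => v.1 = g₀), t := by
      refine Finset.sum_le_sum fun v _ => ?_
      rw [p21_one]
      exact mw_true_le ht0 _
    have h5 : ∑ v ∈ S.filter (fun v => v.1 = g₀), t ≤ T * t := by
      rw [Finset.sum_const, nsmul_eq_mul]
      refine mul_le_mul_of_nonneg_right ?_ ht0
      exact_mod_cast (Finset.card_filter_le _ _).trans hS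
    linarith [hp.2]
  · have hle : Ew (fun v => mw t (st v)) (fun ω' =>
        if (∀ e : Fin w, ω' (g₀, e) = false) ↔
          ∃ S : Finset (G × Fin w), S.card ≤ T ∧ S ∈ Z ∧
            ∀ y : G × Fin w → Bool,
              (∀ v ∈ S, y v = if v.1 = g₀ then ω' v else ω v) → f y = true
        then 1 else 0) ≤ Ew (fun v => mw t (st v)) (fun ω' =>
          1 + (-1) * (if ∀ e : Fin w, ω' (g₀, e) = false then 1 else 0)) := by
      refine Ew_mono hW0 fun ω' => ?_
      by_cases h3 : ∀ e : Fin w, ω' (g₀, e) = false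
      · have hC : ¬ ∃ S : Finset (G × Fin w), S.card ≤ T ∧ S ∈ Z ∧
            ∀ y : G × Fin w → Bool,
              (∀ v ∈ S, y v = if v.1 = g₀ then ω' v else ω v) → f y = true := by
          rintro ⟨S, hS, hSZ, hf⟩
          refine h0 ⟨S, hS, hSZ, fun y hy => hf y fun v hv => ?_⟩
          rw [hy v hv]
          by_cases hg : v.1 = g₀
          · rw [if_pos hg, if_pos hg]
            have := h3 v.2
            rw [← hg] at this
            exact this.symm
          · rw [if_neg hg, if_neg hg]
        rw [if_pos h3, if_neg (fun h => hC (h.1 h3))]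
        norm_num
      · rw [if_neg h3]
        split_ifs <;> norm_num
    refine hle.trans ?_
    rw [Ew_add, Ew_smul, p21_zero, Ew_const hW1]
    linarith [hp.1]

end Pool.Agent.H620R2.PHG
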