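import Pool.Agent.H620R2.PHG.Basic

/-!
# P37: resampling of coordinates
-/

namespace Pool.Agent.H620R2.PHG

open Finset H568R2 Pool.Agent.H676

namespace P37

/-- exchange the coordinates in `B` -/
def mix {ι A : Type*} [DecidableEq ι] (B : Finset ι) (ω ω' : ι → A) : ι → A :=
  fun i => if i ∈ B then ω' i else ω i

theorem mix_mix {ι A : Type*} [DecidableEq ι] (B : Finset ι) (ω ω' : ι → A) :
    mix B (mix B ω ω') (mix B ω' ω) = ω := by
  funext i
  unfold mix
  split_ifs <;> rfl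

/-- the exchange as a permutation of pairs -/
def swp {ι A : Type*} [DecidableEq ι] (B : Finset ι) : Equiv.Perm ((ι → A) × (ι → A)) :=
  Function.Involutive.toPerm (fun p => (mix B p.1 p.2, mix B p.2 p.1)) fun p =>
    Prod.ext (mix_mix B p.1 p.2) (mix_mix B p.2 p.1)

theorem prod_mix {ι A : Type*} [Fintype ι] [DecidableEq ι] (W : ι → A → ℝ) (B : Finset ι)
    (ω ω' : ι → A) : (∏ i, W i (mix B ω ω' i)) * (∏ i, W i (mix B ω' ω i)) =
      (∏ i, W i (ω i)) * (∏ i, W i (ω' i)) := by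
  rw [← Finset.prod_mul_distrib, ← Finset.prod_mul_distrib]
  refine Finset.prod_congr rfl fun i _ => ?_
  unfold mix
  split_ifs
  · exact mul_comm _ _
  · rfl

end P37

open P37 in
/-- P04 (resample the coordinates in `B`) -/
theorem Ew_resample {ι A : Type*} [Fintype ι] [DecidableEq ι] [Fintype A]
    {W : ι → A → ℝ} (hW : ∀ i, ∑ a, W i a = 1) (B : Finset ι) (F : (ι → A) → ℝ) :
    Ew W F = Ew W (fun ω => Ew W (fun ω' => F (fun i => if i ∈ B then ω' i else ω i))) := by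
  have h1 : Ew W (fun ω => Ew W (fun ω' => F (fun i => if i ∈ B then ω' i else ω i))) =
      ∑ p : (ι → A) × (ι → A), ((∏ i, W i (p.1 i)) * (∏ i, W i (p.2 i))) *
        F (mix B p.1 p.2) := by
    unfold Ew
    rw [Fintype.sum_prod_type]
    refine Finset.sum_congr rfl fun ω _ => ?_
    rw [Finset.mul_sum]
    refine Finset.sum_congr rfl fun ω' _ => ?_
    rw [mul_assoc]
    rfl
  have h2 : ∑ p : (ι → A) × (ι → A), ((∏ i, W i (p.1 i)) * (∏ i, W i (p.2 i))) *
        F (mix B p.1 p.2) =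
      ∑ p : (ι → A) × (ι → A), ((∏ i, W i (p.1 i)) * (∏ i, W i (p.2 i))) * F p.1 := by
    rw [← Equiv.sum_comp (swp B) fun p : (ι → A) × (ι → A) =>
      ((∏ i, W i (p.1 i)) * (∏ i, W i (p.2 i))) * F p.1]
    refine Finset.sum_congr rfl fun p _ => ?_
    show _ = ((∏ i, W i (mix B p.1 p.2 i)) * (∏ i, W i (mix B p.2 p.1 i))) * F (mix B p.1 p.2)
    rw [prod_mix]
  have h3 : ∑ p : (ι → A) × (ι → A), ((∏ i, W i (p.1 i)) * (∏ i, W i (p.2 i))) * F p.1 =
      Ew W F := by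
    rw [Fintype.sum_prod_type]
    have h4 : ∑ ω' : ι → A, ∏ i, W i (ω' i) = 1 := by
      have := Ew_const hW 1
      unfold Ew at this
      simpa using this
    unfold Ew
    refine Finset.sum_congr rfl fun ω _ => ?_
    simp only
    rw [← Finset.sum_mul, ← Finset.mul_sum, h4, mul_one]
  rw [h1, h2, h3]

/-- P04 -/
theorem Ew_mul_le {ι A : Type*} [Fintype ι] [DecidableEq ι] [Fintype A]
    {W : ι → A → ℝ} (hW0 : ∀ i a, 0 ≤ W i a) (hW : ∀ i, ∑ a, W i a = 1) (B : Finset ι)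
    (F G : (ι → A) → ℝ) (hF : ∀ ω, 0 ≤ F ω)
    (hFB : ∀ ω ω' : ι → A, (∀ i, i ∉ B → ω i = ω' i) → F ω = F ω') (c : ℝ)
    (hG : ∀ ω : ι → A, Ew W (fun ω' => G (fun i => if i ∈ B then ω' i else ω i)) ≤ c) :
    Ew W (fun ω => F ω * G ω) ≤ c * Ew W F := by
  rw [Ew_resample hW B (fun ω => F ω * G ω), ← Ew_smul]
  refine Ew_mono hW0 fun ω => ?_
  have h1 : ∀ ω' : ι → A, F (fun i => if i ∈ B then ω' i else ω i) = F ω := fun ω' =>
    hFB _ _ fun i hi => if_neg hi
  have h2 : Ew W (fun ω' => F (fun i => if i ∈ B then ω' i else ω i) *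
      G (fun i => if i ∈ B then ω' i else ω i)) =
      F ω * Ew W (fun ω' => G (fun i => if i ∈ B then ω' i else ω i)) := by
    rw [← Ew_smul]
    simp only [h1]
  rw [h2, mul_comm c]
  exact mul_le_mul_of_nonneg_left (hG ω) (hF ω)

end Pool.Agent.H620R2.PHG
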