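import Pool.Agent.H620R2.PHG.P21
import Pool.Agent.H620R2.PHG.P37

/-!
# P22: the last level, fixed selection of blocks
-/

namespace Pool.Agent.H620R2.PHG

open Finset H568R2 Pool.Agent.H676

open Classical in
/-- the event for the selection `c` and the block `j` -/
def P22ev {A B w : ℕ} (c : Fin A → Fin B) (T : ℕ)
    (Gs : Fin A × Fin B → (((Fin A × Fin B) × Fin w → Bool) → Bool)) (j : Fin A)
    (x : (Fin A × Fin B) × Fin w → Bool) : Prop :=
  (∀ e : Fin w, x ((j, c j), e) = false) ↔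
          ∃ S : Finset ((Fin A × Fin B) × Fin w), S.card ≤ T ∧
            (∀ v ∈ S, ∀ j' : Fin A, j' ≠ j → v.1 ≠ (j', c j')) ∧
            ∀ y, (∀ v ∈ S, y v = x v) → Gs (j, c j) y = true

open Classical in
theorem p22_aux {A B w : ℕ} (c : Fin A → Fin B) (st : (Fin A × Fin B) × Fin w → Bool)
    (t : ℝ) (T : ℕ) (ht0 : 0 ≤ t) (ht1 : t ≤ 1) (hT : T * t ≤ 1 / 8)
    (hp : ∀ i, 1 / 4 ≤ p0 t (fun c => st (i, c)) ∧ p0 t (fun c => st (i, c)) ≤ 3 / 4)
    (Gs : Fin A × Fin B → (((Fin A × Fin B) × Fin w → Bool) → Bool)) (J : Finset (Fin A)) :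
    Ew (fun v => mw t (st v)) (fun x => if ∀ j ∈ J, P22ev c T Gs j x then 1 else 0) ≤
      (7 / 8) ^ J.card := by
  have hW0 : ∀ (v : (Fin A × Fin B) × Fin w) (b : Bool), 0 ≤ mw t (st v) b :=
    fun v b => mw_nonneg ht0 ht1 _ _
  have hW1 : ∀ v : (Fin A × Fin B) × Fin w, ∑ b, mw t (st v) b = 1 := fun v => mw_sum t _
  induction J using Finset.induction_on with
  | empty =>
    simp only [Finset.notMem_empty, false_imp_iff, imp_true_iff, if_true, Finset.card_empty,
      pow_zero]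
    rw [Ew_const hW1]
  | insert j₀ J hj₀ ih =>
    have h1 := Ew_mul_le hW0 hW1 (univ.filter (fun v : (Fin A × Fin B) × Fin w =>
      v.1 = (j₀, c j₀))) (fun x => if ∀ j ∈ J, P22ev c T Gs j x then 1 else 0)
      (fun x => if P22ev c T Gs j₀ x then 1 else 0) (fun x => by split_ifs <;> norm_num)
      ?_ (7 / 8) ?_
    · have e : (fun x : (Fin A × Fin B) × Fin w → Bool =>
          (if ∀ j ∈ insert j₀ J, P22ev c T Gs j x then (1 : ℝ) else 0)) =
          fun x => (if ∀ j ∈ J, P22ev c T Gs j x then 1 else 0) *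
            (if P22ev c T Gs j₀ x then 1 else 0) := by
        funext x
        simp only [Finset.forall_mem_insert]
        by_cases ha : P22ev c T Gs j₀ x <;> by_cases hb : ∀ j ∈ J, P22ev c T Gs j x
        · rw [if_pos ⟨ha, hb⟩, if_pos ha, if_pos hb, mul_one]
        · rw [if_neg (fun h => hb h.2), if_neg hb, zero_mul]
        · rw [if_neg (fun h => ha h.1), if_neg ha, mul_zero]
        · rw [if_neg (fun h => ha h.1), if_neg ha, mul_zero]
      rw [e, Finset.card_insert_of_notMem hj₀, pow_succ, mul_comm ((7 / 8 : ℝ) ^ J.card)]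
      exact h1.trans (mul_le_mul_of_nonneg_left ih (by norm_num))
    · intro ω ω' hω
      have hω' : ∀ v : (Fin A × Fin B) × Fin w, v.1 ≠ (j₀, c j₀) → ω v = ω' v := by
        intro v hv
        exact hω v (by simpa using hv)
      have key : ∀ j ∈ J, (P22ev c T Gs j ω ↔ P22ev c T Gs j ω') := by
        intro j hj
        have hne : j₀ ≠ j := fun h => hj₀ (h ▸ hj)
        unfold P22ev
        have e1 : (∀ e : Fin w, ω ((j, c j), e) = false) ↔
            (∀ e : Fin w, ω' ((j, c j), e) = false) := by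
          refine forall_congr' fun e => ?_
          rw [hω' ((j, c j), e) (fun h => hne (Prod.ext_iff.1 h).1.symm)]
        have e2 : (∃ S : Finset ((Fin A × Fin B) × Fin w), S.card ≤ T ∧
            (∀ v ∈ S, ∀ j' : Fin A, j' ≠ j → v.1 ≠ (j', c j')) ∧
            ∀ y, (∀ v ∈ S, y v = ω v) → Gs (j, c j) y = true) ↔
            (∃ S : Finset ((Fin A × Fin B) × Fin w), S.card ≤ T ∧
            (∀ v ∈ S, ∀ j' : Fin A, j' ≠ j → v.1 ≠ (j', c j')) ∧
            ∀ y, (∀ v ∈ S, y v = ω' v) → Gs (j, c j) y = true) := by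
          constructor
          · rintro ⟨S, h1, h2, h3⟩
            refine ⟨S, h1, h2, fun y hy => h3 y fun v hv => ?_⟩
            rw [hy v hv, hω' v (h2 v hv j₀ hne)]
          · rintro ⟨S, h1, h2, h3⟩
            refine ⟨S, h1, h2, fun y hy => h3 y fun v hv => ?_⟩
            rw [hy v hv, hω' v (h2 v hv j₀ hne)]
        rw [e1, e2]
      have : (∀ j ∈ J, P22ev c T Gs j ω) ↔ (∀ j ∈ J, P22ev c T Gs j ω') :=
        forall₂_congr key
      simp only [this]
    · intro ω
      have h2 := last_block st t T ht0 ht1 hT (j₀, c j₀) (hp _)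
        {S | ∀ v ∈ S, ∀ j' : Fin A, j' ≠ j₀ → v.1 ≠ (j', c j')} (Gs (j₀, c j₀)) ω
      refine le_trans (le_of_eq ?_) h2
      congr 1
      funext ω'
      unfold P22ev
      simp only [Finset.mem_filter, Finset.mem_univ, true_and, if_true, Set.mem_ofPred_eq]
      congr

open Classical in
/-- P22 (the last level, fixed selection of blocks) -/
theorem last_select {A B w : ℕ} (c : Fin A → Fin B) (st : (Fin A × Fin B) × Fin w → Bool)
    (t : ℝ) (T : ℕ) (ht0 : 0 ≤ t) (ht1 : t ≤ 1) (hT : T * t ≤ 1 / 8)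
    (hp : ∀ i, 1 / 4 ≤ p0 t (fun c => st (i, c)) ∧ p0 t (fun c => st (i, c)) ≤ 3 / 4)
    (Gs : Fin A × Fin B → (((Fin A × Fin B) × Fin w → Bool) → Bool)) :
    Ew (fun v => mw t (st v)) (fun x => if ∀ j : Fin A,
        ((∀ e : Fin w, x ((j, c j), e) = false) ↔
          ∃ S : Finset ((Fin A × Fin B) × Fin w), S.card ≤ T ∧
            (∀ v ∈ S, ∀ j' : Fin A, j' ≠ j → v.1 ≠ (j', c j')) ∧
            ∀ y, (∀ v ∈ S, y v = x v) → Gs (j, c j) y = true) then 1 else 0) ≤
      (7 / 8) ^ A := by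
  have h := p22_aux c st t T ht0 ht1 hT hp Gs univ
  rw [Finset.card_univ, Fintype.card_fin] at h
  refine le_trans (le_of_eq ?_) h
  congr 1
  funext x
  unfold P22ev
  simp only [Finset.mem_univ, true_imp_iff]

end Pool.Agent.H620R2.PHG
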