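import Pool.Agent.H620R2.PHG.P22

/-!
# P23: the last level
-/

namespace Pool.Agent.H620R2.PHG

open Finset H568R2 Pool.Agent.H676

/-- functions with prescribed values on `T` -/
theorem p23_constr {m R : ℕ} (T : Finset (Fin m)) (t : Fin m → Fin R) :
    (univ.filter (fun c : Fin m → Fin R => ∀ k ∈ T, c k = t k)).card * R ^ T.card = R ^ m := by
  classical
  have h1 : univ.filter (fun c : Fin m → Fin R => ∀ k ∈ T, c k = t k) =
      Fintype.piFinset (fun k => if k ∈ T then {t k} else univ) := by
    ext c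
    simp only [mem_filter, mem_univ, true_and, Fintype.mem_piFinset]
    constructor
    · intro h k
      by_cases hk : k ∈ T
      · simp [hk, h k hk]
      · simp [hk]
    · intro h k hk
      have := h k
      simpa [hk] using this
  rw [h1, Fintype.card_piFinset]
  have h2 : ∀ k : Fin m, (if k ∈ T then ({t k} : Finset (Fin R)) else univ).card =
      if k ∈ T then 1 else R := by
    intro k
    split_ifs <;> simp
  simp only [h2]
  rw [Finset.prod_ite]
  simp only [prod_const_one, one_mul, prod_const]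
  rw [← pow_add]
  congr 1
  have h3 : (univ.filter (fun k : Fin m => k ∉ T)) = Tᶜ := by
    ext k; simp
  rw [h3, Finset.card_compl, Fintype.card_fin]
  have := Finset.card_le_univ T
  rw [Fintype.card_fin] at this
  omega

theorem p23_two {m R : ℕ} (i i' : Fin m) (hi : i ≠ i') (r r' : Fin R) :
    (univ.filter (fun c : Fin m → Fin R => c i = r ∧ c i' = r')).card * R ^ 2 = R ^ m := by
  have h := p23_constr {i, i'} (fun k => if k = i then r else r')
  rw [Finset.card_pair hi] at h
  rw [← h]
  congr 2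
  ext c
  simp [Ne.symm hi]

open Classical in
/-- P23 (the selections for which no certificate touches another selected block) -/
theorem few_bad {A B T : ℕ} (hB : 4 * (A * T) ≤ B) (hB1 : 1 ≤ B)
    (touch : Fin A × Fin B → Finset (Fin A × Fin B)) (ht : ∀ i, (touch i).card ≤ T) :
    3 * B ^ A ≤ 4 * (univ.filter (fun c : Fin A → Fin B =>
      ∀ j j' : Fin A, j' ≠ j → (j', c j') ∉ touch (j, c j))).card := by
  set good := univ.filter (fun c : Fin A → Fin B =>
      ∀ j j' : Fin A, j' ≠ j → (j', c j') ∉ touch (j, c j)) with hgood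
  set bad := univ.filter (fun c : Fin A → Fin B =>
      ¬ ∀ j j' : Fin A, j' ≠ j → (j', c j') ∉ touch (j, c j)) with hbad
  have h1 : good.card + bad.card = B ^ A := by
    rw [hgood, hbad, Finset.card_filter_add_card_filter_not]
    simp
  set E : (Fin A × Fin B) → (Fin A × Fin B) → Finset (Fin A → Fin B) := fun i p =>
    univ.filter (fun c : Fin A → Fin B => c i.1 = i.2 ∧ c p.1 = p.2) with hE
  have hsub : bad ⊆ (univ : Finset (Fin A × Fin B)).biUnion (fun i =>
      ((touch i).filter (fun p => p.1 ≠ i.1)).biUnion (E i)) := by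
    intro c hc
    simp only [hbad, mem_filter, mem_univ, true_and] at hc
    push Not at hc
    obtain ⟨j, j', hjj, hc⟩ := hc
    rw [mem_biUnion]
    refine ⟨(j, c j), mem_univ _, ?_⟩
    rw [mem_biUnion]
    refine ⟨(j', c j'), mem_filter.2 ⟨hc, hjj⟩, ?_⟩
    simp only [hE, mem_filter, mem_univ, true_and]
  have h2 : bad.card ≤ ∑ i : Fin A × Fin B, ∑ p ∈ (touch i).filter (fun p => p.1 ≠ i.1),
      (E i p).card := by
    refine (Finset.card_le_card hsub).trans (Finset.card_biUnion_le.trans ?_)
    exact Finset.sum_le_sum fun i _ => Finset.card_biUnion_le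
  have h3 : bad.card * B ^ 2 ≤ (A * B) * (T * B ^ A) := by
    calc bad.card * B ^ 2 ≤ (∑ i : Fin A × Fin B, ∑ p ∈ (touch i).filter (fun p => p.1 ≠ i.1),
        (E i p).card) * B ^ 2 := Nat.mul_le_mul_right _ h2
      _ = ∑ i : Fin A × Fin B, ∑ p ∈ (touch i).filter (fun p => p.1 ≠ i.1),
          (E i p).card * B ^ 2 := by
          rw [Finset.sum_mul]
          refine Finset.sum_congr rfl fun i _ => ?_
          rw [Finset.sum_mul]
      _ ≤ ∑ i : Fin A × Fin B, (T * B ^ A) := by
          refine Finset.sum_le_sum fun i _ => ?_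
          calc ∑ p ∈ (touch i).filter (fun p => p.1 ≠ i.1), (E i p).card * B ^ 2
              = ∑ p ∈ (touch i).filter (fun p => p.1 ≠ i.1), B ^ A := by
                refine Finset.sum_congr rfl fun p hp => ?_
                exact p23_two _ _ (Ne.symm (Finset.mem_filter.1 hp).2) _ _
            _ = ((touch i).filter (fun p => p.1 ≠ i.1)).card * B ^ A := by
                rw [Finset.sum_const, smul_eq_mul]
            _ ≤ T * B ^ A := Nat.mul_le_mul_right _ ((Finset.card_filter_le _ _).trans (ht i))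
      _ = (A * B) * (T * B ^ A) := by
          rw [Finset.sum_const, smul_eq_mul, Finset.card_univ, Fintype.card_prod,
            Fintype.card_fin, Fintype.card_fin]
  have h4 : 4 * bad.card ≤ B ^ A := by
    have h5 : (4 * bad.card) * B ^ 2 ≤ B ^ A * B ^ 2 := by
      calc (4 * bad.card) * B ^ 2 = 4 * (bad.card * B ^ 2) := by ring
        _ ≤ 4 * ((A * B) * (T * B ^ A)) := Nat.mul_le_mul_left _ h3
        _ = (4 * (A * T)) * (B * B ^ A) := by ring
        _ ≤ B * (B * B ^ A) := Nat.mul_le_mul_right _ hB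
        _ = B ^ A * B ^ 2 := by ring
    exact Nat.le_of_mul_le_mul_right h5 (by positivity)
  omega

open Classical in
/-- P23 (the last level) -/
theorem last_level {A B w : ℕ} (st : (Fin A × Fin B) × Fin w → Bool)
    (t : ℝ) (T : ℕ) (ht0 : 0 ≤ t) (ht1 : t ≤ 1) (hT : T * t ≤ 1 / 8) (hB : 4 * (A * T) ≤ B)
    (hB1 : 1 ≤ B)
    (hp : ∀ i, 1 / 4 ≤ p0 t (fun c => st (i, c)) ∧ p0 t (fun c => st (i, c)) ≤ 3 / 4)
    (Gs : Fin A × Fin B → (((Fin A × Fin B) × Fin w → Bool) → Bool))
    (hGs : ∀ i, Cert T true (Gs i)) :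
    Ew (fun v => mw t (st v)) (fun x => if ∀ i,
        Gs i x = decide (∀ e : Fin w, x (i, e) = false) then 1 else 0) ≤
      (4 / 3) * (7 / 8) ^ A := by
  have hW0 : ∀ (v : (Fin A × Fin B) × Fin w) (b : Bool), 0 ≤ mw t (st v) b :=
    fun v b => mw_nonneg ht0 ht1 _ _
  set X : ((Fin A × Fin B) × Fin w → Bool) → ℝ := fun x => if ∀ i,
        Gs i x = decide (∀ e : Fin w, x (i, e) = false) then 1 else 0 with hX
  set E : (Fin A → Fin B) → ((Fin A × Fin B) × Fin w → Bool) → ℝ := fun c x =>
    if ∀ j : Fin A,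
        ((∀ e : Fin w, x ((j, c j), e) = false) ↔
          ∃ S : Finset ((Fin A × Fin B) × Fin w), S.card ≤ T ∧
            (∀ v ∈ S, ∀ j' : Fin A, j' ≠ j → v.1 ≠ (j', c j')) ∧
            ∀ y, (∀ v ∈ S, y v = x v) → Gs (j, c j) y = true) then 1 else 0 with hE
  have hE0 : ∀ c x, 0 ≤ E c x := by
    intro c x
    simp only [hE]
    split_ifs <;> norm_num
  have hBp : (0 : ℝ) < (B : ℝ) ^ A := by
    have : (0 : ℝ) < (B : ℝ) := by exact_mod_cast hB1
    positivity
  have key : ∀ x, (3 * (B : ℝ) ^ A) * X x ≤ 4 * ∑ c : Fin A → Fin B, E c x := by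
    intro x
    by_cases hx : ∀ i, Gs i x = decide (∀ e : Fin w, x (i, e) = false)
    · have hcert : ∀ i : Fin A × Fin B, ∃ S : Finset ((Fin A × Fin B) × Fin w), S.card ≤ T ∧
          ((∀ e : Fin w, x (i, e) = false) → ∀ y, (∀ v ∈ S, y v = x v) → Gs i y = true) := by
        intro i
        by_cases hi : ∀ e : Fin w, x (i, e) = false
        · have h1 : Gs i x = true := by rw [hx i]; simpa using hi
          obtain ⟨S, hS, hS'⟩ := hGs i x h1
          exact ⟨S, hS, fun _ => hS'⟩
        · exact ⟨∅, by simp, fun h => absurd h hi⟩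
      choose S hS hS' using hcert
      have hg := few_bad hB hB1 (fun i => (S i).image Prod.fst)
        (fun i => Finset.card_image_le.trans (hS i))
      have hone : ∀ c ∈ univ.filter (fun c : Fin A → Fin B =>
          ∀ j j' : Fin A, j' ≠ j → (j', c j') ∉ (S (j, c j)).image Prod.fst), E c x = 1 := by
        intro c hc
        simp only [mem_filter, mem_univ, true_and] at hc
        simp only [hE]
        rw [if_pos]
        intro j
        constructor
        · intro hj
          refine ⟨S (j, c j), hS _, ?_, hS' _ hj⟩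
          intro v hv j' hj' hv'
          refine hc j j' hj' ?_
          rw [← hv']
          exact Finset.mem_image_of_mem _ hv
        · rintro ⟨S', -, -, h3⟩
          have h4 := h3 x (fun v _ => rfl)
          rw [hx (j, c j)] at h4
          simpa using h4
      have hXx : X x = 1 := by
        simp only [hX]
        rw [if_pos hx]
      rw [hXx, mul_one]
      have h5 : ((univ.filter (fun c : Fin A → Fin B =>
          ∀ j j' : Fin A, j' ≠ j → (j', c j') ∉ (S (j, c j)).image Prod.fst)).card : ℝ) ≤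
          ∑ c : Fin A → Fin B, E c x := by
        calc ((univ.filter (fun c : Fin A → Fin B =>
          ∀ j j' : Fin A, j' ≠ j → (j', c j') ∉ (S (j, c j)).image Prod.fst)).card : ℝ)
            = ∑ c ∈ univ.filter (fun c : Fin A → Fin B =>
          ∀ j j' : Fin A, j' ≠ j → (j', c j') ∉ (S (j, c j)).image Prod.fst), E c x := by
              rw [Finset.sum_congr rfl hone, Finset.sum_const, nsmul_eq_mul, mul_one]
          _ ≤ _ := Finset.sum_le_sum_of_subset_of_nonneg (Finset.filter_subset _ _)
              (fun c _ _ => hE0 c x)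
      have h6 : (3 : ℝ) * (B : ℝ) ^ A ≤ 4 * ((univ.filter (fun c : Fin A → Fin B =>
          ∀ j j' : Fin A, j' ≠ j → (j', c j') ∉ (S (j, c j)).image Prod.fst)).card : ℝ) := by
        exact_mod_cast hg
      linarith
    · have hXx : X x = 0 := by
        simp only [hX]
        rw [if_neg hx]
      rw [hXx, mul_zero]
      exact mul_nonneg (by norm_num) (Finset.sum_nonneg fun c _ => hE0 c x)
  have h1 : (3 * (B : ℝ) ^ A) * Ew (fun v => mw t (st v)) X ≤
      4 * ∑ c : Fin A → Fin B, Ew (fun v => mw t (st v)) (E c) := by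
    rw [← Ew_smul, ← Ew_sum, ← Ew_smul]
    exact Ew_mono hW0 key
  have h2 : ∑ c : Fin A → Fin B, Ew (fun v => mw t (st v)) (E c) ≤
      ∑ c : Fin A → Fin B, (7 / 8 : ℝ) ^ A :=
    Finset.sum_le_sum fun c _ => last_select c st t T ht0 ht1 hT hp Gs
  rw [Finset.sum_const, nsmul_eq_mul, Finset.card_univ] at h2
  have h3 : (Fintype.card (Fin A → Fin B) : ℝ) = (B : ℝ) ^ A := by
    simp
  rw [h3] at h2
  have h4 : (B : ℝ) ^ A * (3 * Ew (fun v => mw t (st v)) X) ≤
      (B : ℝ) ^ A * (4 * (7 / 8 : ℝ) ^ A) := by nlinarith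
  have h5 := le_of_mul_le_mul_left h4 hBp
  linarith

end Pool.Agent.H620R2.PHG
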