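import Pool.Agent.H620R2.PHG.Lang
import Pool.Agent.H620R2.Gauge.A1

/-! # P26: positions of the variables (helper169) -/

namespace Pool.Agent.H620R2.PHG

open Finset H568R2 Pool.Agent.H676 Pool.Agent.NPC Pool.Agent.H620R2.Gauge

theorem p26_bitsOf_len : ∀ (n j : ℕ), (bitsOf n j).length = n := by
  intro n
  induction n with
  | zero => intro j; rfl
  | succ n ih => intro j; rw [bitsOf, List.length_cons, ih]

theorem p26_bitsOf_inj : ∀ (n a b : ℕ), a < 2 ^ n → b < 2 ^ n → bitsOf n a = bitsOf n b → a = b := by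
  intro n
  induction n with
  | zero =>
    intro a b ha hb _
    rw [pow_zero] at ha hb
    omega
  | succ n ih =>
    intro a b ha hb h
    rw [bitsOf, bitsOf, List.cons.injEq] at h
    rw [pow_succ] at ha hb
    have h1 := ih (a / 2) (b / 2) (by omega) (by omega) h.2
    have h2 : (a % 2 == 1) = (b % 2 == 1) := h.1
    have h3 : a % 2 = b % 2 := by
      rcases Nat.mod_two_eq_zero_or_one a with ha2 | ha2 <;>
        rcases Nat.mod_two_eq_zero_or_one b with hb2 | hb2 <;> simp [ha2, hb2] at h2 ⊢
    omega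

theorem p26_pair_inj {x w x' w' : List Bool} (h : pairBits x w = pairBits x' w') :
    x = x' ∧ w = w' := by
  have h1 := unpair_pairBits x w
  rw [h, unpair_pairBits] at h1
  rw [Prod.mk.injEq] at h1
  exact ⟨h1.1.symm, h1.2.symm⟩

theorem p26_len_Pp (k n : ℕ) : ∀ j : ℕ, (Pp k n j).length = bb k n + j * (2 * Lg k n + 1) := by
  intro j
  induction j with
  | zero => rw [Pp, List.length_replicate]; ring
  | succ j ih => rw [Pp, length_pairBits, p26_bitsOf_len, ih]; ring

theorem p26_len_idr (n : ℕ) (i : Root n) : (idr n i).length = 3 * n + 2 := by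
  unfold idr
  rw [p26_bitsOf_len]

theorem p26_len_path (k n : ℕ) : ∀ (h : ℕ) (v : V (Root n) (wl k n h)),
    (path k n h v).length = h * (2 * Lg k n + 1) + (3 * n + 2) := by
  intro h
  induction h with
  | zero => intro v; rw [path, p26_len_idr]; ring
  | succ h ih => intro v; rw [path, length_pairBits, p26_bitsOf_len, ih]; ring

/-- P26 -/
theorem length_inpP (k n : ℕ) (i : Root n) : (inpP k n i).length = (ellP k).eval n := by
  unfold inpP ellP
  rw [length_pairBits, p26_len_Pp, p26_len_idr]
  simp only [Polynomial.eval_add, Polynomial.eval_mul, Polynomial.eval_C, Polynomial.eval_X,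
    Polynomial.eval_one, Polynomial.eval_ofNat]
  unfold bb Lg
  ring

/-- P26 -/
theorem length_pos (k n : ℕ) (v : V (Root n) (bb k n :: wl k n k)) :
    (pos k n v).length ≤ (posP k).eval n := by
  have hv : (v.2 : Fin (bb k n)).val < bb k n := (v.2 : Fin (bb k n)).isLt
  unfold pos posP
  rw [List.length_append, List.length_replicate, List.length_cons, p26_len_path]
  simp only [Polynomial.eval_add, Polynomial.eval_mul, Polynomial.eval_C, Polynomial.eval_X]
  have e : (k * (32 * 8 ^ k) + 2 * 8 ^ k + 3) * n + (k + 3) =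
      bb k n + (k * (2 * Lg k n + 1) + (3 * n + 2)) + 1 := by
    unfold bb Lg
    ring
  rw [e]
  omega

theorem p26_idr_inj (n : ℕ) : Function.Injective (idr n) := by
  intro i j h
  unfold idr at h
  have hb : ∀ i : Root n, i.1.val + 2 ^ n * i.2.val < 2 ^ (3 * n + 2) := by
    intro i
    have h1 := i.1.isLt
    have h2 := i.2.isLt
    have h3 : 2 ^ (3 * n + 2) = 2 ^ n * 2 ^ (2 * n + 2) := by
      rw [← pow_add]
      congr 1
      ring
    have h4 : 2 ^ n * (i.2.val + 1) ≤ 2 ^ n * 2 ^ (2 * n + 2) := Nat.mul_le_mul_left _ h2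
    rw [h3]
    rw [Nat.mul_add, Nat.mul_one] at h4
    omega
  have h1 := p26_bitsOf_inj _ _ _ (hb i) (hb j) h
  have hi := i.1.isLt
  have hj := j.1.isLt
  have h2 : i.1.val = j.1.val := by
    have := congrArg (· % 2 ^ n) h1
    simp only [Nat.add_mul_mod_self_left] at this
    rwa [Nat.mod_eq_of_lt hi, Nat.mod_eq_of_lt hj] at this
  have h3 : i.2.val = j.2.val := by
    rw [h2] at h1
    exact Nat.eq_of_mul_eq_mul_left (Nat.two_pow_pos n) (Nat.add_left_cancel h1)
  exact Prod.ext (Fin.ext h2) (Fin.ext h3)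

theorem p26_path_inj (k n : ℕ) (hw : ∀ h, 1 ≤ h → h ≤ k → wf k n h < 2 ^ Lg k n) :
    ∀ h : ℕ, h ≤ k → ∀ v v' : V (Root n) (wl k n h), path k n h v = path k n h v' → v = v' := by
  intro h
  induction h with
  | zero =>
    intro _ v v' hv
    exact p26_idr_inj n hv
  | succ h ih =>
    intro hk v v' hv
    rw [path, path] at hv
    obtain ⟨h1, h2⟩ := p26_pair_inj hv
    have h3 := ih (by omega) v.1 v'.1 h2
    have hlt := hw (h + 1) (by omega) hk
    have b1 : (v.2 : Fin (wf k n (h + 1))).val < 2 ^ Lg k n :=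
      (v.2 : Fin (wf k n (h + 1))).isLt.trans hlt
    have b2 : (v'.2 : Fin (wf k n (h + 1))).val < 2 ^ Lg k n :=
      (v'.2 : Fin (wf k n (h + 1))).isLt.trans hlt
    have h4 := p26_bitsOf_inj _ _ _ b1 b2 h1
    exact Prod.ext h3 (Fin.ext h4)

theorem p26_repl_inj : ∀ (c c' : ℕ) (y y' : List Bool),
    List.replicate c true ++ false :: y = List.replicate c' true ++ false :: y' →
    c = c' ∧ y = y' := by
  intro c
  induction c with
  | zero =>
    intro c' y y' h
    cases c' with
    | zero =>
      simp only [List.replicate_zero, List.nil_append, List.cons.injEq, true_and] at h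
      exact ⟨rfl, h⟩
    | succ c' =>
      rw [List.replicate_succ] at h
      simp at h
  | succ c ih =>
    intro c' y y' h
    cases c' with
    | zero =>
      rw [List.replicate_succ] at h
      simp at h
    | succ c' =>
      rw [List.replicate_succ, List.replicate_succ, List.cons_append, List.cons_append,
        List.cons.injEq] at h
      obtain ⟨h1, h2⟩ := ih c' y y' h.2
      exact ⟨by rw [h1], h2⟩

/-- P26 -/
theorem pos_inj (k n : ℕ) (hw : ∀ h, 1 ≤ h → h ≤ k → wf k n h < 2 ^ Lg k n) :
    Function.Injective (pos k n) := by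
  intro v v' h
  unfold pos at h
  obtain ⟨h1, h2⟩ := p26_repl_inj _ _ _ _ h
  have h3 := p26_path_inj k n hw k le_rfl v.1 v'.1 h2
  exact Prod.ext h3 (Fin.ext h1)

end Pool.Agent.H620R2.PHG
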