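import Pool.Agent.H620R2.PHG.Lang
import Pool.Agent.H620R2.Gauge.A2

/-! # The language of level 0 is in `P` relative to the oracle -/

namespace Pool.Agent.H620R2.PHG

open Finset H568R2 Pool.Agent.H676 Pool.Agent.NPC Pool.Agent.H620R2.Gauge Pool.Agent.H622R2

namespace P30

theorem poly_replicate {α : Type} [TEnc α] {n : α → ℕ} (hn : UPoly n) :
    Poly (fun a => List.replicate (n a) true) := by
  have h := NPC.Poly.map (F := fun (_ : α) (_ : Unit) => true) hn (NPC.Poly.const true)
  exact h.congr fun a => by simp

/-- the questions -/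
def Q (y : List Bool) : List (List Bool) :=
  (List.range (unpair y).1.length).map (fun i =>
    List.replicate (min i (unpair y).1.length) true ++ false :: (unpair y).2)

/-- the verdict -/
def H (y : List Bool × List Bool) : List Bool := [y.2.all (fun b => b)]

theorem poly_Q : Poly Q := by
  have hw : Poly (fun y : List Bool => (unpair y).1) := Poly.fst poly_unpair
  have hx : Poly (fun y : List Bool => (unpair y).2) := Poly.snd poly_unpair
  unfold Q
  refine NPC.Poly.map (F := fun (y : List Bool) (i : ℕ) =>
    List.replicate (min i (unpair y).1.length) true ++ false :: (unpair y).2)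
    (UPoly.range (UPoly.length hw)) ?_
  have hx' : Poly (fun p : List Bool × ℕ => (unpair p.1).2) := hx.comp (Poly.fst Poly.id)
  have hw' : Poly (fun p : List Bool × ℕ => (unpair p.1).1) := hw.comp (Poly.fst Poly.id)
  refine Poly.append (poly_replicate ?_) (Poly.cons (NPC.Poly.const false) hx')
  exact UPoly.of_le (Poly.min (Poly.snd Poly.id) (Poly.length hw')) (UPoly.length hw')
    (fun p => min_le_right _ _)

theorem poly_H : Poly H := by
  unfold H
  refine Poly.cons ?_ (NPC.Poly.const [])
  exact Poly.all (p := fun (_ : List Bool × List Bool) (b : Bool) => b) (Poly.snd Poly.id)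
    (Poly.snd Poly.id)

end P30

/-- P30 -/
theorem norLang_zero (A : Oracle) : IsP A (norLang 0 A) := by
  refine ⟨fun y => P30.H (y, (P30.Q y).map A), IsFP.tt P30.poly_Q P30.poly_H, fun z => ?_⟩
  unfold P30.H P30.Q
  simp only [List.cons.injEq, and_true, List.all_eq_true, List.mem_map, List.mem_range]
  unfold norLang
  rw [Set.mem_setOf_eq]
  constructor
  · rintro h b ⟨_, ⟨i, hi, rfl⟩, rfl⟩
    rw [min_eq_left hi.le]
    exact h i hi
  · intro h c hc
    apply h
    refine ⟨_, ⟨c, hc, rfl⟩, ?_⟩
    rw [min_eq_left hc.le]

end Pool.Agent.H620R2.PHG
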