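import Pool.Agent.H620R2.PHG.Lang
import Pool.Agent.H620R2.Gauge.S

/-!
# Task P32: alternating quantifiers are levels
-/

namespace Pool.Agent.H620R2.PHG

open Finset H568R2 Pool.Agent.H676 Pool.Agent.NPC Pool.Agent.H620R2.Gauge

namespace P32

/-- the `j`-th string of length at most `m` -/
def wj (m : ℕ) (j : ℕ) : List Bool := if (str j).length ≤ m then str j else []

theorem wj_len (m j : ℕ) : (wj m j).length ≤ m := by
  unfold wj
  split_ifs with h
  · exact h
  · simp

theorem wj_surj {m : ℕ} {w : List Bool} (hw : w.length ≤ m) :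
    ∃ j : Fin (2 ^ (m + 1)), wj m j = w := by
  have h1 : idx w < 2 ^ (m + 1) := by
    have h2 := idx_lt w
    have h3 : 2 ^ (w.length + 1) ≤ 2 ^ (m + 1) := Nat.pow_le_pow_right (by norm_num) (by omega)
    omega
  refine ⟨⟨idx w, h1⟩, ?_⟩
  unfold wj
  simp only [str_idx]
  rw [if_pos hw]

theorem aux {ι : Type} [Fintype ι] [DecidableEq ι] {t m ℓ : ℕ}
    {F : List Bool → (ι → Bool) → Bool} (hF : ∀ y : List Bool, y.length ≤ ℓ → DTr t (F y))
    (k : ℕ) : ∀ y : List Bool, y.length + k * (2 * m + 1) ≤ ℓ →
    Lvl (2 ^ (m + 1)) t k (QF m F k true y) ∧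
      Lvl (2 ^ (m + 1)) t k (fun a => !(QF m F k false y a)) := by
  induction k with
  | zero =>
    intro y hy
    have h := hF y (by omega)
    exact ⟨h, DTr.comp (fun b => !b) h⟩
  | succ k ih =>
    intro y hy
    have hlen : ∀ j, (pairBits (wj m j) y).length + k * (2 * m + 1) ≤ ℓ := by
      intro j
      rw [length_pairBits]
      have := wj_len m j
      have e : (k + 1) * (2 * m + 1) = k * (2 * m + 1) + (2 * m + 1) := by ring
      omega
    have e1 : ∀ x, QF m F (k + 1) true y x = true ↔ ∃ w : List Bool, w.length ≤ m ∧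
        QF m F k false (pairBits w y) x = true := by
      intro x
      simp only [QF, decide_eq_true_eq]
    have e2 : ∀ x, QF m F (k + 1) false y x = false ↔ ¬ ∀ w : List Bool, w.length ≤ m →
        QF m F k true (pairBits w y) x = true := by
      intro x
      simp only [QF, decide_eq_false_iff_not]
    constructor
    · refine ⟨fun j a => !(QF m F k false (pairBits (wj m j) y) a),
        fun j => (ih _ (hlen j)).2, fun x => ?_⟩
      rw [e1]
      constructor
      · rintro ⟨w, hw, h⟩
        obtain ⟨j, hj⟩ := wj_surj hw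
        refine ⟨j, ?_⟩
        simp only [hj, h]
        rfl
      · rintro ⟨j, hj⟩
        refine ⟨wj m j, wj_len m j, ?_⟩
        simpa using hj
    · refine ⟨fun j a => QF m F k true (pairBits (wj m j) y) a,
        fun j => (ih _ (hlen j)).1, fun x => ?_⟩
      rw [Bool.not_eq_true', e2]
      constructor
      · intro h
        by_contra hc
        apply h
        intro w hw
        obtain ⟨j, hj⟩ := wj_surj hw
        by_contra h2
        apply hc
        refine ⟨j, ?_⟩
        simp only [hj]
        simpa using h2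
      · rintro ⟨j, hj⟩ h
        have h3 := h _ (wj_len m j)
        simp only at hj
        rw [hj] at h3
        exact absurd h3 (by simp)

end P32

/-- P32 -/
theorem lvl_QF {ι : Type} [Fintype ι] [DecidableEq ι] {t m ℓ : ℕ}
    {F : List Bool → (ι → Bool) → Bool} (hF : ∀ y : List Bool, y.length ≤ ℓ → DTr t (F y))
    {k : ℕ} {y : List Bool} (hy : y.length + k * (2 * m + 1) ≤ ℓ) :
    Lvl (2 ^ (m + 1)) t k (QF m F k true y) :=
  (P32.aux hF k y hy).1

end Pool.Agent.H620R2.PHG
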