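import Pool.Agent.H620R2.PHG.Lang
import Pool.Agent.H620R2.PHG.Basic

/-!
# Restriction to the variables
-/

namespace Pool.Agent.H620R2.PHG

open Finset H568R2 Pool.Agent.H676 Pool.Agent.NPC Pool.Agent.H620R2.Gauge

theorem ovr_apply {N : ℕ} {J : Type} [Fintype J] [DecidableEq J] {e : J → Fin N}
    (he : Function.Injective e) (a : Fin N → Bool) (x : J → Bool) (j : J) :
    ovr e a x (e j) = !(x j) := by
  classical
  unfold ovr
  have h : ∃ j', e j' = e j := ⟨j, rfl⟩
  rw [dif_pos h]
  congr 2
  exact he h.choose_spec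

theorem ovr_apply_not {N : ℕ} {J : Type} [Fintype J] [DecidableEq J] {e : J → Fin N}
    (a : Fin N → Bool) (x : J → Bool) (i : Fin N) (hi : ¬ ∃ j, e j = i) :
    ovr e a x i = a i := by
  unfold ovr
  rw [dif_neg hi]

theorem dtr_ovr {N : ℕ} {J : Type} [Fintype J] [DecidableEq J] {e : J → Fin N} {W : ℕ} :
    ∀ {f : (Fin N → Bool) → Bool}, DTr W f → ∀ a : Fin N → Bool,
      DTr W (fun x => f (ovr e a x)) := by
  classical
  induction W with
  | zero =>
    rintro f ⟨c, h⟩ a
    exact ⟨c, fun x => h _⟩
  | succ k ih =>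
    intro f h a
    rcases h with ⟨c, h⟩ | ⟨i, h⟩
    · exact Or.inl ⟨c, fun x => h _⟩
    · by_cases hi : ∃ j, e j = i
      · refine Or.inr ⟨hi.choose, fun b => ?_⟩
        have h1 := ih (h (!b)) a
        refine (congrArg (DTr k) (funext fun x => ?_)).mp h1
        show f (Function.update (ovr e a x) i (!b)) =
          f (ovr e a (Function.update x hi.choose b))
        congr 1
        funext i'
        by_cases hi' : i' = i
        · subst hi'
          rw [Function.update_self]
          unfold ovr
          rw [dif_pos hi, Function.update_self]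
        · rw [Function.update_of_ne hi']
          unfold ovr
          by_cases hj : ∃ j, e j = i'
          · rw [dif_pos hj, dif_pos hj, Function.update_of_ne]
            intro heq
            apply hi'
            rw [← hj.choose_spec, heq, hi.choose_spec]
          · rw [dif_neg hj, dif_neg hj]
      · have h1 := (ih (h (a i)) a).succ
        refine (congrArg (DTr (k + 1)) (funext fun x => ?_)).mp h1
        show f (Function.update (ovr e a x) i (a i)) = f (ovr e a x)
        congr 1
        have : a i = ovr e a x i := (ovr_apply_not a x i hi).symm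
        rw [this]
        exact Function.update_eq_self i _

/-- P33 -/
theorem lvl_ovr {N : ℕ} {J : Type} [Fintype J] [DecidableEq J] {e : J → Fin N} {M W d : ℕ}
    {f : (Fin N → Bool) → Bool} (hf : Lvl M W d f) (a : Fin N → Bool) :
    Lvl M W d (fun x => f (ovr e a x)) := by
  induction d generalizing f with
  | zero => exact dtr_ovr hf a
  | succ d ih =>
    obtain ⟨F, hF, hfF⟩ := hf
    exact ⟨fun m x => F m (ovr e a x), fun m => ih (hF m), fun x => hfF _⟩

/-- P33 -/
theorem lvl_mono {ι : Type} [Fintype ι] [DecidableEq ι] {M W M' W' d : ℕ}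
    {f : (ι → Bool) → Bool} (hf : Lvl M W d f) (hM : 1 ≤ M) (hMM : M ≤ M') (hWW : W ≤ W') :
    Lvl M' W' d f := by
  induction d generalizing f with
  | zero => exact DTr.mono hf hWW
  | succ d ih =>
    obtain ⟨F, hF, hfF⟩ := hf
    refine ⟨fun m => if h : m.val < M then F ⟨m.val, h⟩ else F ⟨0, hM⟩, fun m => ?_, fun x => ?_⟩
    · simp only
      split_ifs
      · exact ih (hF _)
      · exact ih (hF _)
    · rw [hfF x]
      constructor
      · rintro ⟨m, hm⟩
        refine ⟨⟨m.val, lt_of_lt_of_le m.isLt hMM⟩, ?_⟩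
        simp only
        rw [dif_pos m.isLt]
        exact hm
      · rintro ⟨m, hm⟩
        simp only at hm
        by_cases h : m.val < M
        · rw [dif_pos h] at hm
          exact ⟨_, hm⟩
        · rw [dif_neg h] at hm
          exact ⟨_, hm⟩

/-- the exchange of the bits at the positions `e j` with the bits of `x` -/
noncomputable def ovrSwap {N : ℕ} {J : Type} [Fintype J] [DecidableEq J] (e : J → Fin N)
    (p : (Fin N → Bool) × (J → Bool)) : (Fin N → Bool) × (J → Bool) :=
  (ovr e p.1 p.2, fun j => !(p.1 (e j)))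

theorem ovrSwap_inv {N : ℕ} {J : Type} [Fintype J] [DecidableEq J] {e : J → Fin N}
    (he : Function.Injective e) : Function.Involutive (ovrSwap e) := by
  rintro ⟨a, x⟩
  unfold ovrSwap
  simp only
  refine Prod.ext ?_ ?_
  · funext i
    by_cases hi : ∃ j, e j = i
    · obtain ⟨j, rfl⟩ := hi
      simp only
      rw [ovr_apply he]
      simp
    · simp only
      rw [ovr_apply_not _ _ _ hi, ovr_apply_not _ _ _ hi]
  · funext j
    simp only
    rw [ovr_apply he]
    simp

theorem sum_ovr {N : ℕ} {J : Type} [Fintype J] [DecidableEq J] {e : J → Fin N}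
    (he : Function.Injective e) (F : (Fin N → Bool) → ℝ) :
    ∑ a : Fin N → Bool, ∑ x : J → Bool, F (ovr e a x) =
      2 ^ Fintype.card J * ∑ b : Fin N → Bool, F b := by
  have h1 : ∑ a : Fin N → Bool, ∑ x : J → Bool, F (ovr e a x) =
      ∑ p : (Fin N → Bool) × (J → Bool), F (ovrSwap e p).1 := by
    rw [Fintype.sum_prod_type]
    rfl
  have h2 : ∑ p : (Fin N → Bool) × (J → Bool), F (ovrSwap e p).1 =
      ∑ p : (Fin N → Bool) × (J → Bool), F p.1 :=
    Equiv.sum_comp (ovrSwap_inv he).toPerm (fun p : (Fin N → Bool) × (J → Bool) => F p.1)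
  rw [h1, h2, Fintype.sum_prod_type]
  simp only [Finset.sum_const, Finset.card_univ, nsmul_eq_mul, ← Finset.mul_sum]
  simp

open Classical in
/-- P33 -/
theorem ex_ovr {N : ℕ} {J : Type} [Fintype J] [DecidableEq J] {e : J → Fin N}
    (he : Function.Injective e) (E : (Fin N → Bool) → Prop) (β : ℝ)
    (h : ∀ a, Ew (fun _ : J => mw (1 / 2) true) (fun x => if E (ovr e a x) then 1 else 0) ≤ β) :
    Ex unif (fun a => if E a then (1 : ℝ) else 0) ≤ β := by
  have hm : ∀ b : Bool, mw (1 / 2) true b = 1 / 2 := by
    intro b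
    cases b
    · simp only [mw, bern, if_true]
      norm_num
    · simp [mw, bern]
  have h2 : ∀ a, Ew (fun _ : J => mw (1 / 2) true) (fun x => if E (ovr e a x) then 1 else 0) =
      (1 / 2) ^ Fintype.card J * ∑ x : J → Bool, (if E (ovr e a x) then (1 : ℝ) else 0) := by
    intro a
    unfold Ew
    rw [Finset.mul_sum]
    refine Finset.sum_congr rfl fun x _ => ?_
    simp only [hm, Finset.prod_const, Finset.card_univ]
  have h3 : Ex unif (fun a => if E a then (1 : ℝ) else 0) =
      (1 / 2) ^ N * ∑ b : Fin N → Bool, (if E b then (1 : ℝ) else 0) := by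
    unfold Ex unif
    rw [Finset.mul_sum]
    refine Finset.sum_congr rfl fun x _ => ?_
    simp only [Finset.prod_const, Finset.card_univ, Fintype.card_fin]
  have h4 : ∑ b : Fin N → Bool, (if E b then (1 : ℝ) else 0) =
      ∑ a : Fin N → Bool, ((1 / 2) ^ Fintype.card J *
        ∑ x : J → Bool, (if E (ovr e a x) then (1 : ℝ) else 0)) := by
    rw [← Finset.mul_sum, sum_ovr he (fun b => if E b then (1 : ℝ) else 0), ← mul_assoc,
      ← mul_pow]
    norm_num
  rw [h3, h4]
  have h5 : ∑ a : Fin N → Bool, ((1 / 2) ^ Fintype.card J *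
        ∑ x : J → Bool, (if E (ovr e a x) then (1 : ℝ) else 0)) ≤
      ∑ _a : Fin N → Bool, β := Finset.sum_le_sum fun a _ => by
    rw [← h2 a]
    exact h a
  have h6 : ∑ _a : Fin N → Bool, β = 2 ^ N * β := by
    simp
  calc (1 / 2 : ℝ) ^ N * ∑ a : Fin N → Bool, ((1 / 2) ^ Fintype.card J *
        ∑ x : J → Bool, (if E (ovr e a x) then (1 : ℝ) else 0))
      ≤ (1 / 2 : ℝ) ^ N * (2 ^ N * β) := by
        apply mul_le_mul_of_nonneg_left _ (by positivity)
        rw [← h6]
        exact h5
    _ = β := by
        rw [← mul_assoc, ← mul_pow]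
        norm_num

end Pool.Agent.H620R2.PHG
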