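import Pool.Agent.H620R2.PHG.Lang
import Pool.Agent.H620R2.Gauge2.V6

/-!
# Task P35: the real asymptotics for P36
-/

namespace Pool.Agent.H620R2.PHG

open Finset H568R2 Pool.Agent.H676 Pool.Agent.NPC Pool.Agent.H620R2.Gauge

/-- P35 (the real asymptotics for P36) -/
theorem asymP (P Q : Polynomial ℕ) (k : ℕ) (E : ℕ → Prop) (hE : ∀ᶠ n in Filter.atTop, E n)
    {f : ℕ → ℝ} (hf : Cond f) (δ : ℝ) (hδ : 0 < δ) :
    ∃ n N : ℕ, E n ∧ 2 ^ (Q.eval n) ≤ N ∧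
      (2 ^ P.eval n * (k * (1 / 2) ^ (2 ^ n / 8))) * 2 ^ f N ≤ δ := by
  obtain ⟨n, N, ⟨hEn, hkn, a1, a2, a3, a4⟩, b, c⟩ := V69_choose Q f hf
    (fun n => E n ∧ 2 * k ≤ n ∧ 64 * (P.eval n + 1) ≤ 2 ^ (n / 2) ∧
      1 / δ ≤ 2 ^ ((2 : ℝ) ^ (n / 2) / 8) ∧
      (Real.sqrt n) + 4 ≤ ((n / 2 : ℕ) : ℝ) ∧ 10 ≤ n)
    (by
      filter_upwards [hE, Filter.eventually_ge_atTop (2 * k), V69_ev P δ] with n h1 h2 h3
      exact ⟨h1, h2, h3⟩)
  set u : ℕ := n / 2 with hu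
  have h2u : 2 * u ≤ n := Nat.mul_div_le n 2
  have hpp : 2 ^ u * 2 ^ u ≤ 2 ^ n := by
    rw [← pow_add]
    exact Nat.pow_le_pow_right (by norm_num) (by omega)
  refine ⟨n, N, hEn, ?_, ?_⟩
  · refine le_trans ?_ b
    exact Nat.pow_le_pow_right (by norm_num) (by omega)
  · have hF : 16 * f N ≤ (2 : ℝ) ^ u := by
      have h1 : f N ≤ 2 ^ ((u : ℝ) - 4) :=
        c.trans (Real.rpow_le_rpow_of_exponent_le (by norm_num) (by linarith))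
      rw [Real.rpow_sub (by norm_num), Real.rpow_natCast] at h1
      have h2 : (2 : ℝ) ^ (4 : ℝ) = 16 := by norm_num
      rw [h2] at h1
      linarith
    have hp : 16 * ((P.eval n : ℕ) : ℝ) ≤ (2 : ℝ) ^ u := by
      have : 16 * P.eval n ≤ 2 ^ u := by omega
      exact_mod_cast this
    have hT1 : (8 : ℝ) ≤ (2 : ℝ) ^ u := by
      have : 8 ≤ 2 ^ u := by omega
      exact_mod_cast this
    have hm := V69_real δ hδ (P.eval n : ℕ) (2 ^ u) (f N) hp hF a2 hT1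
    refine le_trans ?_ hm
    rw [Real.rpow_natCast]
    have h2f : (0 : ℝ) < 2 ^ f N := by positivity
    have hk : (k : ℝ) ≤ 2 ^ (2 ^ u) := by
      have h1 : k < 2 ^ (2 ^ u) :=
        calc k ≤ u := by omega
          _ < 2 ^ u := Nat.lt_two_pow_self
          _ < 2 ^ (2 ^ u) := Nat.lt_two_pow_self
      exact_mod_cast h1.le
    have hexp : 2 * 2 ^ u ≤ 2 ^ n / 8 := by
      rw [Nat.le_div_iff_mul_le (by norm_num)]
      have h64 : 64 ≤ 2 ^ u := by omega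
      calc 2 * 2 ^ u * 8 = 16 * 2 ^ u := by ring
        _ ≤ 2 ^ u * 2 ^ u := Nat.mul_le_mul_right _ (by omega)
        _ ≤ 2 ^ n := hpp
    have hmain : (k : ℝ) * (1 / 2) ^ (2 ^ n / 8) ≤ 2 * (2 : ℝ) ^ (-((2 : ℝ) ^ u / 2)) := by
      have h1 : ((1 : ℝ) / 2) ^ (2 ^ n / 8) ≤ (1 / 2) ^ (2 * 2 ^ u) :=
        pow_le_pow_of_le_one (by norm_num) (by norm_num) hexp
      have h3 : (2 : ℝ) ^ (2 ^ u) * (1 / 2) ^ (2 * 2 ^ u) = (1 / 2) ^ (2 ^ u) := by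
        rw [two_mul, pow_add, ← mul_assoc, ← mul_pow]
        norm_num
      have h4 : ((1 : ℝ) / 2) ^ (2 ^ u) = (2 : ℝ) ^ (-((2 : ℝ) ^ u)) := by
        rw [Real.rpow_neg (by norm_num), one_div, inv_pow]
        congr 1
        have h5 : ((2 : ℝ) ^ u) = ((2 ^ u : ℕ) : ℝ) := by push_cast; rfl
        rw [h5, Real.rpow_natCast]
      have h6 : (2 : ℝ) ^ (-((2 : ℝ) ^ u)) ≤ (2 : ℝ) ^ (-((2 : ℝ) ^ u / 2)) := by
        apply Real.rpow_le_rpow_of_exponent_le (by norm_num)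
        have : (0 : ℝ) < 2 ^ u := by positivity
        linarith
      have h7 : (0 : ℝ) < (2 : ℝ) ^ (-((2 : ℝ) ^ u / 2)) := by positivity
      calc (k : ℝ) * (1 / 2) ^ (2 ^ n / 8) ≤ 2 ^ (2 ^ u) * (1 / 2) ^ (2 * 2 ^ u) := by
            apply mul_le_mul hk h1 (by positivity) (by positivity)
        _ = (2 : ℝ) ^ (-((2 : ℝ) ^ u)) := by rw [h3, h4]
        _ ≤ (2 : ℝ) ^ (-((2 : ℝ) ^ u / 2)) := h6
        _ ≤ 2 * (2 : ℝ) ^ (-((2 : ℝ) ^ u / 2)) := by linarith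
    apply mul_le_mul_of_nonneg_right _ h2f.le
    exact mul_le_mul_of_nonneg_left hmain (by positivity)

end Pool.Agent.H620R2.PHG
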