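import Pool.Agent.H620R2.PHG.Basic
import Pool.Agent.H620R2.PHG.Lang
import Pool.Agent.H620R2.GaugeX.KeyX

/-!
# Exact statements of the tasks P01 .. P36 (never import this file in a finished file)
-/

namespace Pool.Agent.H620R2.PHG

open Finset H568R2 Pool.Agent.H676 Pool.Agent.NPC Pool.Agent.H620R2.Gauge

section P01
/-- P01 (the random projection) -/
theorem stage_id {G : Type} [Fintype G] [DecidableEq G] {w : ℕ} (st : G × Fin w → Bool)
    (t t' : ℝ) (q : G → ℝ) (hq : ∀ g, q g * t' = p0 t (fun c => st (g, c)))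
    (hp : ∀ g, p0 t (fun c => st (g, c)) < 1) (H : (G × Fin w → Bool) → ℝ) :
    Ew (fun v => mw t (st v)) H =
      Ew (fun g => cw t (fun c => st (g, c)) (q g))
        (fun ρ => Ew (fun g => mw t' (ρ g).1) (fun Y => H (xr ρ Y))) := by
  sorry
end P01

section P02
/-- P02 -/
theorem ld_cw {w : ℕ} (W : ℕ) (t q κ : ℝ) (s : Fin w → Bool) (ht0 : 0 < t)
    (ht : W * t ≤ 1 / 2) (ht1 : t ≤ 1 / 2) (hq0 : 0 < q) (hq : q ≤ κ) (hκ : κ ≤ 1 / 4)
    (hp : p0 t s ≤ 1 / 2) : LD W (4 * (κ + W * t)) (cw t s q) (cw' t s q) := by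
  sorry
end P02

section P03
/-- P03 -/
theorem ld_point {w : ℕ} (W : ℕ) {r : ℝ} (hr : 0 ≤ r) (z₀ : Fin w → Bool) :
    LD W r (fun x : Conf w => if x = (false, z₀) then 1 else 0)
      (fun x : Conf w => if x = (false, z₀) then 1 else 0) := by
  sorry

/-- P03 -/
theorem cw'_sum {w : ℕ} {t : ℝ} {s : Fin w → Bool} (hp : p0 t s < 1) (q : ℝ) :
    ∑ x : Conf w, cw' t s q x = 1 + q * p0 t s / (1 - p0 t s) := by
  sorry

/-- P03 -/
theorem fal_ali_sat {G : Type} {w : ℕ} (T : Finset (G × Fin w) × (G × Fin w → Bool)) (g : G)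
    (x : Conf w) : (Fal T g x ∨ Ali T g x ∨ Sat T g x) ∧ ¬ (Fal T g x ∧ Sat T g x) ∧
      ¬ (Fal T g x ∧ Ali T g x) ∧ ¬ (Ali T g x ∧ Sat T g x) := by
  sorry
end P03

section P04
/-- P04 (cut the coordinates in `B` from the others; the value of the coordinates in `B` is
arbitrary in the inner expectation) -/
theorem Ew_cut {ι A : Type*} [Fintype ι] [DecidableEq ι] [Fintype A] [DecidableEq A]
    (W : ι → A → ℝ) (B : Finset ι) (a₀ : A) (b : (ι → A) → ι → A) (F : (ι → A) → ℝ) :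
    Ew W F = Ew (fun i => if i ∈ B then W i else (fun y => if y = a₀ then 1 else 0))
      (fun ζ => Ew (fun i => if i ∈ B then (fun y => if y = b ζ i then 1 else 0) else W i)
        (fun ω : ι → A => F (fun i => if i ∈ B then ζ i else ω i))) := by
  sorry

/-- P04 (resample the coordinates in `B`) -/
theorem Ew_resample {ι A : Type*} [Fintype ι] [DecidableEq ι] [Fintype A]
    {W : ι → A → ℝ} (hW : ∀ i, ∑ a, W i a = 1) (B : Finset ι) (F : (ι → A) → ℝ) :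
    Ew W F = Ew W (fun ω => Ew W (fun ω' => F (fun i => if i ∈ B then ω' i else ω i))) := by
  sorry

/-- P04 -/
theorem Ew_mul_le {ι A : Type*} [Fintype ι] [DecidableEq ι] [Fintype A]
    {W : ι → A → ℝ} (hW0 : ∀ i a, 0 ≤ W i a) (hW : ∀ i, ∑ a, W i a = 1) (B : Finset ι)
    (F G : (ι → A) → ℝ) (hF : ∀ ω, 0 ≤ F ω)
    (hFB : ∀ ω ω' : ι → A, (∀ i, i ∉ B → ω i = ω' i) → F ω = F ω') (c : ℝ)
    (hG : ∀ ω : ι → A, Ew W (fun ω' => G (fun i => if i ∈ B then ω' i else ω i)) ≤ c) :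
    Ew W (fun ω => F ω * G ω) ≤ c * Ew W F := by
  sorry
end P04

section P05
open Classical in
/-- P05 (replace the alive gates, one after the other) -/
theorem ld_prod {G : Type} [Fintype G] [DecidableEq G] {w : ℕ} (W : ℕ) (r : ℝ) (hr : 0 ≤ r)
    (T : Finset (G × Fin w) × (G × Fin w → Bool)) (hT : T.1.card ≤ W) (a a' : G → Conf w → ℝ)
    (ha : ∀ g, LD W r (a g) (a' g)) (h : (G → Conf w) → ℝ) (h0 : ∀ ρ, 0 ≤ h ρ) (hd : Down h)
    (B : Finset G) :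
    Ew (fun g => if g ∈ B then a g else a' g)
        (fun ρ => if (∀ g ∈ B, Ali T g (ρ g)) ∧ (∀ g, g ∉ B → Sat T g (ρ g)) then h ρ else 0) ≤
      r ^ B.card * Ew a' (fun ρ => if ∀ g, Sat T g (ρ g) then h ρ else 0) := by
  sorry
end P05

section P06
/-- P06 (query the alive gates) -/
theorem query_step {G : Type} [Fintype G] [DecidableEq G] {w : ℕ}
    (T : Finset (G × Fin w) × (G × Fin w → Bool))
    (L : List (Finset (G × Fin w) × (G × Fin w → Bool))) (B : Finset G) (ρ : G → Conf w)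
    (hB : ∀ g ∈ B, Ali T g (ρ g)) (hS : ∀ g, g ∉ B → Sat T g (ρ g)) (s : ℕ)
    (hs : DGe s (fun Y => dnf (T :: L) (xr ρ Y))) :
    ∃ A ∈ B.powerset, DGe (s - B.card) (fun Y => dnf L (xr (qr B A ρ) Y)) := by
  sorry

/-- P06 -/
theorem dnf_of_sat {G : Type} [Fintype G] [DecidableEq G] {w : ℕ}
    (T : Finset (G × Fin w) × (G × Fin w → Bool))
    (L : List (Finset (G × Fin w) × (G × Fin w → Bool))) (ρ : G → Conf w)
    (hS : ∀ g, Sat T g (ρ g)) {s : ℕ} (hs : 1 ≤ s) :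
    ¬ DGe s (fun Y => dnf (T :: L) (xr ρ Y)) := by
  sorry

/-- P06 -/
theorem dnf_of_fal {G : Type} [Fintype G] [DecidableEq G] {w : ℕ}
    (T : Finset (G × Fin w) × (G × Fin w → Bool))
    (L : List (Finset (G × Fin w) × (G × Fin w → Bool))) (ρ : G → Conf w)
    (hF : ∃ g, Fal T g (ρ g)) (Y : G → Bool) :
    dnf (T :: L) (xr ρ Y) = dnf L (xr ρ Y) := by
  sorry
end P06

section P07
open Classical in
/-- P07 (the contribution of one set of alive gates) -/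
theorem alive_bound {G : Type} [Fintype G] [DecidableEq G] {w : ℕ} (W : ℕ) (r γ : ℝ)
    (hr : 0 ≤ r) (hγ : 0 ≤ γ) (T : Finset (G × Fin w) × (G × Fin w → Bool)) (hT : T.1.card ≤ W)
    (L : List (Finset (G × Fin w) × (G × Fin w → Bool)))
    (ih : ∀ (a a' : G → Conf w → ℝ), (∀ g, LD W r (a g) (a' g)) →
      ∀ (h : (G → Conf w) → ℝ), (∀ ρ, 0 ≤ h ρ) → Down h → ∀ s : ℕ,
        Ew a (fun ρ => if DGe s (fun Y => dnf L (xr ρ Y)) then h ρ else 0) ≤ γ ^ s * Ew a' h)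
    (a a' : G → Conf w → ℝ) (ha : ∀ g, LD W r (a g) (a' g))
    (h : (G → Conf w) → ℝ) (h0 : ∀ ρ, 0 ≤ h ρ) (hd : Down h) (s : ℕ) (B : Finset G) :
    Ew a (fun ρ => if (∀ g ∈ B, Ali T g (ρ g)) ∧ (∀ g, g ∉ B → Sat T g (ρ g)) ∧
        DGe s (fun Y => dnf (T :: L) (xr ρ Y)) then h ρ else 0) ≤
      (2 * r) ^ B.card * γ ^ (s - B.card) *
        Ew a' (fun ρ => if ∀ g, Sat T g (ρ g) then h ρ else 0) := by
  sorry
end P07

section P08
open Classical in
/-- P08 (the switching lemma, main induction) -/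
theorem switch_aux {G : Type} [Fintype G] [DecidableEq G] {w : ℕ} (W : ℕ) (hW : 1 ≤ W) (r : ℝ)
    (hr : 0 ≤ r) (hr1 : 4 * r * W ≤ 1) (L : List (Finset (G × Fin w) × (G × Fin w → Bool)))
    (hL : ∀ T ∈ L, T.1.card ≤ W) (a a' : G → Conf w → ℝ) (ha : ∀ g, LD W r (a g) (a' g))
    (h : (G → Conf w) → ℝ) (h0 : ∀ ρ, 0 ≤ h ρ) (hd : Down h) (s : ℕ) :
    Ew a (fun ρ => if DGe s (fun Y => dnf L (xr ρ Y)) then h ρ else 0) ≤
      (4 * r * W) ^ s * Ew a' h := by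
  sorry
end P08

section P09
open Classical in
/-- P09 (the switching lemma) -/
theorem switch {G : Type} [Fintype G] [DecidableEq G] {w : ℕ} (st : G → Fin w → Bool)
    (t κ : ℝ) (q : G → ℝ) (W : ℕ) (hW : 1 ≤ W) (ht0 : 0 < t) (ht : W * t ≤ 1 / 2)
    (ht1 : t ≤ 1 / 2) (hq0 : ∀ g, 0 < q g) (hq : ∀ g, q g ≤ κ) (hκ : κ ≤ 1 / 4)
    (hp : ∀ g, p0 t (st g) ≤ 1 / 2) (hv : ∑ g, q g * p0 t (st g) ≤ 1 / 4)
    (hγ : 16 * W * (κ + W * t) ≤ 1) (f : (G × Fin w → Bool) → Bool) (hf : Cert W true f)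
    (s : ℕ) :
    Ew (fun g => cw t (st g) (q g)) (fun ρ => if DTr s (fun Y => f (xr ρ Y)) then 0 else 1) ≤
      2 * (16 * W * (κ + W * t)) ^ (s + 1) := by
  sorry
end P09

section P10
open Classical in
/-- P10 -/
theorem lvl_switch {G : Type} [Fintype G] [DecidableEq G] {w : ℕ} (st : G → Fin w → Bool)
    (t κ : ℝ) (q : G → ℝ) (M W : ℕ) (hW : 1 ≤ W) (ht0 : 0 < t) (ht : W * t ≤ 1 / 2)
    (ht1 : t ≤ 1 / 2) (hq0 : ∀ g, 0 < q g) (hq : ∀ g, q g ≤ κ) (hκ : κ ≤ 1 / 4)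
    (hp : ∀ g, p0 t (st g) ≤ 1 / 2) (hv : ∑ g, q g * p0 t (st g) ≤ 1 / 4)
    (hγ : 16 * W * (κ + W * t) ≤ 1) (s d : ℕ) (f : (G × Fin w → Bool) → Bool)
    (hf : Lvl M W (d + 1) f) :
    Ew (fun g => cw t (st g) (q g))
        (fun ρ => if Lvl M s d (fun Y => f (xr ρ Y)) then 0 else 1) ≤
      M ^ d * (2 * (16 * W * (κ + W * t)) ^ (s + 1)) := by
  sorry
end P10

section P11
/-- P11 -/
theorem lvl_xr {G : Type} [Fintype G] [DecidableEq G] {w : ℕ} {M W d : ℕ}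
    {f : (G × Fin w → Bool) → Bool} (hf : Lvl M W d f) (ρ : G → Conf w) :
    Lvl M W d (fun Y => f (xr ρ Y)) := by
  sorry
end P11

section P12
open Classical in
/-- P12 (one stage) -/
theorem stage {G I : Type} [Fintype G] [DecidableEq G] [Fintype I] [DecidableEq I] {w : ℕ}
    (st : G × Fin w → Bool) (t t' κ : ℝ) (q : G → ℝ) (M W s d : ℕ) (hW : 1 ≤ W) (ht0 : 0 < t)
    (ht : W * t ≤ 1 / 2) (ht1 : t ≤ 1 / 2) (ht'0 : 0 ≤ t') (ht'1 : t' ≤ 1)
    (hq0 : ∀ g, 0 < q g) (hq : ∀ g, q g ≤ κ)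
    (hκ : κ ≤ 1 / 4) (hp : ∀ g, p0 t (fun c => st (g, c)) ≤ 1 / 2)
    (hv : ∑ g, q g * p0 t (fun c => st (g, c)) ≤ 1 / 4)
    (hγ : 16 * W * (κ + W * t) ≤ 1) (hqt : ∀ g, q g * t' = p0 t (fun c => st (g, c)))
    (F' : (G → Bool) → I → Bool) (Gs : I → ((G × Fin w → Bool) → Bool))
    (hGs : ∀ i, Lvl M W (d + 1) (Gs i)) (Good : (G → Bool) → Prop) (β τ : ℝ) (hβ : 0 ≤ β)
    (hgood : ∀ st' : G → Bool, Good st' → ∀ Gs' : I → ((G → Bool) → Bool),
      (∀ i, Lvl M s d (Gs' i)) →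
      Ew (fun g => mw t' (st' g)) (fun Y => if ∀ i, Gs' i Y = F' Y i then 1 else 0) ≤ β)
    (htyp : Ew (fun g => cw t (fun c => st (g, c)) (q g))
      (fun ρ => if Good (fun g => (ρ g).1) then 0 else 1) ≤ τ) :
    Ew (fun v => mw t (st v)) (fun x => if ∀ i,
        Gs i x = F' (fun g => decide (∀ c : Fin w, x (g, c) = false)) i then 1 else 0) ≤
      β + τ + Fintype.card I * (M ^ d * (2 * (16 * W * (κ + W * t)) ^ (s + 1))) := by
  sorry
end P12

section P13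
open Classical in
/-- P13 (Chernoff) -/
theorem chernoff {w : ℕ} (q : Fin w → ℝ) (h0 : ∀ c, 0 ≤ q c) (h1 : ∀ c, q c ≤ 1) (η : ℝ)
    (hη : 0 < η) (hη1 : η ≤ 1) :
    Ew (fun c => bern (q c)) (fun s : Fin w → Bool =>
        if |(alv s : ℝ) - ∑ c, q c| ≤ η * ∑ c, q c then 0 else 1) ≤
      2 * Real.exp (- (η ^ 2 * (∑ c, q c) / 4)) := by
  sorry
end P13

section P14
/-- P14 (the distribution of the stars) -/
theorem marginal {G : Type} [Fintype G] [DecidableEq G] {w : ℕ} (s : G → Fin w → Bool) (t : ℝ)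
    (q : G → ℝ) (hp : ∀ g, p0 t (s g) < 1) (H : (G → Bool) → ℝ) :
    Ew (fun g => cw t (s g) (q g)) (fun ρ => H (fun g => (ρ g).1)) =
      Ew (fun g => bern (q g)) H := by
  sorry

open Classical in
/-- P14 (the stars of all the gates on the next level) -/
theorem all_chernoff {G : Type} [Fintype G] [DecidableEq G] {w : ℕ} (q : G × Fin w → ℝ)
    (h0 : ∀ v, 0 ≤ q v) (h1 : ∀ v, q v ≤ 1) (η m : ℝ) (hη : 0 < η) (hη1 : η ≤ 1)
    (hm : ∀ g, m ≤ ∑ c, q (g, c)) :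
    Ew (fun v => bern (q v)) (fun s : G × Fin w → Bool =>
        if ∀ g, |(alv (fun c => s (g, c)) : ℝ) - ∑ c, q (g, c)| ≤ η * ∑ c, q (g, c)
        then 0 else 1) ≤
      Fintype.card G * (2 * Real.exp (- (η ^ 2 * m / 4))) := by
  sorry
end P14

section P15
/-- P15 (real estimates for `lam`) -/
theorem lam_bounds {t : ℝ} (h0 : 0 < t) (h1 : t ≤ 1 / 4) : t ≤ lam t ∧ lam t ≤ 2 * t := by
  sorry

/-- P15 -/
theorem p0_eq {w : ℕ} {t : ℝ} (h0 : 0 < t) (h1 : t < 1) (s : Fin w → Bool) :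
    p0 t s = 2 ^ (-((alv s : ℝ) * lam t)) := by
  sorry

/-- P15 (the fan-in of the bottom gates of the first stage) -/
theorem regular_init (k : ℕ) (hk : 1 ≤ k) : ∀ᶠ n : ℕ in Filter.atTop,
    Regular k n k (G := V (Root n) (wl k n (k - 1))) (w := wf k n k) (fun _ => true) := by
  sorry
end P15

section P16
/-- P16 (the probability that a gate is a star) -/
theorem q_bounds (k : ℕ) : ∀ᶠ n : ℕ in Filter.atTop, ∀ j, j + 2 ≤ k → ∀ a : ℝ,
    |a - Nx n (j + 2)| ≤ tol k n (j + 2) →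
      0 < (2 : ℝ) ^ (-a) / tx n (j + 1) ∧ (2 : ℝ) ^ (-a) / tx n (j + 1) ≤ 2 * tx n (j + 1) ∧
      (2 : ℝ) ^ (-a) ≤ 1 / 2 ∧ (2 : ℝ) ^ (-a) ≤ 2 * (1 / 2) ^ Nx n (j + 2) := by
  sorry
end P16

section P17
/-- P17 (the number of stars of the next gates is about right) -/
theorem next_regular (k : ℕ) : ∀ᶠ n : ℕ in Filter.atTop, ∀ j, j + 2 ≤ k →
    ∀ (q : Fin (wf k n (j + 1)) → ℝ),
      (∀ c, ∃ a : ℝ, |a - Nx n (j + 2)| ≤ tol k n (j + 2) ∧ q c = 2 ^ (-a) / tx n (j + 1)) →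
      4 * 2 ^ (12 * n) ≤ ∑ c, q c ∧
      ∀ s : ℝ, |s - ∑ c, q c| ≤ (1 / 2) ^ n * ∑ c, q c →
        |s * lam (tx n (j + 1)) - Nx n (j + 1)| ≤ tol k n (j + 1) := by
  sorry
end P17

section P18
open Classical in
/-- P18 (the next mask is regular) -/
theorem typical (k : ℕ) : ∀ᶠ n : ℕ in Filter.atTop, ∀ j, j + 2 ≤ k →
    ∀ st : V (Root n) (wl k n (j + 1)) × Fin (wf k n (j + 2)) → Bool,
      Regular k n (j + 2) st →
      Ew (fun g => cw (tx n (j + 2)) (fun c => st (g, c))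
          (p0 (tx n (j + 2)) (fun c => st (g, c)) / tx n (j + 1)))
        (fun ρ => if Regular k n (j + 1) (G := V (Root n) (wl k n j)) (w := wf k n (j + 1))
          (fun g => (ρ g).1) then 0 else 1) ≤
      Fintype.card (V (Root n) (wl k n j)) * (2 * Real.exp (- 2 ^ (10 * n))) := by
  sorry
end P18

section P19
/-- P19 (the fan-ins) -/
theorem wf_le {k n h : ℕ} (h1 : 1 ≤ h) (hk : h < k) (hn : 1 ≤ n) :
    wf k n h ≤ Nx n h * 2 ^ Nx n (h + 1) := by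
  sorry

/-- P19 (the number of gates) -/
theorem card_V (k : ℕ) : ∀ᶠ n : ℕ in Filter.atTop, ∀ j, j + 2 ≤ k →
    (Fintype.card (V (Root n) (wl k n (j + 1))) : ℝ) *
      ((2 * tx n (j + 1)) * (2 * (1 / 2) ^ Nx n (j + 2))) ≤ 1 / 4 := by
  sorry

/-- P19 (sizes) -/
theorem wf_lt (k : ℕ) : ∀ᶠ n : ℕ in Filter.atTop, ∀ h, 1 ≤ h → h ≤ k →
    wf k n h < 2 ^ Lg k n := by
  sorry
end P19

section P20
/-- P20 (the errors of one stage) -/
theorem stage_error (k : ℕ) : ∀ᶠ n : ℕ in Filter.atTop, ∀ j, j + 2 ≤ k →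
    (2 : ℝ) ^ n * tx n (j + 2) ≤ 1 / 2 ∧ tx n (j + 2) ≤ 1 / 2 ∧ 2 * tx n (j + 1) ≤ 1 / 4 ∧
    16 * (2 : ℝ) ^ n * (2 * tx n (j + 1) + 2 ^ n * tx n (j + 2)) ≤ 1 ∧
    ∀ M : ℕ, M ≤ 2 ^ 2 ^ n →
      Fintype.card (V (Root n) (wl k n j)) * (2 * Real.exp (- 2 ^ (10 * n))) +
      Fintype.card (Root n) * ((M : ℝ) ^ (j + 1) *
        (2 * (16 * (2 : ℝ) ^ n * (2 * tx n (j + 1) + 2 ^ n * tx n (j + 2))) ^ (2 ^ n + 1))) ≤
      (1 / 2) ^ (2 ^ n / 8) := by
  sorry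
end P20

section P21
open Classical in
/-- P21 (the last level, one block) -/
theorem last_block {G : Type} [Fintype G] [DecidableEq G] {w : ℕ} (st : G × Fin w → Bool)
    (t : ℝ) (T : ℕ) (ht0 : 0 ≤ t) (ht1 : t ≤ 1) (hT : T * t ≤ 1 / 8) (g₀ : G)
    (hp : 1 / 4 ≤ p0 t (fun c => st (g₀, c)) ∧ p0 t (fun c => st (g₀, c)) ≤ 3 / 4)
    (Z : Set (Finset (G × Fin w))) (f : (G × Fin w → Bool) → Bool) (ω : G × Fin w → Bool) :
    Ew (fun v => mw t (st v)) (fun ω' =>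
      if (∀ e : Fin w, ω' (g₀, e) = false) ↔
          ∃ S : Finset (G × Fin w), S.card ≤ T ∧ S ∈ Z ∧
            ∀ y : G × Fin w → Bool,
              (∀ v ∈ S, y v = if v.1 = g₀ then ω' v else ω v) → f y = true
      then 1 else 0) ≤ 7 / 8 := by
  sorry
end P21

section P22
open Classical in
/-- P22 (the last level, fixed selection of blocks) -/
theorem last_select {A B w : ℕ} (c : Fin A → Fin B) (st : (Fin A × Fin B) × Fin w → Bool)
    (t : ℝ) (T : ℕ) (ht0 : 0 ≤ t) (ht1 : t ≤ 1) (hT : T * t ≤ 1 / 8)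
    (hp : ∀ i, 1 / 4 ≤ p0 t (fun c => st (i, c)) ∧ p0 t (fun c => st (i, c)) ≤ 3 / 4)
    (Gs : Fin A × Fin B → (((Fin A × Fin B) × Fin w → Bool) → Bool)) :
    Ew (fun v => mw t (st v)) (fun x => if ∀ j : Fin A,
        ((∀ e : Fin w, x ((j, c j), e) = false) ↔
          ∃ S : Finset ((Fin A × Fin B) × Fin w), S.card ≤ T ∧
            (∀ v ∈ S, ∀ j' : Fin A, j' ≠ j → v.1 ≠ (j', c j')) ∧
            ∀ y, (∀ v ∈ S, y v = x v) → Gs (j, c j) y = true) then 1 else 0) ≤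
      (7 / 8) ^ A := by
  sorry
end P22

section P23
open Classical in
/-- P23 (the selections for which no certificate touches another selected block) -/
theorem few_bad {A B T : ℕ} (hB : 4 * (A * T) ≤ B) (hB1 : 1 ≤ B)
    (touch : Fin A × Fin B → Finset (Fin A × Fin B)) (ht : ∀ i, (touch i).card ≤ T) :
    3 * B ^ A ≤ 4 * (univ.filter (fun c : Fin A → Fin B =>
      ∀ j j' : Fin A, j' ≠ j → (j', c j') ∉ touch (j, c j))).card := by
  sorry

open Classical in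
/-- P23 (the last level) -/
theorem last_level {A B w : ℕ} (st : (Fin A × Fin B) × Fin w → Bool)
    (t : ℝ) (T : ℕ) (ht0 : 0 ≤ t) (ht1 : t ≤ 1) (hT : T * t ≤ 1 / 8) (hB : 4 * (A * T) ≤ B)
    (hB1 : 1 ≤ B)
    (hp : ∀ i, 1 / 4 ≤ p0 t (fun c => st (i, c)) ∧ p0 t (fun c => st (i, c)) ≤ 3 / 4)
    (Gs : Fin A × Fin B → (((Fin A × Fin B) × Fin w → Bool) → Bool))
    (hGs : ∀ i, Cert T true (Gs i)) :
    Ew (fun v => mw t (st v)) (fun x => if ∀ i,
        Gs i x = decide (∀ e : Fin w, x (i, e) = false) then 1 else 0) ≤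
      (4 / 3) * (7 / 8) ^ A := by
  sorry
end P23

section P24
open Classical in
/-- P24 (all levels) -/
theorem main_ind (k : ℕ) : ∀ᶠ n : ℕ in Filter.atTop, ∀ j, j + 1 ≤ k →
    ∀ st : V (Root n) (wl k n j) × Fin (wf k n (j + 1)) → Bool, Regular k n (j + 1) st →
    ∀ M : ℕ, M ≤ 2 ^ 2 ^ n →
    ∀ Gs : Root n → ((V (Root n) (wl k n j) × Fin (wf k n (j + 1)) → Bool) → Bool),
      (∀ i, Lvl M (2 ^ n) (j + 1) (Gs i)) →
      PR (I := Root n) (wf k n (j + 1) :: wl k n j) st (tx n (j + 1)) Gs ≤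
        (j + 1) * (1 / 2) ^ (2 ^ n / 8) := by
  sorry
end P24

section P25
open Classical in
/-- P25 (the first level: uniform bits) -/
theorem init_level (k : ℕ) (hk : 1 ≤ k) : ∀ᶠ n : ℕ in Filter.atTop,
    ∀ M : ℕ, M ≤ 2 ^ 2 ^ n →
    ∀ Gs : Root n → ((V (Root n) (bb k n :: wl k n k) → Bool) → Bool),
      (∀ i, Lvl M (2 ^ n) k (Gs i)) →
      PR (bb k n :: wl k n k) (fun _ => true) (1 / 2) Gs ≤ k * (1 / 2) ^ (2 ^ n / 8) := by
  sorry
end P25

section P26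
/-- P26 -/
theorem length_inpP (k n : ℕ) (i : Root n) : (inpP k n i).length = (ellP k).eval n := by
  sorry

/-- P26 -/
theorem length_pos (k n : ℕ) (v : V (Root n) (bb k n :: wl k n k)) :
    (pos k n v).length ≤ (posP k).eval n := by
  sorry

/-- P26 -/
theorem pos_inj (k n : ℕ) (hw : ∀ h, 1 ≤ h → h ≤ k → wf k n h < 2 ^ Lg k n) :
    Function.Injective (pos k n) := by
  sorry
end P26

section P27
/-- P27 -/
theorem nt_norLang (k n : ℕ) (hw : ∀ h, 1 ≤ h → h ≤ k → wf k n h < 2 ^ Lg k n) (A : Oracle)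
    (i : Root n) :
    nt (bb k n :: wl k n k) (fun v => !(A (pos k n v))) i = true ↔
      inpP k n i ∈ norLang k A := by
  sorry
end P27

section P28
/-- P28 (change the bound for the quantifiers and the input) -/
theorem quant_precomp {A : Oracle} {V : List Bool → List Bool} (hV : IsFP A V)
    (P : Polynomial ℕ) {F : List Bool → List Bool} (hF : Poly F) (k : ℕ) :
    ∃ V' : List Bool → List Bool, IsFP A V' ∧ ∀ (b : Bool) (z : List Bool) (m : ℕ),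
      P.eval (F z).length ≤ m → (Quant m V' k b z ↔ Quant (P.eval (F z).length) V k b (F z)) := by
  sorry

/-- P28 -/
theorem IsSigma.precomp {A : Oracle} {k : ℕ} {L : Set (List Bool)} (h : IsSigma A k L)
    {F : List Bool → List Bool} (hF : Poly F) : IsSigma A k {z | F z ∈ L} := by
  sorry

/-- P28 -/
theorem IsSigma.withAdvice {A : Oracle} {k : ℕ} {L : Set (List Bool)} (h : IsSigma A k L) :
    WithAdvice (IsSigma A k) L := by
  sorry
end P28

section P29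
/-- P29 (negation) -/
theorem quant_not {A : Oracle} {V : List Bool → List Bool} (hV : IsFP A V) :
    ∃ V' : List Bool → List Bool, IsFP A V' ∧ ∀ (m k : ℕ) (b : Bool) (z : List Bool),
      Quant m V' k (!b) z ↔ ¬ Quant m V k b z := by
  sorry

/-- P29 (an existential quantifier in front; uses P28) -/
theorem sigma_exists {A : Oracle} {k : ℕ} {L : Set (List Bool)} (h : IsSigma A k L)
    (p : Polynomial ℕ) {C : List Bool → Bool} (hC : Poly C) {F : List Bool → List Bool}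
    (hF : Poly F) :
    IsSigma A (k + 1) {z | ∃ u : List Bool, u.length ≤ p.eval z.length ∧
      C (pairBits u z) = true ∧ F (pairBits u z) ∉ L} := by
  sorry
end P29

section P30
/-- P30 -/
theorem norLang_zero (A : Oracle) : IsP A (norLang 0 A) := by
  sorry
end P30

section P31
/-- P31 (uses P29, P30) -/
theorem norLang_sigma (A : Oracle) (k : ℕ) : IsSigma A k (norLang k A)ᶜ := by
  sorry

/-- P31 -/
theorem IsSigma.compl {A : Oracle} {k : ℕ} {L : Set (List Bool)} (h : IsSigma A k L) :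
    IsSigma A (k + 1) Lᶜ := by
  sorry
end P31

section P32
/-- P32 -/
theorem lvl_QF {ι : Type} [Fintype ι] [DecidableEq ι] {t m ℓ : ℕ}
    {F : List Bool → (ι → Bool) → Bool} (hF : ∀ y : List Bool, y.length ≤ ℓ → DTr t (F y))
    {k : ℕ} {y : List Bool} (hy : y.length + k * (2 * m + 1) ≤ ℓ) :
    Lvl (2 ^ (m + 1)) t k (QF m F k true y) := by
  sorry
end P32

section P33
/-- P33 -/
theorem lvl_ovr {N : ℕ} {J : Type} [Fintype J] [DecidableEq J] {e : J → Fin N} {M W d : ℕ}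
    {f : (Fin N → Bool) → Bool} (hf : Lvl M W d f) (a : Fin N → Bool) :
    Lvl M W d (fun x => f (ovr e a x)) := by
  sorry

/-- P33 -/
theorem lvl_mono {ι : Type} [Fintype ι] [DecidableEq ι] {M W M' W' d : ℕ}
    {f : (ι → Bool) → Bool} (hf : Lvl M W d f) (hM : 1 ≤ M) (hMM : M ≤ M') (hWW : W ≤ W') :
    Lvl M' W' d f := by
  sorry

open Classical in
/-- P33 -/
theorem ex_ovr {N : ℕ} {J : Type} [Fintype J] [DecidableEq J] {e : J → Fin N}
    (he : Function.Injective e) (E : (Fin N → Bool) → Prop) (β : ℝ)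
    (h : ∀ a, Ew (fun _ : J => mw (1 / 2) true) (fun x => if E (ovr e a x) then 1 else 0) ≤ β) :
    Ex unif (fun a => if E a then (1 : ℝ) else 0) ≤ β := by
  sorry
end P33

section P34
open Classical in
/-- P34 (the probability of the event) -/
theorem evP_bound (θ : Par) (hk : 1 ≤ θ.k) : ∃ P1 : Polynomial ℕ, ∀ᶠ n : ℕ in Filter.atTop,
    ∀ N : ℕ, 2 ^ ((posP θ.k).eval n + 1) ≤ N →
      Ex unif (fun a : Fin N → Bool => if EvP θ n N a then (1 : ℝ) else 0) ≤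
        2 ^ P1.eval n * (θ.k * (1 / 2) ^ (2 ^ n / 8)) := by
  sorry
end P34

section P35
/-- P35 (the real asymptotics for P36) -/
theorem asymP (P Q : Polynomial ℕ) (k : ℕ) (E : ℕ → Prop) (hE : ∀ᶠ n in Filter.atTop, E n)
    {f : ℕ → ℝ} (hf : Cond f) (δ : ℝ) (hδ : 0 < δ) :
    ∃ n N : ℕ, E n ∧ 2 ^ (Q.eval n) ≤ N ∧
      (2 ^ P.eval n * (k * (1 / 2) ^ (2 ^ n / 8))) * 2 ^ f N ≤ δ := by
  sorry
end P35

section P36
/-- P36 (the oracles outside a null set) -/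
theorem nullP {f : ℕ → ℝ} (hf : Cond f) (k : ℕ) (hk : 1 ≤ k) :
    Null f {A : Oracle | WithAdvice (IsSigma A k) (norLang k A)} := by
  sorry
end P36

end Pool.Agent.H620R2.PHG
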